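import Pool.Agent.Helper55.LP2.TwoP
import Pool.Agent.Helper48.LIP.Zvf

/-! The two points lemma with powers of two. -/

set_option autoImplicit false

namespace Pool.Agent.Helper55.LP2

open Finset MvPolynomial Matrix Pool.Agent.Helper3.LF Pool.Agent.Helper48.NS Pool.Agent.Helper48.LIP
open Pool.Agent.Helper95.LF (PdM)
open Pool.Agent.Helper89.LX (qf)
open Pool.Agent.Helper39.LIP

noncomputable section

section gen
variable {N D : ℕ}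

theorem gd_sum (u p : Fin N → ℝ) : (gd u p : Mon N D → ℝ) = ∑ j, u j • dd j p := by
  funext a
  unfold gd
  rw [Finset.sum_apply]
  exact Finset.sum_congr rfl fun j _ => rfl

/-- derivatives in small directions -/
theorem gd_small {A : Matrix (Mon N D) (Mon N D) ℝ} (hA : PdM A) (p u q : Fin N → ℝ) {r δ M : ℝ} (hr : 0 < r)
    (hp : ∀ j, |p j - q j| ≤ 2 * r) (hM : phi r A q ≤ M) (hu : ∀ j, |u j| ≤ δ) :
    r ^ 2 * qf A (gd u p) ≤ (N ^ 2 * (Cm N D * 2 ^ (N * D + D)) ^ 2) * δ ^ 2 * M := by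
  have h1 := qf_sum_le hA.1 (fun v => hA.nonneg v) (fun j => u j • (dd j p : Mon N D → ℝ))
  rw [← gd_sum, Fintype.card_fin] at h1
  have hM0 : 0 ≤ phi r A q := phi_nonneg _ (fun y => hA.nonneg y) _
  have h2 : ∀ j ∈ (Finset.univ : Finset (Fin N)), r ^ 2 * qf A (u j • (dd j p : Mon N D → ℝ)) ≤
      δ ^ 2 * ((Cm N D * 2 ^ (N * D + D)) ^ 2 * M) := by
    intro j _
    rw [qf_smul_vec]
    have h3 := grad_le hA r 2 hr (by norm_num) q p hp j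
    have h4 : (u j) ^ 2 ≤ δ ^ 2 := by
      rw [← sq_abs]
      exact pow_le_pow_left₀ (abs_nonneg _) (hu j) 2
    have h5 : r ^ 2 * qf A (dd j p) ≤ (Cm N D * 2 ^ (N * D + D)) ^ 2 * M :=
      h3.trans (mul_le_mul_of_nonneg_left hM (sq_nonneg _))
    have h6 : 0 ≤ r ^ 2 * qf A (dd j p) := mul_nonneg (sq_nonneg _) (hA.nonneg _)
    calc r ^ 2 * (u j ^ 2 * qf A (dd j p)) = u j ^ 2 * (r ^ 2 * qf A (dd j p)) := by ring
      _ ≤ δ ^ 2 * ((Cm N D * 2 ^ (N * D + D)) ^ 2 * M) := mul_le_mul h4 h5 h6 (sq_nonneg _)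
  have h7 := Finset.sum_le_card_nsmul _ _ _ h2
  rw [← Finset.mul_sum, nsmul_eq_mul, Finset.card_univ, Fintype.card_fin] at h7
  have hN0 : (0 : ℝ) ≤ N := Nat.cast_nonneg N
  calc r ^ 2 * qf A (gd u p) ≤ r ^ 2 * (N * ∑ j, qf A (u j • (dd j p : Mon N D → ℝ))) :=
        mul_le_mul_of_nonneg_left h1 (sq_nonneg _)
    _ = N * (r ^ 2 * ∑ j, qf A (u j • (dd j p : Mon N D → ℝ))) := by ring
    _ ≤ N * (N * (δ ^ 2 * ((Cm N D * 2 ^ (N * D + D)) ^ 2 * M))) := mul_le_mul_of_nonneg_left h7 hN0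
    _ = _ := by ring

/-- the vertical part of a small vector -/
theorem vpt_small {A : Matrix (Mon N D) (Mon N D) ℝ} (hA : PdM A) (p z u q : Fin N → ℝ) (Λ : ℝ) (hΛ : 0 < Λ)
    (hΛ' : Λ ^ 2 ≤ qf A (gd z p)) {r δ M : ℝ} (hr : 0 < r) (hp : ∀ j, |p j - q j| ≤ 2 * r) (hM : phi r A q ≤ M)
    (hu : ∀ j, |u j| ≤ δ) :
    (vpt A z p u) ^ 2 * (r ^ 2 * Λ ^ 2) ≤ (N ^ 2 * (Cm N D * 2 ^ (N * D + D)) ^ 2) * δ ^ 2 * M := by
  have hq : 0 < qf A (gd z p) := lt_of_lt_of_le (by positivity) hΛ'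
  have h1 := vpt_move hA z p u 0 hq
  have e1 : (fun k => u k - 0 * z k) = u := by
    funext k
    ring
  rw [e1, zero_sub, neg_sq] at h1
  have h2 := gd_small hA p u q hr hp hM hu
  calc (vpt A z p u) ^ 2 * (r ^ 2 * Λ ^ 2) = r ^ 2 * ((vpt A z p u) ^ 2 * Λ ^ 2) := by ring
    _ ≤ r ^ 2 * ((vpt A z p u) ^ 2 * qf A (gd z p)) := by
        apply mul_le_mul_of_nonneg_left _ (sq_nonneg _)
        exact mul_le_mul_of_nonneg_left hΛ' (sq_nonneg _)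
    _ ≤ r ^ 2 * qf A (gd u p) := mul_le_mul_of_nonneg_left h1 (sq_nonneg _)
    _ ≤ _ := h2

/-- lines through a neighbouring point -/
theorem line_near {m : ℕ} {A : Matrix (Mon (m + 1) D) (Mon (m + 1) D) ℝ} (hA : PdM A) (a x : Fin m → ℝ)
    (t r h M : ℝ) (hr : 0 < r) (hb : ∀ u, |u - t| ≤ h → phi r A (pl a x u) ≤ M) (p : Fin (m + 1) → ℝ)
    (hp : ∀ j, |p j - pl a x t j| ≤ 2 * r) (u : ℝ) (hu : |u| ≤ h) :
    qf A (vv (fun j => p j + u * (Fin.cons 1 x : Fin (m + 1) → ℝ) j)) ≤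
      nn (m + 1) D * (Cu D * Cm (m + 1) D * 3 ^ D) ^ 2 * M := by
  have h1 := hb (t + u) (by rw [add_sub_cancel_left]; exact hu)
  have h2 := phi_comp A hA r r 3 hr hr.le (by norm_num) (pl a x (t + u))
    (fun j => p j + u * (Fin.cons 1 x : Fin (m + 1) → ℝ) j) (fun j => by
      have e1 : p j + u * (Fin.cons 1 x : Fin (m + 1) → ℝ) j - pl a x (t + u) j = p j - pl a x t j := by
        rw [pl_line, pl_line]
        ring
      rw [e1]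
      have := hp j
      linarith)
  have h3 := Pool.Agent.Helper93.LIP.qf_vv_le (fun v => hA.nonneg v) r
    (fun j => p j + u * (Fin.cons 1 x : Fin (m + 1) → ℝ) j)
  have h4 : 0 ≤ nn (m + 1) D * (Cu D * Cm (m + 1) D * 3 ^ D) ^ 2 := by
    have := nn_one (m + 1) D
    positivity
  exact h3.trans (h2.trans (mul_le_mul_of_nonneg_left h1 h4))

end gen

/-- the base velocity -/
theorem rmv_cons (i : Fin 3) (x : Fin 3 → ℝ) :
    rmv i.succ (Fin.cons 1 x : Fin (3 + 1) → ℝ) = (Fin.cons 1 (fun j => x (i.succAbove j)) : Fin (2 + 1) → ℝ) := by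
  funext j
  unfold rmv
  refine Fin.cases ?_ (fun j => ?_) j
  · rw [Fin.succ_succAbove_zero, Fin.cons_zero, Fin.cons_zero]
  · rw [Fin.succ_succAbove_succ, Fin.cons_succ, Fin.cons_succ]

/-! ### powers of two -/

theorem p2_sq (a n : ℝ) : ((2 : ℝ) ^ (a * n)) ^ 2 = 2 ^ (2 * a * n) := by
  rw [← Real.rpow_natCast, ← Real.rpow_mul (by norm_num)]
  congr 1
  push_cast
  ring

theorem p2_pow (a n : ℝ) (k : ℕ) : ((2 : ℝ) ^ (a * n)) ^ k = 2 ^ (k * a * n) := by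
  rw [← Real.rpow_natCast, ← Real.rpow_mul (by norm_num)]
  congr 1
  ring

theorem p2_mul (a b n : ℝ) : (2 : ℝ) ^ (a * n) * 2 ^ (b * n) = 2 ^ ((a + b) * n) := by
  rw [← Real.rpow_add (by norm_num)]
  congr 1
  ring

theorem p2_div (a b n : ℝ) : (2 : ℝ) ^ (a * n) / 2 ^ (b * n) = 2 ^ ((a - b) * n) := by
  rw [← Real.rpow_sub (by norm_num)]
  congr 1
  ring

theorem p2_abs {C e x y n : ℝ} (hn : 0 < n) (hC : C ≤ 2 ^ (e * n)) (h : e + x ≤ y) :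
    C * (2 : ℝ) ^ (x * n) ≤ 2 ^ (y * n) := by
  calc C * (2 : ℝ) ^ (x * n) ≤ 2 ^ (e * n) * 2 ^ (x * n) := mul_le_mul_of_nonneg_right hC (by positivity)
    _ = 2 ^ ((e + x) * n) := p2_mul e x n
    _ ≤ _ := Real.rpow_le_rpow_of_exponent_le (by norm_num) (mul_le_mul_of_nonneg_right h hn.le)

theorem p2_le {x y n : ℝ} (hn : 0 < n) (h : x ≤ y) : (2 : ℝ) ^ (x * n) ≤ 2 ^ (y * n) :=
  Real.rpow_le_rpow_of_exponent_le (by norm_num) (mul_le_mul_of_nonneg_right h hn.le)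

theorem qf_add2 {ι : Type} [Fintype ι] {A : Matrix ι ι ℝ} (h0 : ∀ v, 0 ≤ qf A v) (x y : ι → ℝ) :
    qf A (x + y) ≤ 2 * qf A x + 2 * qf A y := by
  have h1 := Pool.Agent.Helper93.LIP.qf_sub_le h0 x ((-1 : ℝ) • y)
  rw [qf_smul_vec] at h1
  have e1 : x - (-1 : ℝ) • y = x + y := by
    rw [neg_one_smul, sub_neg_eq_add]
  rw [e1] at h1
  linarith

/-- the constant -/
def Kc (D : ℕ) : ℝ :=
  nn (3 + 1) D * (Cu D * Cm (3 + 1) D * 3 ^ D) ^ 2 + 5 + 2 * CP D * Cu D +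
  32 * Cu D ^ 2 * (2 + 2 * (36 * ((2 + 1 : ℕ) ^ 2 * (Cm (2 + 1) 1 * 2 ^ ((2 + 1) * 1 + 1)) ^ 2))) +
  16 * (2 * Cu D ^ 2 + 72 * ((3 + 1 : ℕ) ^ 2 * (Cm (3 + 1) D * 2 ^ ((3 + 1) * D + D)) ^ 2)) +
  (4 * (128 * 6 ^ D * Cu D ^ 4 * CP D) ^ 2 * (1 + nn (2 + 1) 1 * (Cu 1 * Cm (2 + 1) 1 * 3 ^ 1) ^ 2) +
    2 * (2 * Cu D ^ 2 + 72 * ((3 + 1 : ℕ) ^ 2 * (Cm (3 + 1) D * 2 ^ ((3 + 1) * D + D)) ^ 2)))

/-- the bound of the disc lemma -/
theorem bd_up (D : ℕ) {R θ a B Λ h G w Λ₂ : ℝ} (hR : 0 < R) (hθ : 0 < θ) (ha : 0 < a) (hB : 0 < B) (hΛ : 0 < Λ)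
    (hh : 0 < h) (hG : 1 ≤ G) (hw : 0 < w) (hΛ₂ : 0 < Λ₂) :
    bd (3 + 1) D R θ a B Λ h G * w / Λ₂ ≤ 128 * 6 ^ D * Cu D ^ 4 * CP D *
      (G ^ D * (R ^ 2 / θ) ^ (2 * D) * a ^ 2 * (B / Λ) * (w / h) / Λ₂) := by
  have hCu := Cu_one D
  have hCP := CP_pos D
  have h1 : (G + 1) ^ D ≤ 2 ^ D * G ^ D := by
    rw [← mul_pow]
    exact pow_le_pow_left₀ (by linarith) (by linarith) D
  have e1 : bd (3 + 1) D R θ a B Λ h G * w / Λ₂ = (G + 1) ^ D * (128 * 3 ^ D * Cu D ^ 4 * CP D *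
      ((R ^ 2 / θ) ^ (2 * D) * a ^ 2 * (B / Λ) * (w / h) / Λ₂)) := by
    unfold bd hs Md fP
    push_cast
    field_simp
    ring
  have e2 : 128 * 6 ^ D * Cu D ^ 4 * CP D * (G ^ D * (R ^ 2 / θ) ^ (2 * D) * a ^ 2 * (B / Λ) * (w / h) / Λ₂) =
      (2 ^ D * G ^ D) * (128 * 3 ^ D * Cu D ^ 4 * CP D *
      ((R ^ 2 / θ) ^ (2 * D) * a ^ 2 * (B / Λ) * (w / h) / Λ₂)) := by
    have e3 : (6 : ℝ) ^ D = 2 ^ D * 3 ^ D := by
      rw [← mul_pow]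
      norm_num
    rw [e3]
    ring
  rw [e1, e2]
  exact mul_le_mul_of_nonneg_right h1 (by positivity)

/-- the bound of the disc lemma, powers of two -/
theorem bd_two (D : ℕ) {n c c₀ e ν : ℝ} (hn : 0 < n) (hc : c ≤ c₀) (he : 0 < e) :
    bd (3 + 1) D (2 ^ (2 * e * n)) (2 ^ (-(ν + 4 * e) * n)) (2 ^ (2 * e * n)) (2 ^ ((1 + e) * n))
      (2 ^ ((1 - 2 * e) * n)) (2 ^ (-c₀ * n)) (2 ^ ((c₀ - c + 8 * e) * n)) * 2 ^ (-(c - e) * n) /
      2 ^ ((1 - 2 * e) * n) ≤ 128 * 6 ^ D * Cu D ^ 4 * CP D *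
      2 ^ (-(1 - (D + 1) * (c₀ - c) - 2 * D * ν - (24 * D + 10) * e) * n) := by
  have hG : (1 : ℝ) ≤ 2 ^ ((c₀ - c + 8 * e) * n) :=
    Real.one_le_rpow (by norm_num) (mul_nonneg (by linarith) hn.le)
  refine (bd_up D (by positivity) (by positivity) (by positivity) (by positivity) (by positivity) (by positivity) hG
    (by positivity) (by positivity)).trans (le_of_eq ?_)
  congr 1
  rw [p2_pow, p2_sq, p2_div, p2_pow, p2_div, p2_div, p2_mul, p2_mul, p2_mul, p2_mul, p2_div]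
  congr 1
  push_cast
  ring

/-- pieces of the constant -/
theorem Kc_ge (D : ℕ) : 5 ≤ Kc D ∧ nn (3 + 1) D * (Cu D * Cm (3 + 1) D * 3 ^ D) ^ 2 ≤ Kc D ∧ 2 * CP D * Cu D ≤ Kc D ∧
    32 * Cu D ^ 2 * (2 + 2 * (36 * ((2 + 1 : ℕ) ^ 2 * (Cm (2 + 1) 1 * 2 ^ ((2 + 1) * 1 + 1)) ^ 2))) ≤ Kc D ∧
    16 * (2 * Cu D ^ 2 + 72 * ((3 + 1 : ℕ) ^ 2 * (Cm (3 + 1) D * 2 ^ ((3 + 1) * D + D)) ^ 2)) ≤ Kc D ∧
    4 * (128 * 6 ^ D * Cu D ^ 4 * CP D) ^ 2 * (1 + nn (2 + 1) 1 * (Cu 1 * Cm (2 + 1) 1 * 3 ^ 1) ^ 2) +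
      2 * (2 * Cu D ^ 2 + 72 * ((3 + 1 : ℕ) ^ 2 * (Cm (3 + 1) D * 2 ^ ((3 + 1) * D + D)) ^ 2)) ≤ Kc D := by
  have h1 := Cu_one D
  have h2 := CP_pos D
  have h3 := nn_one (3 + 1) D
  have h4 := nn_one (2 + 1) 1
  have a1 : 0 ≤ nn (3 + 1) D * (Cu D * Cm (3 + 1) D * 3 ^ D) ^ 2 := by positivity
  have a2 : 0 ≤ 2 * CP D * Cu D := by positivity
  have a3 : 0 ≤ 32 * Cu D ^ 2 * (2 + 2 * (36 * ((2 + 1 : ℕ) ^ 2 * (Cm (2 + 1) 1 * 2 ^ ((2 + 1) * 1 + 1)) ^ 2))) := by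
    positivity
  have a4 : 0 ≤ 16 * (2 * Cu D ^ 2 + 72 * ((3 + 1 : ℕ) ^ 2 * (Cm (3 + 1) D * 2 ^ ((3 + 1) * D + D)) ^ 2)) := by
    positivity
  have a5 : 0 ≤ 4 * (128 * 6 ^ D * Cu D ^ 4 * CP D) ^ 2 *
      (1 + nn (2 + 1) 1 * (Cu 1 * Cm (2 + 1) 1 * 3 ^ 1) ^ 2) +
      2 * (2 * Cu D ^ 2 + 72 * ((3 + 1 : ℕ) ^ 2 * (Cm (3 + 1) D * 2 ^ ((3 + 1) * D + D)) ^ 2)) := by positivity
  unfold Kc
  refine ⟨?_, ?_, ?_, ?_, ?_, ?_⟩ <;> linarith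

/-- THE TWO POINTS LEMMA, powers of two -/
theorem pt_cmp (D : ℕ) (hD : 1 ≤ D) {n c c₀ e ν θ : ℝ} (hn : 0 < n) (hc : c ≤ c₀) (he : 0 < e) (hν : 0 ≤ ν)
    (hKc : Kc D ≤ 2 ^ (e * n)) (hθ : 2 * D * ν + (16 * D + 3) * e ≤ θ) (i₀ : Fin 3)
    {A : Matrix (Mon (3 + 1) D) (Mon (3 + 1) D) ℝ} (hA : PdM A)
    (hT : ∀ (j : Fin (3 + 1)) v, qf A (Tm j *ᵥ v) ≤ (2 ^ ((1 + e) * n)) ^ 2 * qf A v)
    {g : Matrix (Mon (2 + 1) 1) (Mon (2 + 1) 1) ℝ} (hg : PdM g)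
    (low : ∀ u : Fin (2 + 1) → ℝ, 2 ^ (2 * (c - e) * n) * (u ⬝ᵥ u) ≤ qf g (gv u))
    (nv : ℕ → Mon (2 + 1) 1 → ℝ) (hd : ∀ i ≤ D, ∀ u : Fin 2 → ℝ, (nv i ⬝ᵥ gM u) ^ 2 ≤ qf g (gM u))
    (hu : ∀ i ≤ D, ∃ u : Fin 2 → ℝ, qf g (gM u) = 1 ∧ nv i ⬝ᵥ gM u = 1)
    (α ξ : ℕ → ℕ → Fin 3 → ℝ) (t : ℕ → ℕ → ℝ) (p : Fin (3 + 1) → ℝ) {r : ℝ} (hr : 0 < r)
    (h1 : ∀ i ≤ D, ∀ k ≤ D, ∀ j, |p j - pl (α i k) (ξ i k) (t i k) j| ≤ 2 * r)
    (h2 : ∀ i ≤ D, ∀ k ≤ D, ∀ u, |u - t i k| ≤ 2 ^ (-c₀ * n) → phi r A (pl (α i k) (ξ i k) u) ≤ 2 ^ (2 * e * n))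
    (h4 : ∀ i ≤ D, ∀ k ≤ D, qf g (gv (Fin.cons 1 (fun j => ξ i k (i₀.succAbove j)) : Fin (2 + 1) → ℝ)) ≤
      2 ^ (2 * (c + e) * n))
    (h6 : ∀ i ≤ D, ∀ k ≤ D, (nv i ⬝ᵥ gv (Fin.cons 1 (fun j => ξ i k (i₀.succAbove j)) : Fin (2 + 1) → ℝ)) ^ 2 ≤
      2 ^ (2 * (c + e - θ) * n))
    (h7 : ∀ i ≤ D, ∀ k ≤ D, ∀ l ≤ D, k ≠ l → 2 ^ (-(2 * (ν + e)) * n) ≤
      ∑ j : Fin 2, (ξ i k (i₀.succAbove j) - ξ i l (i₀.succAbove j)) ^ 2)
    (h8 : ∀ i ≤ D, ∀ j ≤ D, i ≠ j → ¬ Clo g (2 ^ (-ν * n)) (nv i) (nv j))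
    (h9 : 2 ^ (2 * (1 - 2 * e) * n) ≤ qf A (dd i₀.succ p))
    (p' : Fin (3 + 1) → ℝ) (h9' : 2 ^ (2 * (1 - 2 * e) * n) ≤ qf A (dd i₀.succ p'))
    (α' ξ' : Fin 3 → ℝ) (t' : ℝ) (h10 : ∀ j, |p' j - pl α' ξ' t' j| ≤ 2 * r) (h10a : ∀ j, |α' j - α 0 0 j| ≤ r)
    (h10x : ∀ j, |ξ' j - ξ 0 0 j| ≤ r) (h10t : |t' - t 0 0| ≤ 2 ^ (-c₀ * n)) (h10b : |t'| ≤ 2 ^ (e * n))
    (h11 : phi r g (rmv i₀.succ (pl α' ξ' t')) ≤ 2 ^ (e * n)) (x : Mon (3 + 1) 1 → ℝ) :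
    ((Lp A i₀.succ p - Lp A i₀.succ p') ⬝ᵥ x) ^ 2 ≤
      2 ^ (-(2 * (1 - (D + 1) * (c₀ - c) - 2 * D * ν - (24 * D + 12) * e)) * n) *
        (x ⬝ᵥ x + qf g (rsv i₀.succ x)) := by
  obtain ⟨k5, k1, k2, k3, k4, k6⟩ := Kc_ge D
  have hDr : (1 : ℝ) ≤ D := by exact_mod_cast hD
  have hCu := Cu_one D
  have hCP := CP_pos D
  have hen : (5 : ℝ) ≤ 2 ^ (e * n) := k5.trans hKc
  have hzv : ∀ q : Fin (3 + 1) → ℝ, (gd (zv i₀.succ) q : Mon (3 + 1) D → ℝ) = dd i₀.succ q := by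
    intro q
    funext a
    unfold gd zv
    rw [Finset.sum_eq_single i₀.succ]
    · rw [Pi.single_eq_same, one_mul]
    · intro b _ hb
      rw [Pi.single_eq_of_ne hb, zero_mul]
    · intro h
      exact absurd (Finset.mem_univ _) h
  set v : ℕ → ℕ → Fin (3 + 1) → ℝ := fun i k => (Fin.cons 1 (ξ i k) : Fin (3 + 1) → ℝ) with hv
  have hrv : ∀ i k, rmv i₀.succ (v i k) = (Fin.cons 1 (fun j => ξ i k (i₀.succAbove j)) : Fin (2 + 1) → ℝ) :=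
    fun i k => rmv_cons i₀ (ξ i k)
  have hgn : ∀ u, 0 ≤ qf g u := fun u => hg.nonneg u
  -- the numbers
  set w : ℝ := 2 ^ (-(c - e) * n) with hw
  set K : ℝ := 2 ^ (2 * e * n) with hK
  set θ' : ℝ := 2 ^ (-(ν + 4 * e) * n) with hθ'
  set ρ : ℝ := 2 ^ (-(θ - 2 * e) * n) with hρ
  set G : ℝ := 2 ^ ((c₀ - c + 8 * e) * n) with hG
  have hw2 : w ^ 2 = 2 ^ (-(2 * (c - e)) * n) := by
    rw [hw, p2_sq]
    congr 1
    ring
  have hw0 : 0 < w := by positivity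
  have hθe : ν + 7 * e ≤ θ := by nlinarith
  have low' : ∀ u : Fin (2 + 1) → ℝ, u ⬝ᵥ u ≤ w ^ 2 * qf g (gv u) := by
    intro u
    have a := mul_le_mul_of_nonneg_left (low u) (show (0 : ℝ) ≤ w ^ 2 by positivity)
    rw [← mul_assoc, hw2, p2_mul] at a
    have e1 : (-(2 * (c - e)) + 2 * (c - e)) * n = 0 := by ring
    rw [e1, Real.rpow_zero, one_mul] at a
    rw [hw2]
    exact a
  have hcoord : ∀ (u : Fin (2 + 1) → ℝ) (j : Fin (2 + 1)), (u j) ^ 2 ≤ u ⬝ᵥ u := by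
    intro u j
    unfold dotProduct
    rw [pow_two]
    exact Finset.single_le_sum (f := fun a => u a * u a) (fun a _ => mul_self_nonneg _) (Finset.mem_univ j)
  have hΛ2 : ∀ q : Fin (3 + 1) → ℝ, 2 ^ (2 * (1 - 2 * e) * n) ≤ qf A (dd i₀.succ q) →
      ((2 : ℝ) ^ ((1 - 2 * e) * n)) ^ 2 ≤ qf A (gd (zv i₀.succ) q) := by
    intro q hq
    rw [p2_sq, hzv]
    exact hq
  have hline : ∀ i ≤ D, ∀ k ≤ D, ∀ u, |u| ≤ 2 ^ (-c₀ * n) → qf A (vv (fun j => p j + u * v i k j)) ≤ K ^ 2 := by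
    intro i hi k hk u hu'
    have a := line_near hA (α i k) (ξ i k) (t i k) r (2 ^ (-c₀ * n)) (2 ^ (2 * e * n)) hr (h2 i hi k hk) p
      (h1 i hi k hk) u hu'
    refine a.trans ?_
    rw [hK, p2_sq]
    exact p2_abs hn (k1.trans hKc) (by linarith)
  -- the second point
  set B' : Fin (3 + 1) → ℝ := pl α' ξ' t' with hB'
  set ε : Fin (3 + 1) → ℝ := fun j => (p' j - p j) - (t' - t 0 0) * v 0 0 j with hε
  have hεb : ∀ j, |ε j| ≤ 6 * 2 ^ (e * n) * r := by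
    intro j
    have a1 := h10 j
    have a2 := h1 0 (Nat.zero_le _) 0 (Nat.zero_le _) j
    have a3 : |B' j - pl (α 0 0) (ξ 0 0) (t 0 0) j - (t' - t 0 0) * v 0 0 j| ≤ (1 + |t'|) * r := by
      refine Fin.cases ?_ (fun j => ?_) j
      · rw [hB', pl_zero, pl_zero]
        show |t' - t 0 0 - (t' - t 0 0) * (Fin.cons 1 (ξ 0 0) : Fin (3 + 1) → ℝ) 0| ≤ _
        rw [Fin.cons_zero, mul_one, sub_self, abs_zero]
        positivity
      · rw [hB', pl_succ, pl_succ]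
        show |α' j + t' * ξ' j - (α 0 0 j + t 0 0 * ξ 0 0 j) -
          (t' - t 0 0) * (Fin.cons 1 (ξ 0 0) : Fin (3 + 1) → ℝ) j.succ| ≤ _
        rw [Fin.cons_succ]
        have e1 : α' j + t' * ξ' j - (α 0 0 j + t 0 0 * ξ 0 0 j) - (t' - t 0 0) * ξ 0 0 j =
            (α' j - α 0 0 j) + t' * (ξ' j - ξ 0 0 j) := by ring
        rw [e1]
        have b1 := abs_add_le (α' j - α 0 0 j) (t' * (ξ' j - ξ 0 0 j))
        rw [abs_mul] at b1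
        have b2 := mul_le_mul_of_nonneg_left (h10x j) (abs_nonneg t')
        have b3 := h10a j
        linarith
    have e2 : ε j = (p' j - B' j) - (p j - pl (α 0 0) (ξ 0 0) (t 0 0) j) +
        (B' j - pl (α 0 0) (ξ 0 0) (t 0 0) j - (t' - t 0 0) * v 0 0 j) := by
      rw [hε]
      ring
    rw [e2]
    have a4 := abs_add_le ((p' j - B' j) - (p j - pl (α 0 0) (ξ 0 0) (t 0 0) j))
      (B' j - pl (α 0 0) (ξ 0 0) (t 0 0) j - (t' - t 0 0) * v 0 0 j)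
    have a5 := abs_sub (p' j - B' j) (p j - pl (α 0 0) (ξ 0 0) (t 0 0) j)
    have a6 : (1 + |t'|) * r ≤ (1 + 2 ^ (e * n)) * r := mul_le_mul_of_nonneg_right (by linarith) hr.le
    have a7 : 5 * r ≤ 5 * 2 ^ (e * n) * r := by
      apply mul_le_mul_of_nonneg_right _ hr.le
      linarith
    calc _ ≤ 2 * r + 2 * r + (1 + 2 ^ (e * n)) * r := by linarith
      _ = 5 * r + 2 ^ (e * n) * r := by ring
      _ ≤ 5 * 2 ^ (e * n) * r + 2 ^ (e * n) * r := by linarith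
      _ = _ := by ring
  have hpp : (fun j => p' j - p j) = fun j => (t' - t 0 0) * v 0 0 j + 1 * ε j := by
    funext j
    rw [hε]
    ring
  have ht2 : (t' - t 0 0) ^ 2 ≤ 2 ^ (-(2 * c₀) * n) := by
    have a : (t' - t 0 0) ^ 2 ≤ ((2 : ℝ) ^ (-c₀ * n)) ^ 2 := by
      rw [← sq_abs]
      exact pow_le_pow_left₀ (abs_nonneg _) h10t 2
    refine a.trans (le_of_eq ?_)
    rw [p2_sq]
    congr 1
    ring
  have hr2 : 0 < r ^ 2 := by positivity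
  -- the metric of the displacement
  have hp1 : w ^ 2 * qf g (gv (rmv i₀.succ fun j => p' j - p j)) ≤
      (G * hs (3 + 1) D K (2 ^ ((1 + e) * n)) (2 ^ ((1 - 2 * e) * n)) (2 ^ (-c₀ * n))) ^ 2 := by
    have a1 : gv (rmv i₀.succ fun j => p' j - p j) = (t' - t 0 0) • gv (rmv i₀.succ (v 0 0)) + gv (rmv i₀.succ ε) := by
      rw [hpp]
      have b1 : rmv i₀.succ (fun j => (t' - t 0 0) * v 0 0 j + 1 * ε j) =
          (t' - t 0 0) • rmv i₀.succ (v 0 0) + rmv i₀.succ ε := by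
        funext j
        show (t' - t 0 0) * v 0 0 (i₀.succ.succAbove j) + 1 * ε (i₀.succ.succAbove j) =
          (t' - t 0 0) * v 0 0 (i₀.succ.succAbove j) + ε (i₀.succ.succAbove j)
        rw [one_mul]
      rw [b1, gv_add, gv_smul]
    have a2 : qf g (gv (rmv i₀.succ ε)) ≤ (36 * ((2 + 1 : ℕ) ^ 2 * (Cm (2 + 1) 1 * 2 ^ ((2 + 1) * 1 + 1)) ^ 2)) *
        2 ^ (3 * e * n) := by
      have b1 := gd_small hg (rmv i₀.succ B') (rmv i₀.succ ε) (rmv i₀.succ B') hr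
        (fun j => by rw [sub_self, abs_zero]; positivity) h11 (fun j => hεb (i₀.succ.succAbove j))
      have b2 : (gd (rmv i₀.succ ε) (rmv i₀.succ B') : Mon (2 + 1) 1 → ℝ) = gv (rmv i₀.succ ε) := by
        funext a
        unfold gd gv
        exact Finset.sum_congr rfl fun j _ => by rw [dd_one j (rmv i₀.succ B') 0]
      rw [b2] at b1
      have b3 : ((2 + 1 : ℕ) ^ 2 * (Cm (2 + 1) 1 * 2 ^ ((2 + 1) * 1 + 1)) ^ 2) * (6 * 2 ^ (e * n) * r) ^ 2 *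
          2 ^ (e * n) = r ^ 2 * ((36 * ((2 + 1 : ℕ) ^ 2 * (Cm (2 + 1) 1 * 2 ^ ((2 + 1) * 1 + 1)) ^ 2)) *
          2 ^ (3 * e * n)) := by
        have b4 : (2 : ℝ) ^ (3 * e * n) = (2 ^ (e * n)) ^ 2 * 2 ^ (e * n) := by
          rw [p2_sq, p2_mul]
          congr 1
          ring
        rw [b4]
        ring
      rw [b3] at b1
      exact le_of_mul_le_mul_left b1 hr2
    have a3 : qf g ((t' - t 0 0) • gv (rmv i₀.succ (v 0 0))) ≤ 2 ^ (2 * e * n) := by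
      rw [qf_smul_vec, hrv]
      have b1 := h4 0 (Nat.zero_le _) 0 (Nat.zero_le _)
      refine (mul_le_mul ht2 b1 (hgn _) (by positivity)).trans ?_
      rw [p2_mul]
      apply p2_le hn
      linarith
    have a4 := qf_add2 hgn ((t' - t 0 0) • gv (rmv i₀.succ (v 0 0))) (gv (rmv i₀.succ ε))
    rw [← a1] at a4
    have a5 : (2 : ℝ) ^ (2 * e * n) ≤ 2 ^ (3 * e * n) := p2_le hn (by linarith)
    set C₁ : ℝ := 36 * ((2 + 1 : ℕ) ^ 2 * (Cm (2 + 1) 1 * 2 ^ ((2 + 1) * 1 + 1)) ^ 2) with hC₁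
    have a6 : qf g (gv (rmv i₀.succ fun j => p' j - p j)) ≤ (2 + 2 * C₁) * 2 ^ (3 * e * n) := by
      have : (2 + 2 * C₁) * (2 : ℝ) ^ (3 * e * n) = 2 * 2 ^ (3 * e * n) + 2 * (C₁ * 2 ^ (3 * e * n)) := by ring
      rw [this]
      linarith
    have a7 : G * hs (3 + 1) D K (2 ^ ((1 + e) * n)) (2 ^ ((1 - 2 * e) * n)) (2 ^ (-c₀ * n)) =
        2 ^ ((-c + 3 * e) * n) / (4 * Cu D) := by
      unfold hs
      rw [hG, hK, eq_div_iff (by positivity)]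
      have b1 : (2 : ℝ) ^ ((c₀ - c + 8 * e) * n) * (2 ^ (-c₀ * n) / (Cu D * 2 ^ (2 * e * n) * ((3 + 1 : ℕ) : ℝ) *
          2 ^ ((1 + e) * n) / 2 ^ ((1 - 2 * e) * n))) * (4 * Cu D) =
          (2 ^ ((c₀ - c + 8 * e) * n) * 2 ^ (-c₀ * n) * 2 ^ ((1 - 2 * e) * n)) /
          (2 ^ (2 * e * n) * 2 ^ ((1 + e) * n)) := by
        push_cast
        field_simp
      rw [b1, p2_mul, p2_mul, p2_mul, p2_div]
      congr 1
      ring
    have a8 : ((2 : ℝ) ^ ((-c + 3 * e) * n)) ^ 2 = 2 ^ (2 * (-c + 3 * e) * n) := p2_sq _ _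
    rw [a7, div_pow, le_div_iff₀ (by positivity), a8]
    calc w ^ 2 * qf g (gv (rmv i₀.succ fun j => p' j - p j)) * (4 * Cu D) ^ 2 ≤
        w ^ 2 * ((2 + 2 * C₁) * 2 ^ (3 * e * n)) * (4 * Cu D) ^ 2 := by
          apply mul_le_mul_of_nonneg_right _ (by positivity)
          exact mul_le_mul_of_nonneg_left a6 (by positivity)
      _ = (16 * Cu D ^ 2 * (2 + 2 * C₁)) * 2 ^ ((-(2 * (c - e)) + 3 * e) * n) := by
          rw [hw2, ← p2_mul]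
          ring
      _ ≤ 2 ^ (2 * (-c + 3 * e) * n) := by
          refine p2_abs hn (e := e) ?_ (by linarith)
          refine le_trans ?_ (k3.trans hKc)
          apply mul_le_mul_of_nonneg_right _ (by positivity)
          apply mul_le_mul_of_nonneg_right (by norm_num) (by positivity)
  -- the vertical part of the displacement
  set C₃ : ℝ := 2 * Cu D ^ 2 + 72 * ((3 + 1 : ℕ) ^ 2 * (Cm (3 + 1) D * 2 ^ ((3 + 1) * D + D)) ^ 2) with hC₃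
  have hvp : vpt A (zv i₀.succ) p (fun j => p' j - p j) ^ 2 ≤ C₃ * 2 ^ (-(2 * (1 - 4 * e)) * n) := by
    rw [hpp, vpt_lin, one_mul]
    have a1 := vpt_line hA p (zv i₀.succ) (2 ^ ((1 - 2 * e) * n)) (by positivity) (hΛ2 p h9) (v 0 0) K
      (2 ^ (-c₀ * n)) (by positivity) (by positivity) (hline 0 (Nat.zero_le _) 0 (Nat.zero_le _))
    have a2 := vpt_small hA p (zv i₀.succ) ε (pl (α 0 0) (ξ 0 0) (t 0 0)) (2 ^ ((1 - 2 * e) * n)) (by positivity)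
      (hΛ2 p h9) hr (h1 0 (Nat.zero_le _) 0 (Nat.zero_le _)) (h2 0 (Nat.zero_le _) 0 (Nat.zero_le _) (t 0 0)
      (by rw [sub_self, abs_zero]; positivity)) hεb
    have a3 : |(t' - t 0 0) * vpt A (zv i₀.succ) p (v 0 0)| ≤ Cu D * 2 ^ (-(1 - 4 * e) * n) := by
      rw [abs_mul]
      refine (mul_le_mul h10t a1 (abs_nonneg _) (by positivity)).trans (le_of_eq ?_)
      have b1 : (2 : ℝ) ^ (-c₀ * n) * (Cu D * K / (2 ^ (-c₀ * n) * 2 ^ ((1 - 2 * e) * n))) =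
          Cu D * (2 ^ (2 * e * n) / 2 ^ ((1 - 2 * e) * n)) := by
        rw [hK]
        field_simp
      rw [b1, p2_div]
      congr 2
      ring
    have a4 : ((t' - t 0 0) * vpt A (zv i₀.succ) p (v 0 0)) ^ 2 ≤ Cu D ^ 2 * 2 ^ (-(2 * (1 - 4 * e)) * n) := by
      rw [← sq_abs]
      refine (pow_le_pow_left₀ (abs_nonneg _) a3 2).trans (le_of_eq ?_)
      rw [mul_pow, p2_sq]
      congr 2
      ring
    have a5 : vpt A (zv i₀.succ) p ε ^ 2 ≤ 36 * ((3 + 1 : ℕ) ^ 2 * (Cm (3 + 1) D * 2 ^ ((3 + 1) * D + D)) ^ 2) *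
        2 ^ (-(2 * (1 - 4 * e)) * n) := by
      have b1 : ((3 + 1 : ℕ) ^ 2 * (Cm (3 + 1) D * 2 ^ ((3 + 1) * D + D)) ^ 2) * (6 * 2 ^ (e * n) * r) ^ 2 *
          2 ^ (2 * e * n) = (36 * ((3 + 1 : ℕ) ^ 2 * (Cm (3 + 1) D * 2 ^ ((3 + 1) * D + D)) ^ 2) *
          2 ^ (-(2 * (1 - 4 * e)) * n)) * (r ^ 2 * (2 ^ ((1 - 2 * e) * n)) ^ 2) := by
        have b2 : (2 : ℝ) ^ (-(2 * (1 - 4 * e)) * n) * (2 ^ ((1 - 2 * e) * n)) ^ 2 =
            (2 ^ (e * n)) ^ 2 * 2 ^ (2 * e * n) := by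
          rw [p2_sq, p2_sq, p2_mul, p2_mul]
          congr 1
          ring
        calc _ = (36 * ((3 + 1 : ℕ) ^ 2 * (Cm (3 + 1) D * 2 ^ ((3 + 1) * D + D)) ^ 2) * r ^ 2) *
              ((2 ^ (e * n)) ^ 2 * 2 ^ (2 * e * n)) := by ring
          _ = _ := by
              rw [← b2]
              ring
      rw [b1] at a2
      exact le_of_mul_le_mul_right a2 (by positivity)
    have a6 : ∀ a b : ℝ, (a + b) ^ 2 ≤ 2 * a ^ 2 + 2 * b ^ 2 := by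
      intro a b
      have := sq_nonneg (a - b)
      nlinarith
    refine (a6 _ _).trans ?_
    rw [hC₃]
    calc _ ≤ 2 * (Cu D ^ 2 * 2 ^ (-(2 * (1 - 4 * e)) * n)) + 2 * (36 * ((3 + 1 : ℕ) ^ 2 *
          (Cm (3 + 1) D * 2 ^ ((3 + 1) * D + D)) ^ 2) * 2 ^ (-(2 * (1 - 4 * e)) * n)) := by linarith
      _ = _ := by ring
  have hp2 : |vpt A (zv i₀.succ) p (fun j => p' j - p j)| ≤ G / (((3 + 1 : ℕ) : ℝ) * 2 ^ ((1 + e) * n)) := by
    apply abs_le_of_sq_le_sq _ (by positivity)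
    refine hvp.trans ?_
    rw [div_pow, mul_pow, hG, p2_sq, p2_sq, le_div_iff₀ (by positivity)]
    have b1 : C₃ * (2 : ℝ) ^ (-(2 * (1 - 4 * e)) * n) * (((3 + 1 : ℕ) : ℝ) ^ 2 * 2 ^ (2 * (1 + e) * n)) =
        (16 * C₃) * 2 ^ ((-(2 * (1 - 4 * e)) + 2 * (1 + e)) * n) := by
      rw [← p2_mul]
      push_cast
      ring
    rw [b1]
    exact p2_abs hn (k4.trans hKc) (by linarith)
  -- the two points lemma
  have hmain := two_pts (D := D) hg (w := w) (K := K) (ρ := ρ) (θ := θ') hw0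
    (Real.one_le_rpow (by norm_num) (by positivity)) (by positivity)
    (Real.rpow_le_one_of_one_le_of_nonpos (by norm_num) (by
      have : 0 ≤ (θ - 2 * e) * n := mul_nonneg (by linarith) hn.le
      linarith)) (by positivity) (by
      apply p2_abs hn (e := e) (by linarith)
      linarith) (Real.rpow_le_one_of_one_le_of_nonpos (by norm_num) (by
      have : 0 ≤ (ν + 4 * e) * n := mul_nonneg (by linarith) hn.le
      linarith)) (fun u => (hcoord u 0).trans (low' u)) hd hu i₀.succ (v := v)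
    (fun i _ k _ => by rw [hrv, Fin.cons_zero]) (fun i hi k hk => by
      rw [hrv]
      refine (mul_le_mul_of_nonneg_left (h4 i hi k hk) (by positivity)).trans (le_of_eq ?_)
      rw [hw2, hK, p2_mul, p2_sq]
      congr 1
      ring) (fun i hi k hk => by
      rw [hrv]
      refine (mul_le_mul_of_nonneg_left (h6 i hi k hk) (by positivity)).trans (le_of_eq ?_)
      rw [hw2, hρ, p2_mul, p2_sq]
      congr 1
      ring) (fun i hi k hk l hl hkl => by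
      rw [hrv, hrv]
      refine le_trans ?_ (low' _)
      have b1 : (2 : ℝ) ^ (-(2 * (ν + e)) * n) ≤
          ((Fin.cons 1 (fun j => ξ i k (i₀.succAbove j)) : Fin (2 + 1) → ℝ) -
          (Fin.cons 1 (fun j => ξ i l (i₀.succAbove j)) : Fin (2 + 1) → ℝ)) ⬝ᵥ
          ((Fin.cons 1 (fun j => ξ i k (i₀.succAbove j)) : Fin (2 + 1) → ℝ) -
          (Fin.cons 1 (fun j => ξ i l (i₀.succAbove j)) : Fin (2 + 1) → ℝ)) := by
        refine (h7 i hi k hk l hl hkl).trans (le_of_eq ?_)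
        unfold dotProduct
        rw [Fin.sum_univ_succ (n := 2)]
        simp only [Pi.sub_apply, Fin.cons_zero, Fin.cons_succ, sub_self, mul_zero, zero_add]
        exact Finset.sum_congr rfl fun j _ => by ring
      refine le_trans ?_ b1
      rw [hθ', p2_sq]
      apply p2_abs hn (e := e) (by linarith)
      linarith) (fun i hi j hj hij => by
      intro hc'
      apply h8 i hi j hj hij
      obtain ⟨ε', h, h'⟩ := hc'
      refine ⟨ε', h, fun u => (h' u).trans ?_⟩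
      apply mul_le_mul_of_nonneg_right _ (hgn _)
      apply pow_le_pow_left₀ (by positivity)
      rw [hK, hθ', mul_assoc, p2_mul]
      apply p2_abs hn (e := e) hen
      linarith) (by
      have b1 : fP D K θ' * (Cu D * ρ) = (CP D * Cu D) * 2 ^ ((2 * D * (ν + 8 * e) - (θ - 2 * e)) * n) := by
        unfold fP
        rw [hK, hθ', p2_sq, p2_div, p2_pow, hρ]
        have b2 : ((2 * D : ℕ) : ℝ) * (2 * (2 * e) - -(ν + 4 * e)) = 2 * D * (ν + 8 * e) := by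
          push_cast
          ring
        rw [b2]
        have b3 : (2 * D * (ν + 8 * e) - (θ - 2 * e)) = 2 * D * (ν + 8 * e) + -(θ - 2 * e) := by ring
        rw [b3, ← p2_mul]
        ring
      rw [b1]
      have b4 : (2 * CP D * Cu D) * (2 : ℝ) ^ ((2 * D * (ν + 8 * e) - (θ - 2 * e)) * n) ≤ 2 ^ (0 * n) :=
        p2_abs hn (k2.trans hKc) (by linarith)
      rw [zero_mul, Real.rpow_zero] at b4
      linarith) hA (B := 2 ^ ((1 + e) * n)) (by positivity) hT p (2 ^ ((1 - 2 * e) * n)) (by positivity) (hΛ2 p h9)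
    K (2 ^ (-c₀ * n)) (by positivity) (by positivity) hline G
    (Real.one_le_rpow (by norm_num) (mul_nonneg (by linarith) hn.le)) p' hp1 hp2 (2 ^ ((1 - 2 * e) * n)) (by positivity)
    (hΛ2 p' h9') x
  refine hmain.trans ?_
  have hq0 : 0 ≤ x ⬝ᵥ x + qf g (rsv i₀.succ x) := by
    have b1 := v0_sq x
    have b2 := hgn (rsv i₀.succ x)
    have b3 := sq_nonneg (v0 x)
    linarith
  apply mul_le_mul_of_nonneg_right _ hq0
  have b1 := bd_two D (ν := ν) hn hc he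
  set C₄ : ℝ := 128 * 6 ^ D * Cu D ^ 4 * CP D with hC₄
  set C₅ : ℝ := nn (2 + 1) 1 * (Cu 1 * Cm (2 + 1) 1 * 3 ^ 1) ^ 2 with hC₅
  have hC₅0 : 0 ≤ C₅ := by
    have := nn_one (2 + 1) 1
    rw [hC₅]
    positivity
  set τ₁ : ℝ := 1 - (D + 1) * (c₀ - c) - 2 * D * ν - (24 * D + 10) * e with hτ₁
  have b2 : (bd (3 + 1) D K θ' K (2 ^ ((1 + e) * n)) (2 ^ ((1 - 2 * e) * n)) (2 ^ (-c₀ * n)) G * w /
      2 ^ ((1 - 2 * e) * n)) ^ 2 ≤ C₄ ^ 2 * 2 ^ (-(2 * τ₁) * n) := by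
    have b3 : 0 ≤ bd (3 + 1) D K θ' K (2 ^ ((1 + e) * n)) (2 ^ ((1 - 2 * e) * n)) (2 ^ (-c₀ * n)) G * w /
        2 ^ ((1 - 2 * e) * n) := by
      have := bd_pos (N := 3 + 1) (by norm_num) D (R := K) (θ := θ') (a := K) (B := 2 ^ ((1 + e) * n))
        (Λ := 2 ^ ((1 - 2 * e) * n)) (h := 2 ^ (-c₀ * n)) (G := G)
        (Real.one_le_rpow (by norm_num) (by positivity)) (by positivity) (by positivity) (by positivity)
        (by positivity) (by positivity) (Real.one_le_rpow (by norm_num) (mul_nonneg (by linarith) hn.le))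
      positivity
    refine (pow_le_pow_left₀ b3 b1 2).trans (le_of_eq ?_)
    rw [mul_pow, p2_sq]
    congr 2
    ring
  have b4 : qf g (vv (rmv i₀.succ p')) ≤ C₅ * 2 ^ (e * n) := by
    have b5 := phi_comp g hg r r 3 hr hr.le (by norm_num) (rmv i₀.succ B') (rmv i₀.succ p') (fun j => by
      have := h10 (i₀.succ.succAbove j)
      show |p' (i₀.succ.succAbove j) - B' (i₀.succ.succAbove j)| + r ≤ _
      linarith)
    have b6 := Pool.Agent.Helper93.LIP.qf_vv_le hgn r (rmv i₀.succ p')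
    exact b6.trans (b5.trans (mul_le_mul_of_nonneg_left h11 hC₅0))
  have b7 : 1 + qf g (vv (rmv i₀.succ p')) ≤ (1 + C₅) * 2 ^ (e * n) := by
    have : (1 + C₅) * (2 : ℝ) ^ (e * n) = 2 ^ (e * n) + C₅ * 2 ^ (e * n) := by ring
    rw [this]
    linarith
  have b8 : 0 ≤ 1 + qf g (vv (rmv i₀.succ p')) := by
    have := hgn (vv (rmv i₀.succ p'))
    linarith
  have b9 : C₃ * (2 : ℝ) ^ (-(2 * (1 - 4 * e)) * n) ≤ C₃ * 2 ^ ((-(2 * τ₁) + e) * n) := by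
    apply mul_le_mul_of_nonneg_left _ (by rw [hC₃]; positivity)
    apply p2_le hn
    have b10 : 0 ≤ (D + 1) * (c₀ - c) := mul_nonneg (by linarith) (by linarith)
    have b11 : 0 ≤ 2 * D * ν := by positivity
    have b12 : 0 ≤ D * e := by positivity
    rw [hτ₁]
    linarith
  calc _ ≤ 4 * (C₄ ^ 2 * 2 ^ (-(2 * τ₁) * n)) * ((1 + C₅) * 2 ^ (e * n)) +
        2 * (C₃ * 2 ^ ((-(2 * τ₁) + e) * n)) := by
        apply add_le_add
        · apply mul_le_mul _ b7 b8 (by positivity)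
          exact mul_le_mul_of_nonneg_left b2 (by norm_num)
        · exact mul_le_mul_of_nonneg_left (hvp.trans b9) (by norm_num)
    _ = (4 * C₄ ^ 2 * (1 + C₅) + 2 * C₃) * 2 ^ ((-(2 * τ₁) + e) * n) := by
        rw [← p2_mul]
        ring
    _ ≤ _ := by
        apply p2_abs hn (k6.trans hKc)
        rw [hτ₁]
        linarith

end

end Pool.Agent.Helper55.LP2
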