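import Pool.Agent.Helper55.LP2.Pol3
import Pool.Agent.Helper89.LX.Frm

/-! The configuration of LEMMA POLY measured in a metric: orthonormal frames of a positive definite form on the space
of velocities. -/

set_option autoImplicit false

namespace Pool.Agent.Helper55.LP2

open Finset Matrix Pool.Agent.Helper3.LF
open Pool.Agent.Helper89.LX (qf)

noncomputable section

/-- FRAMES: a positive definite form on `ℝ³` which is at least the square of the first coordinate is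
`α x₀² + x₁² + x₂²` in a frame `b₀, b₁, b₂` with first coordinates `1, 0, 0`, and `α ≥ 1` -/
theorem exists_frame (G : Matrix (Fin 3) (Fin 3) ℝ) (hG : G.IsSymm) (h1 : ∀ u : Fin 3 → ℝ, (u 0) ^ 2 ≤ qf G u)
    (h2 : ∀ u : Fin 3 → ℝ, u ≠ 0 → 0 < qf G u) : ∃ (α : ℝ) (b0 b1 b2 : Fin 3 → ℝ), 1 ≤ α ∧ b0 0 = 1 ∧ b1 0 = 0 ∧
    b2 0 = 0 ∧ (∀ x y z : ℝ, qf G (fun k => x * b0 k + y * b1 k + z * b2 k) = α * x ^ 2 + y ^ 2 + z ^ 2) ∧
    ∀ u : Fin 3 → ℝ, ∃ y z : ℝ, u = fun k => u 0 * b0 k + y * b1 k + z * b2 k := by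
  -- the bilinear form
  set Bf : (Fin 3 → ℝ) → (Fin 3 → ℝ) → ℝ := fun u v => u ⬝ᵥ (G *ᵥ v) with hB
  have hsym : ∀ u v, Bf u v = Bf v u := by
    intro u v
    rw [hB]
    simp only
    rw [Matrix.dotProduct_mulVec, ← Matrix.mulVec_transpose, hG, dotProduct_comm]
  have hq : ∀ u, qf G u = Bf u u := fun u => rfl
  have hadd : ∀ u v w, Bf (u + v) w = Bf u w + Bf v w := by
    intro u v w
    rw [hB]
    simp only
    rw [add_dotProduct]
  have hsm : ∀ (a : ℝ) u w, Bf (a • u) w = a * Bf u w := by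
    intro a u w
    rw [hB]
    simp only
    rw [smul_dotProduct, smul_eq_mul]
  have hadd' : ∀ u v w, Bf w (u + v) = Bf w u + Bf w v := fun u v w => by rw [hsym, hadd, hsym u, hsym v]
  have hsm' : ∀ (a : ℝ) u w, Bf w (a • u) = a * Bf w u := fun a u w => by rw [hsym, hsm, hsym u]
  set e0 : Fin 3 → ℝ := Pi.single 0 1 with he0
  set e1 : Fin 3 → ℝ := Pi.single 1 1 with he1
  set e2 : Fin 3 → ℝ := Pi.single 2 1 with he2
  have he1ne : e1 ≠ 0 := by
    intro h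
    have := congrFun h 1
    rw [he1] at this
    simp at this
  have g1 : 0 < Bf e1 e1 := h2 e1 he1ne
  set s1 : ℝ := Real.sqrt (Bf e1 e1) with hs1
  have hs10 : 0 < s1 := Real.sqrt_pos.mpr g1
  have hs1s : s1 ^ 2 = Bf e1 e1 := Real.sq_sqrt g1.le
  set b1 : Fin 3 → ℝ := s1⁻¹ • e1 with hb1
  have hb11 : Bf b1 b1 = 1 := by
    rw [hb1, hsm, hsm', ← hs1s]
    field_simp
  set w2 : Fin 3 → ℝ := e2 + (-(Bf e2 b1)) • b1 with hw2
  have hw2ne : w2 ≠ 0 := by
    intro h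
    have := congrFun h 2
    rw [hw2, hb1, he1, he2] at this
    simp at this
  have g2 : 0 < Bf w2 w2 := h2 w2 hw2ne
  have hw21 : Bf w2 b1 = 0 := by
    rw [hw2, hadd, hsm, hb11]
    ring
  set s2 : ℝ := Real.sqrt (Bf w2 w2) with hs2
  have hs20 : 0 < s2 := Real.sqrt_pos.mpr g2
  have hs2s : s2 ^ 2 = Bf w2 w2 := Real.sq_sqrt g2.le
  set b2 : Fin 3 → ℝ := s2⁻¹ • w2 with hb2
  have hb22 : Bf b2 b2 = 1 := by
    rw [hb2, hsm, hsm', ← hs2s]
    field_simp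
  have hb21 : Bf b2 b1 = 0 := by
    rw [hb2, hsm, hw21, mul_zero]
  have hb12 : Bf b1 b2 = 0 := by rw [hsym, hb21]
  set b0 : Fin 3 → ℝ := e0 + (-(Bf e0 b1)) • b1 + (-(Bf e0 b2)) • b2 with hb0
  have hb01 : Bf b0 b1 = 0 := by
    rw [hb0, hadd, hadd, hsm (-(Bf e0 b1)) b1 b1, hsm (-(Bf e0 b2)) b2 b1, hb11, hb21]
    ring
  have hb02 : Bf b0 b2 = 0 := by
    rw [hb0, hadd, hadd, hsm (-(Bf e0 b1)) b1 b2, hsm (-(Bf e0 b2)) b2 b2, hb22, hb12]
    ring
  have hb10 : Bf b1 b0 = 0 := by rw [hsym, hb01]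
  have hb20 : Bf b2 b0 = 0 := by rw [hsym, hb02]
  have c1 : b1 0 = 0 := by
    rw [hb1, he1]
    simp
  have c2 : b2 0 = 0 := by
    rw [hb2, hw2, hb1, he1, he2]
    simp
  have c0 : b0 0 = 1 := by
    rw [hb0]
    simp only [Pi.add_apply, Pi.smul_apply, smul_eq_mul]
    rw [c1, c2, he0]
    simp
  have hfun : ∀ x y z : ℝ, (fun k => x * b0 k + y * b1 k + z * b2 k) = x • b0 + y • b1 + z • b2 := by
    intro x y z
    funext k
    rfl
  refine ⟨Bf b0 b0, b0, b1, b2, ?_, c0, c1, c2, fun x y z => ?_, fun u => ?_⟩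
  · have := h1 b0
    rw [c0, hq] at this
    linarith
  · rw [hfun, hq]
    simp only [hadd, hadd', hsm, hsm', hb11, hb22, hb01, hb02, hb10, hb20, hb12, hb21]
    ring
  · -- coordinates
    refine ⟨(u 1 - u 0 * b0 1 - (u 2 - u 0 * b0 2) / b2 2 * b2 1) / b1 1, (u 2 - u 0 * b0 2) / b2 2, ?_⟩
    have d1 : b1 1 = s1⁻¹ := by
      rw [hb1, he1]
      simp
    have d12 : b1 2 = 0 := by
      rw [hb1, he1]
      simp
    have d2 : b2 2 = s2⁻¹ := by
      rw [hb2, hw2, hb1, he1, he2]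
      simp
    have n1 : b1 1 ≠ 0 := by rw [d1]; positivity
    have n2 : b2 2 ≠ 0 := by rw [d2]; positivity
    funext k
    fin_cases k
    · show u 0 = u 0 * b0 0 + _ * b1 0 + _ * b2 0
      rw [c0, c1, c2]
      ring
    · show u 1 = u 0 * b0 1 + _ / b1 1 * b1 1 + _ / b2 2 * b2 1
      rw [div_mul_cancel₀ _ n1]
      ring
    · show u 2 = u 0 * b0 2 + _ / b1 1 * b1 2 + _ / b2 2 * b2 2
      rw [div_mul_cancel₀ _ n2, d12]
      ring

/-- the configuration from metric data: `α x₀² + x₁² + x₂²` is the metric, the velocities are `(1, X, Y)`, the conormals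
`(a, b, c)` are unit covectors -/
theorem cfg_of_metric {D : ℕ} {K ρ θ α : ℝ} {a b c : ℕ → ℝ} {X Y : ℕ → ℕ → ℝ} (hK : 1 ≤ K) (h0 : 0 < ρ)
    (h1 : ρ ≤ 1 / 2) (hKρ : 4 * K * ρ ≤ 1) (hθ : 0 < θ) (hρθ : 32 * K * ρ ≤ θ) (hα : 1 ≤ α)
    (hu : ∀ i ≤ D, a i ^ 2 / α + b i ^ 2 + c i ^ 2 = 1) (hv : ∀ i ≤ D, ∀ k ≤ D, X i k ^ 2 + Y i k ^ 2 ≤ K ^ 2)
    (hn : ∀ i ≤ D, ∀ k ≤ D, |a i + b i * X i k + c i * Y i k| ≤ ρ)
    (hs : ∀ i ≤ D, ∀ k ≤ D, ∀ l ≤ D, k ≠ l → θ ^ 2 ≤ (X i k - X i l) ^ 2 + (Y i k - Y i l) ^ 2)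
    (ht : ∀ i ≤ D, ∀ j ≤ D, i ≠ j → θ ^ 2 ≤ (b i * c j - c i * b j) ^ 2 +
      ((a i * b j - a j * b i) ^ 2 + (a i * c j - a j * c i) ^ 2) / α)
    (hc : fP D K (θ / 2) * (Cu D * (4 * K * ρ)) ≤ 1 / 2) :
    Cfg D K (4 * K * ρ) (θ / 2) (fun i => a i / Real.sqrt (b i ^ 2 + c i ^ 2))
      (fun i => b i / Real.sqrt (b i ^ 2 + c i ^ 2)) (fun i => c i / Real.sqrt (b i ^ 2 + c i ^ 2)) X Y := by
  have hα0 : 0 < α := by linarith
  have hXK : ∀ i ≤ D, ∀ k ≤ D, |X i k| ≤ K := fun i hi k hk =>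
    abs_le_of_sq_le_sq (by nlinarith [hv i hi k hk, sq_nonneg (Y i k)]) (by linarith)
  have hYK : ∀ i ≤ D, ∀ k ≤ D, |Y i k| ≤ K := fun i hi k hk =>
    abs_le_of_sq_le_sq (by nlinarith [hv i hi k hk, sq_nonneg (X i k)]) (by linarith)
  set r : ℕ → ℝ := fun i => Real.sqrt (b i ^ 2 + c i ^ 2) with hr
  have hrr : ∀ i, r i ^ 2 = b i ^ 2 + c i ^ 2 := fun i => Real.sq_sqrt (by positivity)
  have hr0 : ∀ i, 0 ≤ r i := fun i => Real.sqrt_nonneg _
  have hr1 : ∀ i ≤ D, r i ≤ 1 := by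
    intro i hi
    have e1 := hu i hi
    have e2 : 0 ≤ a i ^ 2 / α := by positivity
    have e3 := hrr i
    nlinarith [hr0 i]
  have hrlow : ∀ i ≤ D, 1 / (4 * K) ≤ r i := by
    intro i hi
    have e1 := hu i hi
    have e2 : a i ^ 2 / α ≤ a i ^ 2 := div_le_self (sq_nonneg _) hα
    have e3 := hrr i
    have e4 : |a i| ≤ ρ + r i * K := by
      have f1 := hn i hi 0 (Nat.zero_le _)
      have f2 : |b i * X i 0 + c i * Y i 0| ≤ r i * K := by
        apply abs_le_of_sq_le_sq _ (mul_nonneg (hr0 i) (by linarith))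
        have f3 := hv i hi 0 (Nat.zero_le _)
        have f4 : (b i * X i 0 + c i * Y i 0) ^ 2 ≤ (b i ^ 2 + c i ^ 2) * (X i 0 ^ 2 + Y i 0 ^ 2) := by
          nlinarith [sq_nonneg (b i * Y i 0 - c i * X i 0)]
        rw [mul_pow, e3]
        exact f4.trans (mul_le_mul_of_nonneg_left f3 (by positivity))
      have f5 := abs_sub (a i + b i * X i 0 + c i * Y i 0) (b i * X i 0 + c i * Y i 0)
      have f6 : a i + b i * X i 0 + c i * Y i 0 - (b i * X i 0 + c i * Y i 0) = a i := by ring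
      rw [f6] at f5
      linarith
    have e5 : a i ^ 2 ≤ (ρ + r i * K) ^ 2 := by
      rw [← sq_abs]
      exact pow_le_pow_left₀ (abs_nonneg _) e4 2
    have e6 : 1 ≤ (ρ + r i * (K + 1)) ^ 2 := by
      have f1 : 0 ≤ ρ * r i := mul_nonneg h0.le (hr0 i)
      have f2 : 0 ≤ r i ^ 2 * K := mul_nonneg (sq_nonneg _) (by linarith)
      nlinarith
    have e7 : 1 ≤ ρ + r i * (K + 1) := by
      by_contra hcon
      rw [not_le] at hcon
      have f1 : 0 ≤ ρ + r i * (K + 1) := by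
        have := mul_nonneg (hr0 i) (by linarith : (0 : ℝ) ≤ K + 1)
        linarith
      nlinarith
    rw [div_le_iff₀ (by linarith)]
    nlinarith [hr0 i]
  have hrpos : ∀ i ≤ D, 0 < r i := fun i hi => lt_of_lt_of_le (by positivity) (hrlow i hi)
  have hr4 : ∀ i ≤ D, 1 ≤ 4 * K * r i := by
    intro i hi
    have := hrlow i hi
    rw [div_le_iff₀ (by linarith)] at this
    linarith
  have hprod : ∀ i ≤ D, ∀ j ≤ D, 0 < r i * r j ∧ r i * r j ≤ 1 := fun i hi j hj =>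
    ⟨mul_pos (hrpos i hi) (hrpos j hj), by nlinarith [hr0 i, hr0 j, hr1 i hi, hr1 j hj]⟩
  have hquot : ∀ i ≤ D, ∀ j ≤ D, ∀ x : ℝ, θ / 2 ≤ |x| → θ / 2 ≤ |x / (r i * r j)| := by
    intro i hi j hj x hx
    obtain ⟨p0, p1⟩ := hprod i hi j hj
    rw [abs_div, abs_of_pos p0, le_div_iff₀ p0]
    nlinarith [abs_nonneg x]
  refine ⟨hK, by positivity, hKρ, by linarith, by linarith, fun i hi => ?_, hXK, hYK, fun i hi k hk => ?_,
    fun i hi k hk l hl hkl => ?_, fun i hi j hj hij => ?_, hc⟩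
  · show (b i / r i) ^ 2 + (c i / r i) ^ 2 = 1
    rw [div_pow, div_pow, ← add_div, ← hrr i]
    exact div_self (pow_ne_zero 2 (hrpos i hi).ne')
  · show |a i / r i + b i / r i * X i k + c i / r i * Y i k| ≤ 4 * K * ρ
    have e1 : a i / r i + b i / r i * X i k + c i / r i * Y i k = (a i + b i * X i k + c i * Y i k) / r i := by ring
    rw [e1, abs_div, abs_of_pos (hrpos i hi), div_le_iff₀ (hrpos i hi)]
    have e2 := hn i hi k hk
    have e3 := hr4 i hi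
    nlinarith
  · by_contra hcon
    push Not at hcon
    have e1 := hs i hi k hk l hl hkl
    have e2 : (X i k - X i l) ^ 2 ≤ (θ / 2) ^ 2 := by
      rw [← sq_abs]
      exact pow_le_pow_left₀ (abs_nonneg _) hcon.1.le 2
    have e3 : (Y i k - Y i l) ^ 2 ≤ (θ / 2) ^ 2 := by
      rw [← sq_abs]
      exact pow_le_pow_left₀ (abs_nonneg _) hcon.2.le 2
    nlinarith
  · show θ / 2 ≤ |b i / r i * (c j / r j) - c i / r i * (b j / r j)| ∨
      θ / 2 ≤ |a i / r i * (b j / r j) - a j / r j * (b i / r i)| ∨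
      θ / 2 ≤ |a i / r i * (c j / r j) - a j / r j * (c i / r i)|
    have n1 := (hrpos i hi).ne'
    have n2 := (hrpos j hj).ne'
    have q1 : b i / r i * (c j / r j) - c i / r i * (b j / r j) = (b i * c j - c i * b j) / (r i * r j) := by
      field_simp
    have q2 : a i / r i * (b j / r j) - a j / r j * (b i / r i) = (a i * b j - a j * b i) / (r i * r j) := by
      field_simp
    have q3 : a i / r i * (c j / r j) - a j / r j * (c i / r i) = (a i * c j - a j * c i) / (r i * r j) := by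
      field_simp
    rw [q1, q2, q3]
    by_cases z1 : θ / 2 ≤ |b i * c j - c i * b j|
    · exact Or.inl (hquot i hi j hj _ z1)
    by_cases z2 : θ / 2 ≤ |a i * b j - a j * b i|
    · exact Or.inr (Or.inl (hquot i hi j hj _ z2))
    by_cases z3 : θ / 2 ≤ |a i * c j - a j * c i|
    · exact Or.inr (Or.inr (hquot i hi j hj _ z3))
    exfalso
    rw [not_le] at z1 z2 z3
    have w1 : (b i * c j - c i * b j) ^ 2 ≤ (θ / 2) ^ 2 := by
      rw [← sq_abs]
      exact pow_le_pow_left₀ (abs_nonneg _) z1.le 2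
    have w2 : (a i * b j - a j * b i) ^ 2 ≤ (θ / 2) ^ 2 := by
      rw [← sq_abs]
      exact pow_le_pow_left₀ (abs_nonneg _) z2.le 2
    have w3 : (a i * c j - a j * c i) ^ 2 ≤ (θ / 2) ^ 2 := by
      rw [← sq_abs]
      exact pow_le_pow_left₀ (abs_nonneg _) z3.le 2
    have w4 : ((a i * b j - a j * b i) ^ 2 + (a i * c j - a j * c i) ^ 2) / α ≤
        (a i * b j - a j * b i) ^ 2 + (a i * c j - a j * c i) ^ 2 := div_le_self (by positivity) hα
    have w5 := ht i hi j hj hij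
    nlinarith

end

end Pool.Agent.Helper55.LP2
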