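import Pool.Agent.Helper55.LP2.Det
import Pool.Agent.Helper55.LP2.Gfr
import Pool.Agent.Helper39.LIP.St

/-! The configuration of LEMMA POLY from top conormals which are not close (`Clo`), measured in the metric of a 1-form
of the base. -/

set_option autoImplicit false

namespace Pool.Agent.Helper55.LP2

open Finset MvPolynomial Matrix Pool.Agent.Helper3.LF Pool.Agent.Helper48.NS
open Pool.Agent.Helper95.LF (PdM)
open Pool.Agent.Helper89.LX (qf)
open Pool.Agent.Helper39.LIP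

noncomputable section

variable {N D : ℕ}

/-- the matrix of `gv` -/
def Wm (N : ℕ) : Matrix (Mon N 1) (Fin N) ℝ := Matrix.of fun a i => dd i (0 : Fin N → ℝ) a

theorem Wm_mulVec (u : Fin N → ℝ) : Wm N *ᵥ u = gv u := by
  funext a
  show ∑ i, Wm N a i * u i = ∑ i, u i * dd i (0 : Fin N → ℝ) a
  refine Finset.sum_congr rfl fun i _ => ?_
  exact mul_comm _ _

/-- the metric of a 1-form -/
def mtr (g : Matrix (Mon N 1) (Mon N 1) ℝ) (w : ℝ) : Matrix (Fin N) (Fin N) ℝ :=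
  w ^ 2 • ((Wm N).transpose * g * Wm N)

theorem qf_mtr (g : Matrix (Mon N 1) (Mon N 1) ℝ) (w : ℝ) (u : Fin N → ℝ) :
    qf (mtr g w) u = w ^ 2 * qf g (gv u) := by
  unfold qf mtr
  rw [Matrix.smul_mulVec, dotProduct_smul, smul_eq_mul, ← Matrix.mulVec_mulVec, ← Matrix.mulVec_mulVec, Wm_mulVec,
    Matrix.dotProduct_mulVec u, Matrix.vecMul_transpose, Wm_mulVec]

theorem mtr_symm {g : Matrix (Mon N 1) (Mon N 1) ℝ} (hg : g.IsSymm) (w : ℝ) : (mtr g w).IsSymm := by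
  unfold mtr Matrix.IsSymm
  rw [Matrix.transpose_smul, Matrix.transpose_mul, Matrix.transpose_mul, Matrix.transpose_transpose, hg.eq,
    Matrix.mul_assoc]

theorem gv_var {m : ℕ} (u : Fin (m + 1) → ℝ) (i : Fin (m + 1)) : gv u (Mon.var le_rfl i) = u i := by
  have h1 := congrFun (vv_gv (0 : Fin (m + 1) → ℝ) u) (Mon.var le_rfl i)
  rw [Pi.add_apply, vv_var, vv_var, Pi.add_apply, Pi.zero_apply] at h1
  linarith

theorem gv_ne {m : ℕ} {u : Fin (m + 1) → ℝ} (hu : u ≠ 0) : gv u ≠ 0 := by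
  obtain ⟨i, hi⟩ := Function.ne_iff.mp hu
  intro h
  apply hi
  rw [← gv_var u i, h]
  rfl

theorem gv_comb {m : ℕ} (x y z : ℝ) (b0 b1 b2 : Fin (m + 1) → ℝ) :
    (gv (fun k => x * b0 k + y * b1 k + z * b2 k) : Mon (m + 1) 1 → ℝ) = x • gv b0 + y • gv b1 + z • gv b2 := by
  rw [← gv_smul, ← gv_smul, ← gv_smul, ← gv_add, ← gv_add]
  rfl

/-- THE CONFIGURATION from conormals which are not close -/
theorem cfg_of_clo {g : Matrix (Mon (2 + 1) 1) (Mon (2 + 1) 1) ℝ} (hg : PdM g) {w K ρ θ : ℝ} (hw : 0 < w) (hK : 1 ≤ K)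
    (h0 : 0 < ρ) (h1 : ρ ≤ 1) (hθ : 0 < θ) (hρθ : 4 * ρ ≤ θ) (hθ1 : θ ≤ 1)
    (ht0 : ∀ u : Fin (2 + 1) → ℝ, (u 0) ^ 2 ≤ w ^ 2 * qf g (gv u)) {n : ℕ → Mon (2 + 1) 1 → ℝ}
    (hd : ∀ i ≤ D, ∀ u : Fin 2 → ℝ, (n i ⬝ᵥ gM u) ^ 2 ≤ qf g (gM u))
    (hu : ∀ i ≤ D, ∃ u : Fin 2 → ℝ, qf g (gM u) = 1 ∧ n i ⬝ᵥ gM u = 1)
    {ν : ℕ → ℕ → Fin (2 + 1) → ℝ} (hν : ∀ i ≤ D, ∀ k ≤ D, ν i k 0 = 1)
    (hνK : ∀ i ≤ D, ∀ k ≤ D, w ^ 2 * qf g (gv (ν i k)) ≤ K ^ 2)
    (hn : ∀ i ≤ D, ∀ k ≤ D, w ^ 2 * (n i ⬝ᵥ gv (ν i k)) ^ 2 ≤ ρ ^ 2)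
    (hs : ∀ i ≤ D, ∀ k ≤ D, ∀ l ≤ D, k ≠ l → 4 * θ ^ 2 ≤ w ^ 2 * qf g (gv (ν i k - ν i l)))
    (htr : ∀ i ≤ D, ∀ j ≤ D, i ≠ j → ¬ Clo g (5 * K * θ) (n i) (n j))
    (hc : fP D K θ * (Cu D * ρ) ≤ 1 / 2) :
    ∃ (α : ℝ) (b0 b1 b2 : Fin (2 + 1) → ℝ) (a b c : ℕ → ℝ) (X Y : ℕ → ℕ → ℝ), 1 ≤ α ∧ b0 0 = 1 ∧ b1 0 = 0 ∧
      b2 0 = 0 ∧ (∀ x y z : ℝ, w ^ 2 * qf g (gv (fun k => x * b0 k + y * b1 k + z * b2 k)) =
        α * x ^ 2 + y ^ 2 + z ^ 2) ∧
      (∀ u : Fin (2 + 1) → ℝ, ∃ y z : ℝ, u = fun k => u 0 * b0 k + y * b1 k + z * b2 k) ∧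
      (∀ i ≤ D, ∀ k ≤ D, ν i k = fun j => b0 j + X i k * b1 j + Y i k * b2 j) ∧ Cfg D K ρ θ a b c X Y := by
  obtain ⟨α, b0, b1, b2, hα, e0, e1, e2, hq, hsp⟩ := exists_frame (mtr g w) (mtr_symm hg.1 w)
    (fun u => by rw [qf_mtr]; exact ht0 u) (fun u hne => by
      rw [qf_mtr]
      exact mul_pos (by positivity) (hg.2 _ (gv_ne hne)))
  have hq' : ∀ x y z : ℝ, w ^ 2 * qf g (gv (fun k => x * b0 k + y * b1 k + z * b2 k)) = α * x ^ 2 + y ^ 2 + z ^ 2 := by
    intro x y z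
    rw [← hq x y z, qf_mtr]
  have hα0 : 0 < α := by linarith
  -- coordinates of the velocities
  have hXY : ∀ i k, ∃ y z : ℝ, i ≤ D → k ≤ D → ν i k = fun j => b0 j + y * b1 j + z * b2 j := by
    intro i k
    by_cases h : i ≤ D ∧ k ≤ D
    · obtain ⟨y, z, hyz⟩ := hsp (ν i k)
      refine ⟨y, z, fun _ _ => ?_⟩
      rw [hν i h.1 k h.2] at hyz
      rw [hyz]
      funext j
      rw [one_mul]
    · exact ⟨0, 0, fun h1 h2 => absurd ⟨h1, h2⟩ h⟩
  choose X Y hXY using hXY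
  -- coordinates of the conormals
  set a : ℕ → ℝ := fun i => w * (n i ⬝ᵥ gv b0) with ha
  set b : ℕ → ℝ := fun i => w * (n i ⬝ᵥ gv b1) with hb
  set c : ℕ → ℝ := fun i => w * (n i ⬝ᵥ gv b2) with hcc
  have hlin : ∀ i (x y z : ℝ), w * (n i ⬝ᵥ gv (fun k => x * b0 k + y * b1 k + z * b2 k)) =
      a i * x + b i * y + c i * z := by
    intro i x y z
    rw [gv_comb, dotProduct_add, dotProduct_add, dotProduct_smul, dotProduct_smul, dotProduct_smul]
    simp only [smul_eq_mul, ha, hb, hcc]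
    ring
  have hνf : ∀ i ≤ D, ∀ k ≤ D, ν i k = fun j => (1 : ℝ) * b0 j + X i k * b1 j + Y i k * b2 j := by
    intro i hi k hk
    rw [hXY i k hi hk]
    funext j
    rw [one_mul]
  have hXYK : ∀ i ≤ D, ∀ k ≤ D, X i k ^ 2 + Y i k ^ 2 ≤ K ^ 2 := by
    intro i hi k hk
    have h2 := hνK i hi k hk
    rw [hνf i hi k hk, hq'] at h2
    have h3 : α * (1 : ℝ) ^ 2 = α := by ring
    rw [h3] at h2
    linarith
  have hXK : ∀ i ≤ D, ∀ k ≤ D, |X i k| ≤ K := fun i hi k hk =>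
    abs_le_of_sq_le_sq (by have := hXYK i hi k hk; have := sq_nonneg (Y i k); linarith) (by linarith)
  have hYK : ∀ i ≤ D, ∀ k ≤ D, |Y i k| ≤ K := fun i hi k hk =>
    abs_le_of_sq_le_sq (by have := hXYK i hi k hk; have := sq_nonneg (X i k); linarith) (by linarith)
  have hnn : ∀ i ≤ D, ∀ k ≤ D, |a i + b i * X i k + c i * Y i k| ≤ ρ := by
    intro i hi k hk
    have h2 := hn i hi k hk
    have h3 := hlin i 1 (X i k) (Y i k)
    rw [← hνf i hi k hk, mul_one] at h3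
    rw [← h3]
    apply abs_le_of_sq_le_sq _ h0.le
    rw [mul_pow]
    exact h2
  -- horizontal vectors
  have hhor : ∀ y z : ℝ, ∃ u : Fin 2 → ℝ, (gM u : Mon (2 + 1) 1 → ℝ) = gv (fun k => 0 * b0 k + y * b1 k + z * b2 k) := by
    intro y z
    refine ⟨Fin.tail (fun k => 0 * b0 k + y * b1 k + z * b2 k), ?_⟩
    unfold gM
    congr 1
    have h3 : 0 * b0 0 + y * b1 0 + z * b2 0 = 0 := by
      have f1 : b1 0 = 0 := e1
      have f2 : b2 0 = 0 := e2
      rw [f1, f2]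
      ring
    have h4 := Fin.cons_self_tail (fun k => 0 * b0 k + y * b1 k + z * b2 k : Fin (2 + 1) → ℝ)
    rw [h3] at h4
    exact h4
  have hbc : ∀ i ≤ D, b i ^ 2 + c i ^ 2 = 1 := by
    intro i hi
    apply le_antisymm
    · obtain ⟨u, hu'⟩ := hhor (b i) (c i)
      have h2 := hd i hi u
      rw [hu'] at h2
      have h3 := hlin i 0 (b i) (c i)
      have h4 := hq' 0 (b i) (c i)
      have h5 := mul_le_mul_of_nonneg_left h2 (sq_nonneg w)
      rw [h4, ← mul_pow, h3] at h5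
      obtain ⟨T, hT⟩ : ∃ T, T = b i ^ 2 + c i ^ 2 := ⟨_, rfl⟩
      have h6 : a i * 0 + b i * b i + c i * c i = T := by rw [hT]; ring
      have h7 : α * (0 : ℝ) ^ 2 + b i ^ 2 + c i ^ 2 = T := by rw [hT]; ring
      rw [h6, h7] at h5
      rw [← hT]
      by_contra hcon
      push Not at hcon
      nlinarith
    · obtain ⟨u, hu1, hu2⟩ := hu i hi
      obtain ⟨y, z, hyz⟩ := hsp (Fin.cons 0 u : Fin (2 + 1) → ℝ)
      have h2 : (gM u : Mon (2 + 1) 1 → ℝ) = gv (fun k => 0 * b0 k + y * b1 k + z * b2 k) := by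
        unfold gM
        rw [hyz]
        rfl
      rw [h2] at hu1 hu2
      have h3 := hlin i 0 y z
      have h4 := hq' 0 y z
      rw [hu1] at h4
      rw [hu2] at h3
      have h5 : (b i * y + c i * z) ^ 2 ≤ (b i ^ 2 + c i ^ 2) * (y ^ 2 + z ^ 2) := by
        have h10 : (b i ^ 2 + c i ^ 2) * (y ^ 2 + z ^ 2) - (b i * y + c i * z) ^ 2 = (b i * z - c i * y) ^ 2 := by
          ring
        have h11 := sq_nonneg (b i * z - c i * y)
        linarith
      have h6 : b i * y + c i * z = w := by linarith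
      have h7 : y ^ 2 + z ^ 2 = w ^ 2 := by linarith
      rw [h6, h7] at h5
      have h8 : 0 < w ^ 2 := by positivity
      have h9 : 1 * w ^ 2 ≤ (b i ^ 2 + c i ^ 2) * w ^ 2 := by rw [one_mul]; exact h5
      exact le_of_mul_le_mul_right h9 h8
  have haK : ∀ i ≤ D, |a i| ≤ 2 * K := by
    intro i hi
    have f1 := hnn i hi 0 (Nat.zero_le _)
    have f2 : |b i * X i 0 + c i * Y i 0| ≤ K := by
      apply abs_le_of_sq_le_sq _ (by linarith)
      have f3 := hXYK i hi 0 (Nat.zero_le _)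
      have f4 : (b i * X i 0 + c i * Y i 0) ^ 2 ≤ (b i ^ 2 + c i ^ 2) * (X i 0 ^ 2 + Y i 0 ^ 2) := by
        have h10 : (b i ^ 2 + c i ^ 2) * (X i 0 ^ 2 + Y i 0 ^ 2) - (b i * X i 0 + c i * Y i 0) ^ 2 =
            (b i * Y i 0 - c i * X i 0) ^ 2 := by ring
        have h11 := sq_nonneg (b i * Y i 0 - c i * X i 0)
        linarith
      rw [hbc i hi, one_mul] at f4
      linarith
    have f5 := abs_sub (a i + b i * X i 0 + c i * Y i 0) (b i * X i 0 + c i * Y i 0)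
    have f6 : a i + b i * X i 0 + c i * Y i 0 - (b i * X i 0 + c i * Y i 0) = a i := by ring
    rw [f6] at f5
    linarith
  refine ⟨α, b0, b1, b2, a, b, c, X, Y, hα, e0, e1, e2, hq', hsp, fun i hi k hk => hXY i k hi hk, hK, h0, h1, hθ, hρθ,
    hbc, hXK, hYK, hnn, fun i hi k hk l hl hkl => ?_, fun i hi j hj hij => ?_, hc⟩
  · by_contra hcon
    push Not at hcon
    have h2 := hs i hi k hk l hl hkl
    have h3 : ν i k - ν i l = fun j => 0 * b0 j + (X i k - X i l) * b1 j + (Y i k - Y i l) * b2 j := by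
      rw [hνf i hi k hk, hνf i hi l hl]
      funext j
      show 1 * b0 j + X i k * b1 j + Y i k * b2 j - (1 * b0 j + X i l * b1 j + Y i l * b2 j) = _
      ring
    rw [h3, hq'] at h2
    have h4 : (X i k - X i l) ^ 2 ≤ θ ^ 2 := by
      rw [← sq_abs]
      exact pow_le_pow_left₀ (abs_nonneg _) hcon.1.le 2
    have h5 : (Y i k - Y i l) ^ 2 ≤ θ ^ 2 := by
      rw [← sq_abs]
      exact pow_le_pow_left₀ (abs_nonneg _) hcon.2.le 2
    have h6 : 0 < θ ^ 2 := by positivity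
    have h7 : α * (0 : ℝ) ^ 2 = 0 := by ring
    rw [h7] at h2
    linarith
  · by_contra hcon
    push Not at hcon
    obtain ⟨c1, c2, c3⟩ := hcon
    apply htr i hi j hj hij
    have u1 := hbc i hi
    have u2 := hbc j hj
    set dt : ℝ := b i * b j + c i * c j with hdt
    set cr : ℝ := b i * c j - c i * b j with hcr
    have hcr2 : cr ^ 2 ≤ θ ^ 2 := by
      rw [← sq_abs]
      exact pow_le_pow_left₀ (abs_nonneg _) c1.le 2
    have hdc : dt ^ 2 + cr ^ 2 = 1 := by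
      have : dt ^ 2 + cr ^ 2 = (b i ^ 2 + c i ^ 2) * (b j ^ 2 + c j ^ 2) := by
        rw [hdt, hcr]
        ring
      rw [this, u1, u2, one_mul]
    obtain ⟨ε, hε, hεd⟩ : ∃ ε : ℝ, (ε = 1 ∨ ε = -1) ∧ ε * dt = |dt| := by
      rcases le_total 0 dt with h | h
      · exact ⟨1, Or.inl rfl, by rw [abs_of_nonneg h, one_mul]⟩
      · exact ⟨-1, Or.inr rfl, by rw [abs_of_nonpos h]; ring⟩
    have hε2 : ε ^ 2 = 1 := by
      rcases hε with h | h <;> rw [h] <;> norm_num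
    have hadt : 1 - cr ^ 2 ≤ |dt| := by
      have f1 : |dt| ^ 2 = 1 - cr ^ 2 := by
        rw [sq_abs]
        linarith
      have f2 : |dt| ≤ 1 := by
        apply abs_le_of_sq_le_sq _ zero_le_one
        have := sq_nonneg cr
        linarith
      have f3 : |dt| ^ 2 ≤ |dt| := by
        rw [pow_two]
        calc |dt| * |dt| ≤ 1 * |dt| := mul_le_mul_of_nonneg_right f2 (abs_nonneg _)
          _ = |dt| := one_mul _
      linarith
    have hadt1 : |dt| ≤ 1 := by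
      apply abs_le_of_sq_le_sq _ zero_le_one
      have := sq_nonneg cr
      linarith
    -- the horizontal part
    have k1 : (b i - ε * b j) ^ 2 + (c i - ε * c j) ^ 2 ≤ 2 * θ ^ 2 := by
      have : (b i - ε * b j) ^ 2 + (c i - ε * c j) ^ 2 = (b i ^ 2 + c i ^ 2) + ε ^ 2 * (b j ^ 2 + c j ^ 2) -
          2 * (ε * dt) := by
        rw [hdt]
        ring
      rw [this, u1, u2, hε2, hεd]
      linarith
    -- the vertical part
    have k2 : |a i - ε * a j| ≤ 4 * K * θ := by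
      have f1 : a i - a j * dt = (a i * b j - a j * b i) * b j + (a i * c j - a j * c i) * c j := by
        have : (a i * b j - a j * b i) * b j + (a i * c j - a j * c i) * c j = a i * (b j ^ 2 + c j ^ 2) -
            a j * dt := by
          rw [hdt]
          ring
        rw [this, u2, mul_one]
      have f2 : |a i - a j * dt| ≤ 2 * θ := by
        rw [f1]
        have g1 : |b j| ≤ 1 := abs_le_of_sq_le_sq (by have := sq_nonneg (c j); linarith) zero_le_one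
        have g2 : |c j| ≤ 1 := abs_le_of_sq_le_sq (by have := sq_nonneg (b j); linarith) zero_le_one
        refine (abs_add_le _ _).trans ?_
        have g5 := abs_mul (a i * b j - a j * b i) (b j)
        have g6 := abs_mul (a i * c j - a j * c i) (c j)
        have g3 : |a i * b j - a j * b i| * |b j| ≤ θ * 1 := mul_le_mul c2.le g1 (abs_nonneg _) hθ.le
        have g4 : |a i * c j - a j * c i| * |c j| ≤ θ * 1 := mul_le_mul c3.le g2 (abs_nonneg _) hθ.le
        linarith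
      have f3 : |a j * dt - ε * a j| ≤ 2 * K * θ := by
        have g1 : a j * dt - ε * a j = ε * a j * (|dt| - 1) := by
          rw [← hεd]
          have : ε * a j * (ε * dt - 1) = ε ^ 2 * (a j * dt) - ε * a j := by ring
          rw [this, hε2, one_mul]
        have g2 : |ε| = 1 := by
          rcases hε with h | h <;> rw [h] <;> norm_num
        rw [g1, abs_mul (ε * a j), abs_mul ε, g2, one_mul]
        have g3 : abs (|dt| - 1) ≤ θ := by
          have h10 : θ ^ 2 ≤ θ := by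
            rw [pow_two]
            calc θ * θ ≤ 1 * θ := mul_le_mul_of_nonneg_right hθ1 hθ.le
              _ = θ := one_mul _
          rw [abs_le]
          constructor <;> linarith
        exact mul_le_mul (haK j hj) g3 (abs_nonneg _) (by linarith)
      have f4 := abs_add_le (a i - a j * dt) (a j * dt - ε * a j)
      have f5 : a i - a j * dt + (a j * dt - ε * a j) = a i - ε * a j := by ring
      rw [f5] at f4
      have f6 : 2 * θ ≤ 2 * (K * θ) := by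
        have := mul_le_mul_of_nonneg_right hK hθ.le
        linarith
      have f7 : 4 * K * θ = 2 * (K * θ) + 2 * K * θ := by ring
      rw [f7]
      linarith
    refine ⟨ε, hε, fun u => ?_⟩
    obtain ⟨y, z, hyz⟩ := hsp u
    set x := u 0 with hx
    have h8 : 0 < w ^ 2 := by positivity
    have h9 : w ^ 2 * ((n i - ε • n j) ⬝ᵥ gv u) ^ 2 ≤ w ^ 2 * ((5 * K * θ) ^ 2 * qf g (gv u)) := by
      have g1 : w * ((n i - ε • n j) ⬝ᵥ gv u) = (a i - ε * a j) * x + (b i - ε * b j) * y + (c i - ε * c j) * z := by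
        rw [sub_dotProduct, smul_dotProduct, smul_eq_mul, mul_sub]
        have g2 : w * (ε * (n j ⬝ᵥ gv u)) = ε * (w * (n j ⬝ᵥ gv u)) := by ring
        rw [g2, hyz, hlin, hlin]
        ring
      have g3 : w ^ 2 * ((5 * K * θ) ^ 2 * qf g (gv u)) = (5 * K * θ) ^ 2 * (w ^ 2 * qf g (gv u)) := by ring
      rw [g3, ← mul_pow, g1]
      have g4 : w ^ 2 * qf g (gv u) = α * x ^ 2 + y ^ 2 + z ^ 2 := by
        rw [hyz]
        exact hq' x y z
      rw [g4]
      have k3 : (a i - ε * a j) ^ 2 ≤ 16 * K ^ 2 * θ ^ 2 := by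
        have : (a i - ε * a j) ^ 2 ≤ (4 * K * θ) ^ 2 := by
          rw [← sq_abs]
          exact pow_le_pow_left₀ (abs_nonneg _) k2 2
        have h10 : (4 * K * θ) ^ 2 = 16 * K ^ 2 * θ ^ 2 := by ring
        linarith
      obtain ⟨p, hp⟩ : ∃ p, p = a i - ε * a j := ⟨_, rfl⟩
      obtain ⟨q, hq1⟩ : ∃ q, q = b i - ε * b j := ⟨_, rfl⟩
      obtain ⟨r, hr⟩ : ∃ r, r = c i - ε * c j := ⟨_, rfl⟩
      rw [← hp] at k3
      rw [← hq1, ← hr] at k1
      rw [← hp, ← hq1, ← hr]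
      have g5 : (p * x + q * y + r * z) ^ 2 ≤ (p ^ 2 + (q ^ 2 + r ^ 2)) * (x ^ 2 + (y ^ 2 + z ^ 2)) := by
        have h10 : (p ^ 2 + (q ^ 2 + r ^ 2)) * (x ^ 2 + (y ^ 2 + z ^ 2)) - (p * x + q * y + r * z) ^ 2 =
            (p * y - q * x) ^ 2 + (p * z - r * x) ^ 2 + (q * z - r * y) ^ 2 := by ring
        have h11 := sq_nonneg (p * y - q * x)
        have h12 := sq_nonneg (p * z - r * x)
        have h13 := sq_nonneg (q * z - r * y)
        linarith
      have g6 : p ^ 2 + (q ^ 2 + r ^ 2) ≤ (5 * K * θ) ^ 2 := by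
        have h10 : θ ^ 2 ≤ K ^ 2 * θ ^ 2 := by
          have h11 : (1 : ℝ) ≤ K ^ 2 := one_le_pow₀ hK
          calc θ ^ 2 = 1 * θ ^ 2 := (one_mul _).symm
            _ ≤ _ := mul_le_mul_of_nonneg_right h11 (sq_nonneg _)
        have h12 : (5 * K * θ) ^ 2 = 16 * K ^ 2 * θ ^ 2 + 9 * (K ^ 2 * θ ^ 2) := by ring
        have h13 := sq_nonneg θ
        rw [h12]
        linarith
      have g7 : x ^ 2 + (y ^ 2 + z ^ 2) ≤ α * x ^ 2 + y ^ 2 + z ^ 2 := by
        have h10 := mul_le_mul_of_nonneg_right hα (sq_nonneg x)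
        linarith
      exact g5.trans (mul_le_mul g6 g7 (by positivity) (sq_nonneg _))
    exact le_of_mul_le_mul_left h9 h8

end

end Pool.Agent.Helper55.LP2
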