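import Pool.Agent.Helper55.LP2.Disc

/-! DISC LEMMA for all rows: the vertical part of a direction with respect to the form `A`, the hull is thin along the
tangent hyperplane at all points of the lines, the vertical covector does not move. -/

set_option autoImplicit false

namespace Pool.Agent.Helper55.LP2

open Finset MvPolynomial Matrix Pool.Agent.Helper3.LF Pool.Agent.Helper48.NS
open Pool.Agent.Helper95.LF (PdM)
open Pool.Agent.Helper89.LX (qf)

noncomputable section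

variable {N D : ℕ}

/-- the derivative of the monomials in the direction `u` -/
def gd (u p : Fin N → ℝ) : Mon N D → ℝ := fun a => ∑ k, u k * dd k p a

theorem dr_gd (u p : Fin N → ℝ) (c : Mon N D → ℝ) : dr u p (pol c) = c ⬝ᵥ gd u p := by
  unfold dr gd dotProduct
  have h1 : ∀ k, u k * eval p (pderiv k (pol c)) = ∑ a, u k * (c a * dd k p a) := by
    intro k
    rw [eval_pderiv_pol, ← Finset.mul_sum]
    rfl
  rw [Finset.sum_congr rfl fun k _ => h1 k, Finset.sum_comm]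
  refine Finset.sum_congr rfl fun a _ => ?_
  rw [Finset.mul_sum]
  refine Finset.sum_congr rfl fun k _ => ?_
  ring

theorem gd_lin (α β : ℝ) (u v p : Fin N → ℝ) :
    (gd (fun k => α * u k + β * v k) p : Mon N D → ℝ) = α • gd u p + β • gd v p := by
  funext a
  unfold gd
  simp only [Pi.add_apply, Pi.smul_apply, smul_eq_mul]
  rw [Finset.mul_sum, Finset.mul_sum, ← Finset.sum_add_distrib]
  refine Finset.sum_congr rfl fun k _ => ?_
  ring

/-- the bilinear form -/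
def ip {ι : Type} [Fintype ι] (A : Matrix ι ι ℝ) (x y : ι → ℝ) : ℝ := x ⬝ᵥ (A *ᵥ y)

section ip
variable {ι : Type} [Fintype ι]

theorem ip_comm {A : Matrix ι ι ℝ} (hA : A.IsSymm) (x y : ι → ℝ) : ip A x y = ip A y x := by
  unfold ip
  rw [Matrix.dotProduct_mulVec, ← Matrix.mulVec_transpose, hA.eq, dotProduct_comm]

theorem ip_lin (A : Matrix ι ι ℝ) (α β : ℝ) (x y w : ι → ℝ) :
    ip A (α • x + β • y) w = α * ip A x w + β * ip A y w := by
  unfold ip
  rw [add_dotProduct, smul_dotProduct, smul_dotProduct, smul_eq_mul, smul_eq_mul]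

theorem ip_self (A : Matrix ι ι ℝ) (x : ι → ℝ) : ip A x x = qf A x := rfl

theorem qf_comb {A : Matrix ι ι ℝ} (hA : A.IsSymm) (α β : ℝ) (x y : ι → ℝ) :
    qf A (α • x + β • y) = α ^ 2 * qf A x + 2 * (α * β) * ip A x y + β ^ 2 * qf A y := by
  have h1 : qf A (α • x + β • y) = ip A (α • x + β • y) (α • x + β • y) := rfl
  rw [h1, ip_lin, ip_comm hA x, ip_comm hA y, ip_lin, ip_lin, ip_self, ip_self, ip_comm hA y x]
  ring

end ip

/-- the vertical part of the direction `u` at the point `p` -/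
def vpt (A : Matrix (Mon N D) (Mon N D) ℝ) (z p u : Fin N → ℝ) : ℝ := ip A (gd u p) (gd z p) / qf A (gd z p)

theorem vpt_lin (A : Matrix (Mon N D) (Mon N D) ℝ) (z p : Fin N → ℝ) (α β : ℝ) (u v : Fin N → ℝ) :
    vpt A z p (fun k => α * u k + β * v k) = α * vpt A z p u + β * vpt A z p v := by
  unfold vpt
  rw [gd_lin, ip_lin]
  ring

theorem vpt_z {A : Matrix (Mon N D) (Mon N D) ℝ} {z p : Fin N → ℝ} (h : 0 < qf A (gd z p)) : vpt A z p z = 1 := by
  unfold vpt
  rw [ip_self]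
  exact div_self h.ne'

/-- the vertical covector moves little if the hull is thin along the old hyperplane at the new point -/
theorem vpt_move {A : Matrix (Mon N D) (Mon N D) ℝ} (hA : PdM A) (z p' u : Fin N → ℝ) (lam : ℝ)
    (h : 0 < qf A (gd z p')) :
    (lam - vpt A z p' u) ^ 2 * qf A (gd z p') ≤ qf A (gd (fun k => u k - lam * z k) p') := by
  have e1 : (fun k => u k - lam * z k) = fun k => 1 * u k + (-lam) * z k := by
    funext k
    ring
  have h0 : 0 ≤ qf A (1 • gd u p' + (-vpt A z p' u) • gd z p') := hA.nonneg _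
  rw [one_smul] at h0
  have e2 : gd u p' = (1 : ℝ) • (gd u p' : Mon N D → ℝ) := (one_smul _ _).symm
  rw [e2, qf_comb hA.1] at h0
  rw [e1, gd_lin, qf_comb hA.1]
  set I := ip A (gd u p') (gd z p') with hI
  set Q := qf A (gd z p') with hQ
  have e3 : vpt A z p' u * Q = I := by
    unfold vpt
    rw [← hI, ← hQ]
    field_simp
  rw [← e3] at h0 ⊢
  linarith

/-- DISC LEMMA for two rows -/
theorem disc_row {R ρ θ : ℝ} {ca cb cc : ℕ → ℝ} {X Y : ℕ → ℕ → ℝ} (H : Cfg D R ρ θ ca cb cc X Y)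
    {A : Matrix (Mon N D) (Mon N D) ℝ} (hA : PdM A) {B : ℝ} (hB : 0 < B) (hN : 0 < N)
    (hT : ∀ (i : Fin N) v, qf A (Tm i *ᵥ v) ≤ B ^ 2 * qf A v) (c : Mon N D → ℝ) (hc : ∀ v, (c ⬝ᵥ v) ^ 2 ≤ qf A v)
    (c2 : Mon N D → ℝ) (hc2 : ∀ v, (c2 ⬝ᵥ v) ^ 2 ≤ qf A v)
    (p z b0 b1 b2 : Fin N → ℝ) (hz : ∀ k, |z k| ≤ 1) (Λ : ℝ) (hΛ : 0 < Λ) (hΛ' : Λ ≤ |dr z p (pol c)|)
    (Z : ℕ → ℕ → ℝ) (a h : ℝ) (ha : 0 < a) (hh : 0 < h)
    (hline : ∀ i ≤ D, ∀ k ≤ D, ∀ t, |t| ≤ h →
      qf A (vv (fun j => p j + t * (b0 j + X i k * b1 j + Y i k * b2 j + Z i k * z j))) ≤ a ^ 2)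
    (α0 α1 α2 : ℝ) (hα0 : |α0| ≤ 1) (hα1 : |α1| ≤ 1) (hα2 : |α2| ≤ 1) (i k : ℕ) (hi : i ≤ D) (hk : k ≤ D) (t : ℝ)
    (ht : |t| ≤ h) (u p' : Fin N → ℝ) (hu : ∀ j, u j = α0 * b0 j + α1 * b1 j + α2 * b2 j)
    (hp' : ∀ j, p' j = p j + t * (b0 j + X i k * b1 j + Y i k * b2 j + Z i k * z j)) :
    |dr (fun j => u j - dr u p (pol c) / dr z p (pol c) * z j) p' (pol c2)| ≤
      Cd D * fP D R θ * (Cu D * a * N * B / Λ) ^ (D + 1) * a / h := by
  have hNr : (0 : ℝ) < N := by exact_mod_cast hN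
  have hNB : (0 : ℝ) < N * B := mul_pos hNr hB
  have hR := H.hR
  have hfP := fP_pos D (lt_of_lt_of_le one_pos hR) H.hθ
  have hCu := Cu_one D
  have hCu0 : 0 < Cu D := by linarith
  set f := pol c with hf
  have hfd : f.totalDegree ≤ D := pol_deg c
  have hfd2 : (pol c2).totalDegree ≤ D := pol_deg c2
  set dz : ℝ := dr z p f with hdz
  have hdz0 : 0 < |dz| := lt_of_lt_of_le hΛ hΛ'
  have hdzne : dz ≠ 0 := abs_pos.mp hdz0
  -- the frame of the tangent hyperplane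
  set E : (Fin N → ℝ) → Fin N → ℝ := fun v k => v k - dr v p f / dz * z k with hE
  have hE0 : ∀ v, dr (E v) p f = 0 := by
    intro v
    rw [hE]
    simp only
    rw [dr_sub_mul, ← hdz]
    field_simp
    ring
  set ν : ℕ → ℕ → Fin N → ℝ := fun i k j => b0 j + X i k * b1 j + Y i k * b2 j + Z i k * z j with hν
  set δ : ℕ → ℕ → ℝ := fun i k => Z i k + dr b0 p f / dz + X i k * (dr b1 p f / dz) + Y i k * (dr b2 p f / dz) with hδd
  have hνE : ∀ i k j, ν i k j = E b0 j + X i k * E b1 j + Y i k * E b2 j + δ i k * z j := by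
    intro i k j
    rw [hν, hE, hδd]
    ring
  -- size of the derivatives at the point
  have hp0 : qf A (vv p) ≤ a ^ 2 := by
    have h1 := hline 0 (Nat.zero_le _) 0 (Nat.zero_le _) 0 (by rw [abs_zero]; exact hh.le)
    have e1 : (fun j => p j + 0 * (b0 j + X 0 0 * b1 j + Y 0 0 * b2 j + Z 0 0 * z j)) = p := by
      funext j
      ring
    rw [e1] at h1
    exact h1
  have hdzle : |dz| ≤ N * B * a := by
    rw [hdz]
    unfold dr
    refine (Finset.abs_sum_le_sum_abs _ _).trans ?_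
    have h1 : ∀ k ∈ (Finset.univ : Finset (Fin N)), |z k * eval p (pderiv k f)| ≤ B * a := by
      intro k _
      rw [abs_mul]
      have h2 : |eval p (pderiv k f)| ≤ B * a := by
        rw [hf, eval_pderiv_pol, dd_eq]
        apply abs_le_of_sq_le_sq _ (by positivity)
        refine (hc _).trans ((hT k _).trans ?_)
        rw [mul_pow]
        exact mul_le_mul_of_nonneg_left hp0 (by positivity)
      calc |z k| * |eval p (pderiv k f)| ≤ 1 * (B * a) := mul_le_mul (hz k) h2 (abs_nonneg _) zero_le_one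
        _ = B * a := one_mul _
    refine (Finset.sum_le_card_nsmul _ _ _ h1).trans (le_of_eq ?_)
    rw [Finset.card_univ, Fintype.card_fin, nsmul_eq_mul]
    ring
  -- the lines are nearly tangent
  have hνd : ∀ i ≤ D, ∀ k ≤ D, |δ i k| ≤ Cu D * a / (h * Λ) := by
    intro i hi k hk
    have h1 := dr_le hfd p (ν i k) h a hh (fun t ht0 ht1 => by
      apply abs_le_of_unit hc _ _ ha.le
      exact hline i hi k hk t (by rw [abs_of_nonneg ht0]; exact ht1))
    have h2 : dr (ν i k) p f = δ i k * dz := by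
      have e1 : ν i k = fun j => 1 * (fun j => 1 * E b0 j + X i k * E b1 j + Y i k * E b2 j) j + δ i k * z j +
          0 * z j := by
        funext j
        rw [hνE]
        ring
      rw [e1, dr_comb, dr_comb, hE0, hE0, hE0, ← hdz]
      ring
    rw [h2, abs_mul] at h1
    rw [le_div_iff₀ (by positivity)]
    have h3 : |δ i k| * Λ ≤ |δ i k| * |dz| := mul_le_mul_of_nonneg_left hΛ' (abs_nonneg _)
    have h4 : |δ i k| * Λ ≤ Cu D * a / h := h3.trans h1
    rw [le_div_iff₀ hh] at h4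
    calc |δ i k| * (h * Λ) = |δ i k| * Λ * h := by ring
      _ ≤ _ := h4
  -- the smaller window
  set ϱ : ℝ := Cu D * a * N * B / Λ with hϱ
  have hϱ0 : 0 < ϱ := by rw [hϱ]; positivity
  have hϱ1 : 1 ≤ ϱ := by
    rw [hϱ, one_le_div hΛ]
    have h1 : Λ ≤ N * B * a := hΛ'.trans hdzle
    have h2 : 0 ≤ N * B * a := by positivity
    nlinarith
  set h₁ : ℝ := h / ϱ with hh₁
  have hh₁0 : 0 < h₁ := by rw [hh₁]; positivity
  have hh₁1 : h₁ ≤ h := by
    rw [hh₁, div_le_iff₀ hϱ0]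
    nlinarith
  have hδ₁ : ∀ i ≤ D, ∀ k ≤ D, h₁ * |δ i k| ≤ 1 / (N * B) := by
    intro i hi k hk
    have h1 := mul_le_mul_of_nonneg_left (hνd i hi k hk) hh₁0.le
    refine h1.trans (le_of_eq ?_)
    rw [hh₁, hϱ]
    field_simp
  set M : ℝ := 4 * (Cu D * 3 ^ D * (2 * fP D R θ * (4 * a))) with hM
  have hM0 : 0 < M := by rw [hM]; positivity
  have hdisc := disc_one H hA hB hN hT p z (E b0) (E b1) (E b2) hz δ a h₁ ha hh₁0 hδ₁ (fun i hi k hk t ht => by
    have h1 := hline i hi k hk t (ht.trans hh₁1)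
    refine le_trans (le_of_eq ?_) h1
    congr 2
    funext j
    rw [← hνE])
  -- derivatives along the smaller window
  have hEu : ∀ j, E u j = α0 * E b0 j + α1 * E b1 j + α2 * E b2 j := by
    intro j
    have e1 : dr u p f = α0 * dr b0 p f + α1 * dr b1 p f + α2 * dr b2 p f := by
      rw [← dr_comb]
      congr 1
      funext j
      exact hu j
    rw [hE]
    simp only
    rw [e1, hu j]
    ring
  have hsmall : ∀ s : ℝ, |s| ≤ h₁ / 2 → |dr (E u) (fun j => p j + s * ν i k j) (pol c2)| ≤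
      Cu D * M / (h₁ / 2) := by
    intro s hs
    apply dr_le hfd2 _ _ _ _ (by linarith)
    intro ζ hζ0 hζ1
    apply abs_le_of_unit hc2 _ _ hM0.le
    have e1 : (fun j => p j + s * ν i k j + ζ * E u j) = fun j => p j + (s + ζ * α0) * E b0 j +
        (s * X i k + ζ * α1) * E b1 j + (s * Y i k + ζ * α2) * E b2 j + (s * δ i k) * z j := by
      funext j
      rw [hνE, hEu]
      ring
    rw [e1]
    have hζα : ∀ α : ℝ, |α| ≤ 1 → |ζ * α| ≤ h₁ / 2 := by
      intro α hα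
      rw [abs_mul, abs_of_nonneg hζ0]
      calc ζ * |α| ≤ (h₁ / 2) * 1 := mul_le_mul hζ1 hα (abs_nonneg _) (by linarith)
        _ = _ := mul_one _
    have hsX : ∀ x : ℝ, |x| ≤ R → |s * x| ≤ h₁ / 2 * R := by
      intro x hx
      rw [abs_mul]
      exact mul_le_mul hs hx (abs_nonneg _) (by linarith)
    have hfin : ∀ x α : ℝ, |x| ≤ R → |α| ≤ 1 → |s * x + ζ * α| ≤ h₁ * R := by
      intro x α hx hα
      have f1 := abs_add_le (s * x) (ζ * α)
      have f2 := hsX x hx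
      have f3 := hζα α hα
      nlinarith
    apply hdisc
    · have f1 := abs_add_le s (ζ * α0)
      have f3 := hζα α0 hα0
      linarith
    · exact hfin _ _ (H.hX i hi k hk) hα1
    · exact hfin _ _ (H.hY i hi k hk) hα2
    · rw [abs_mul]
      refine le_trans ?_ (hδ₁ i hi k hk)
      apply mul_le_mul_of_nonneg_right _ (abs_nonneg _)
      linarith
  -- growth
  set G : Polynomial ℝ := ∑ j, Polynomial.C (E u j) * lin p (ν i k) (pderiv j (pol c2)) with hG
  have hGe : ∀ s, G.eval s = dr (E u) (fun j => p j + s * ν i k j) (pol c2) := by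
    intro s
    rw [hG, Polynomial.eval_finsetSum]
    unfold dr
    refine Finset.sum_congr rfl fun j _ => ?_
    rw [Polynomial.eval_mul, Polynomial.eval_C, eval_lin]
  have hGd : G.natDegree ≤ D := by
    rw [hG]
    refine Polynomial.natDegree_sum_le_of_forall_le _ _ fun j _ => ?_
    refine (Polynomial.natDegree_C_mul_le _ _).trans ?_
    exact (natDegree_lin _ _ _).trans (pderiv_tdeg (pol c2) hfd2 j)
  have hgrow := grow D G hGd 0 (h₁ / 2) (2 * ϱ) (Cu D * M / (h₁ / 2)) (by linarith) (by linarith) (fun s hs => by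
    rw [hGe]
    rw [sub_zero] at hs
    exact hsmall s hs) t (by
    rw [sub_zero]
    refine ht.trans (le_of_eq ?_)
    rw [hh₁]
    field_simp)
  rw [hGe] at hgrow
  have e2 : (fun j => p j + t * ν i k j) = p' := by
    funext j
    rw [hp' j]
  rw [e2] at hgrow
  refine hgrow.trans (le_of_eq ?_)
  rw [hM, hh₁, Cd, pow_succ, mul_pow 2 ϱ]
  have e3 : (6 : ℝ) ^ D = 2 ^ D * 3 ^ D := by
    rw [← mul_pow]
    norm_num
  rw [e3]
  field_simp
  ring

/-- the row of the largest derivative in the direction `z` -/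
theorem exists_zrow {A : Matrix (Mon N D) (Mon N D) ℝ} (hA : PdM A) (z p : Fin N → ℝ) (h : 0 < qf A (gd z p)) :
    ∃ c : Mon N D → ℝ, (∀ v, (c ⬝ᵥ v) ^ 2 ≤ qf A v) ∧ dr z p (pol c) = Real.sqrt (qf A (gd z p)) ∧
      ∀ u, dr u p (pol c) / dr z p (pol c) = vpt A z p u := by
  set s : ℝ := Real.sqrt (qf A (gd z p)) with hs
  have hs0 : 0 < s := Real.sqrt_pos.mpr h
  have hss : s ^ 2 = qf A (gd z p) := Real.sq_sqrt h.le
  set w : Mon N D → ℝ := s⁻¹ • gd z p with hw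
  have e1 : qf A w = 1 := by
    have : qf A (s⁻¹ • (gd z p : Mon N D → ℝ)) = s⁻¹ ^ 2 * qf A (gd z p) := by
      unfold qf
      rw [Matrix.mulVec_smul, smul_dotProduct, dotProduct_smul, smul_eq_mul, smul_eq_mul]
      ring
    rw [hw, this, ← hss]
    field_simp
  have hd : ∀ u, dr u p (pol (A *ᵥ w)) = s⁻¹ * ip A (gd u p) (gd z p) := by
    intro u
    rw [dr_gd, hw, Matrix.mulVec_smul, smul_dotProduct, smul_eq_mul, dotProduct_comm]
    rfl
  have hz : dr z p (pol (A *ᵥ w)) = s := by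
    rw [hd, ip_self, ← hss]
    field_simp
  refine ⟨A *ᵥ w, fun v => cs_one hA.1 (fun v => hA.nonneg v) w e1 v, hz, fun u => ?_⟩
  rw [hz, hd]
  unfold vpt
  rw [← hss]
  field_simp

/-- DISC LEMMA for all rows -/
theorem disc_all {R ρ θ : ℝ} {ca cb cc : ℕ → ℝ} {X Y : ℕ → ℕ → ℝ} (H : Cfg D R ρ θ ca cb cc X Y)
    {A : Matrix (Mon N D) (Mon N D) ℝ} (hA : PdM A) {B : ℝ} (hB : 0 < B) (hN : 0 < N)
    (hT : ∀ (i : Fin N) v, qf A (Tm i *ᵥ v) ≤ B ^ 2 * qf A v)
    (p z b0 b1 b2 : Fin N → ℝ) (hz : ∀ k, |z k| ≤ 1) (Λ : ℝ) (hΛ : 0 < Λ) (hΛ' : Λ ^ 2 ≤ qf A (gd z p))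
    (Z : ℕ → ℕ → ℝ) (a h : ℝ) (ha : 0 < a) (hh : 0 < h)
    (hline : ∀ i ≤ D, ∀ k ≤ D, ∀ t, |t| ≤ h →
      qf A (vv (fun j => p j + t * (b0 j + X i k * b1 j + Y i k * b2 j + Z i k * z j))) ≤ a ^ 2)
    (α0 α1 α2 : ℝ) (hα0 : |α0| ≤ 1) (hα1 : |α1| ≤ 1) (hα2 : |α2| ≤ 1) (i k : ℕ) (hi : i ≤ D) (hk : k ≤ D) (t : ℝ)
    (ht : |t| ≤ h) (u p' : Fin N → ℝ) (hu : ∀ j, u j = α0 * b0 j + α1 * b1 j + α2 * b2 j)
    (hp' : ∀ j, p' j = p j + t * (b0 j + X i k * b1 j + Y i k * b2 j + Z i k * z j)) :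
    qf A (gd (fun j => u j - vpt A z p u * z j) p') ≤
      (Cd D * fP D R θ * (Cu D * a * N * B / Λ) ^ (D + 1) * a / h) ^ 2 := by
  have hq : 0 < qf A (gd z p) := lt_of_lt_of_le (by positivity) hΛ'
  obtain ⟨c, hc1, hc2, hc3⟩ := exists_zrow hA z p hq
  have hΛ2 : Λ ≤ |dr z p (pol c)| := by
    rw [hc2, abs_of_nonneg (Real.sqrt_nonneg _)]
    exact Real.le_sqrt_of_sq_le hΛ'
  have hR := H.hR
  have hfP := fP_pos D (lt_of_lt_of_le one_pos hR) H.hθ
  have hCu := Cu_one D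
  have hNr : (0 : ℝ) < N := by exact_mod_cast hN
  have hCd : 0 < Cd D := by
    unfold Cd
    positivity
  apply unit_dual hA _ _ (by positivity)
  intro c2 hc22
  have h1 := disc_row H hA hB hN hT c hc1 c2 hc22 p z b0 b1 b2 hz Λ hΛ hΛ2 Z a h ha hh hline α0 α1 α2 hα0 hα1 hα2
    i k hi hk t ht u p' hu hp'
  rw [hc3, dr_gd] at h1
  exact h1

/-- the vertical part of the velocity of a line in the hull is small -/
theorem vpt_line {A : Matrix (Mon N D) (Mon N D) ℝ} (hA : PdM A) (p z : Fin N → ℝ) (Λ : ℝ) (hΛ : 0 < Λ)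
    (hΛ' : Λ ^ 2 ≤ qf A (gd z p)) (v : Fin N → ℝ) (a h : ℝ) (ha : 0 < a) (hh : 0 < h)
    (hline : ∀ t, |t| ≤ h → qf A (vv (fun j => p j + t * v j)) ≤ a ^ 2) :
    |vpt A z p v| ≤ Cu D * a / (h * Λ) := by
  have hq : 0 < qf A (gd z p) := lt_of_lt_of_le (by positivity) hΛ'
  obtain ⟨c, hc1, hc2, hc3⟩ := exists_zrow hA z p hq
  have hΛ2 : Λ ≤ |dr z p (pol c)| := by
    rw [hc2, abs_of_nonneg (Real.sqrt_nonneg _)]
    exact Real.le_sqrt_of_sq_le hΛ'
  have h1 := dr_le (pol_deg c) p v h a hh (fun t ht0 ht1 => by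
    apply abs_le_of_unit hc1 _ _ ha.le
    exact hline t (by rw [abs_of_nonneg ht0]; exact ht1))
  have h2 : 0 < |dr z p (pol c)| := lt_of_lt_of_le hΛ hΛ2
  rw [← hc3 v, abs_div, div_le_div_iff₀ h2 (by positivity)]
  have h3 : |dr v p (pol c)| * h ≤ Cu D * a := by
    rwa [le_div_iff₀ hh] at h1
  have h4 : 0 ≤ |dr v p (pol c)| * h := by positivity
  calc |dr v p (pol c)| * (h * Λ) = (|dr v p (pol c)| * h) * Λ := by ring
    _ ≤ (Cu D * a) * |dr z p (pol c)| := mul_le_mul h3 hΛ2 hΛ.le (h4.trans h3)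

end

end Pool.Agent.Helper55.LP2
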