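import Pool.Agent.Helper55.LP2.Pol3
import Pool.Agent.Helper48.NS.Dtm
import Pool.Agent.Helper48.NS.Dvec

/-! DISC LEMMA (ns_notes_55c sect. 4): a form which dominates its derivatives and is bounded on `(D + 1) ^ 2` lines
through a point, `D + 1` lines in each of `D + 1` planes, is bounded on the disc of the tangent hyperplane; the
normal of the hull does not move along the lines. -/

set_option autoImplicit false

namespace Pool.Agent.Helper55.LP2

open Finset MvPolynomial Matrix Pool.Agent.Helper3.LF Pool.Agent.Helper48.NS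
open Pool.Agent.Helper95.LF (PdM)
open Pool.Agent.Helper89.LX (qf)

noncomputable section

variable {N D : ℕ}

/-- directional derivative -/
def dr (u p : Fin N → ℝ) (q : MvPolynomial (Fin N) ℝ) : ℝ := ∑ k, u k * eval p (pderiv k q)

theorem deriv_lin_eval (p u : Fin N → ℝ) (q : MvPolynomial (Fin N) ℝ) (t : ℝ) :
    (Polynomial.derivative (lin p u q)).eval t = dr u (fun k => p k + t * u k) q := by
  rw [deriv_lin, Polynomial.eval_finsetSum]
  unfold dr
  refine Finset.sum_congr rfl fun k _ => ?_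
  rw [Polynomial.eval_mul, Polynomial.eval_C, eval_lin]

theorem dr_comb (α β γ : ℝ) (u v w x : Fin N → ℝ) (q : MvPolynomial (Fin N) ℝ) :
    dr (fun k => α * u k + β * v k + γ * w k) x q = α * dr u x q + β * dr v x q + γ * dr w x q := by
  unfold dr
  rw [Finset.mul_sum, Finset.mul_sum, Finset.mul_sum, ← Finset.sum_add_distrib, ← Finset.sum_add_distrib]
  refine Finset.sum_congr rfl fun k _ => ?_
  ring

theorem dr_sub_mul (β : ℝ) (u z x : Fin N → ℝ) (q : MvPolynomial (Fin N) ℝ) :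
    dr (fun k => u k - β * z k) x q = dr u x q - β * dr z x q := by
  unfold dr
  rw [Finset.mul_sum, ← Finset.sum_sub_distrib]
  refine Finset.sum_congr rfl fun k _ => ?_
  ring

/-- a polynomial bounded on a segment has a bounded derivative at the end -/
theorem dr_le {q : MvPolynomial (Fin N) ℝ} (hq : q.totalDegree ≤ D) (p u : Fin N → ℝ) (r M : ℝ) (hr : 0 < r)
    (h : ∀ t, 0 ≤ t → t ≤ r → |eval (fun k => p k + t * u k) q| ≤ M) : |dr u p q| ≤ Cu D * M / r := by
  have h1 := uni_affine D (lin p u q) ((natDegree_lin _ _ _).trans hq) 1 0 r 1 0 M hr le_rfl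
    (by rw [sub_zero, abs_zero]; linarith) (fun j hj => by
      rw [eval_lin]
      have h2 := nod_nonneg D j
      have h3 := nod_le D j hj
      apply h
      · rw [zero_add]; positivity
      · rw [zero_add]; nlinarith)
  rw [pow_one, Function.iterate_one, one_pow, mul_one, deriv_lin_eval] at h1
  have e1 : (fun k => p k + (0 : ℝ) * u k) = p := by
    funext k
    ring
  rw [e1] at h1
  rw [le_div_iff₀ hr, mul_comm]
  exact h1

/-- the form is the largest square of a unit combination -/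
theorem unit_dual {A : Matrix (Mon N D) (Mon N D) ℝ} (hA : PdM A) (x : Mon N D → ℝ) (M : ℝ) (_ : 0 ≤ M)
    (h : ∀ c : Mon N D → ℝ, (∀ v, (c ⬝ᵥ v) ^ 2 ≤ qf A v) → |c ⬝ᵥ x| ≤ M) : qf A x ≤ M ^ 2 := by
  have h0 : ∀ v, 0 ≤ qf A v := fun v => hA.nonneg v
  rcases (h0 x).eq_or_lt with h1 | h1
  · rw [← h1]; positivity
  set s : ℝ := Real.sqrt (qf A x) with hs
  have hs0 : 0 < s := Real.sqrt_pos.mpr h1
  have hss : s ^ 2 = qf A x := Real.sq_sqrt h1.le
  set w : Mon N D → ℝ := s⁻¹ • x with hw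
  have e1 : qf A w = 1 := by
    rw [hw]
    have : qf A (s⁻¹ • x) = s⁻¹ ^ 2 * qf A x := by
      unfold qf
      rw [Matrix.mulVec_smul, smul_dotProduct, dotProduct_smul, smul_eq_mul, smul_eq_mul]
      ring
    rw [this, ← hss]
    field_simp
  have h2 := h (A *ᵥ w) (fun v => cs_one hA.1 h0 w e1 v)
  have e2 : (A *ᵥ w) ⬝ᵥ x = s := by
    rw [hw, Matrix.mulVec_smul, smul_dotProduct, smul_eq_mul]
    have e3 : (A *ᵥ x) ⬝ᵥ x = s ^ 2 := by
      rw [hss, dotProduct_comm]
      rfl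
    rw [e3]
    field_simp
  rw [e2, abs_of_pos hs0] at h2
  rw [← hss]
  exact pow_le_pow_left₀ hs0.le h2 2

theorem qf_sum2 {A : Matrix (Mon N D) (Mon N D) ℝ} (hA : PdM A) (u w : Mon N D → ℝ) :
    qf A u ≤ 2 * qf A (u - w) + 2 * qf A w := by
  have h0 := hA.nonneg (u - w - w)
  have hs := hA.1
  have e1 : qf A u + qf A (u - w - w) = 2 * qf A (u - w) + 2 * qf A w := by
    have e2 : u = (u - w) + w := by abel
    conv_lhs => rw [e2]
    have e3 : u - w + w - w - w = (u - w) - w := by abel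
    rw [e3]
    generalize u - w = a
    unfold qf
    have h2 : w ⬝ᵥ (A *ᵥ a) = a ⬝ᵥ (A *ᵥ w) := by
      rw [Matrix.dotProduct_mulVec, ← Matrix.mulVec_transpose, hs.eq, dotProduct_comm]
    simp only [Matrix.mulVec_sub, Matrix.mulVec_add, sub_dotProduct, dotProduct_sub, add_dotProduct,
      dotProduct_add]
    rw [h2]
    ring
  have h1 : 0 ≤ qf A (u - w - w) := h0
  linarith

/-- near points have comparable size -/
theorem near_pt {A : Matrix (Mon N D) (Mon N D) ℝ} (hA : PdM A) {B r : ℝ} (hr : 0 ≤ r) (hB : 0 ≤ B)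
    (hT : ∀ (i : Fin N) v, qf A (Tm i *ᵥ v) ≤ B ^ 2 * qf A v) (hK : N * B * r ≤ 1) (x h : Fin N → ℝ)
    (hh : ∀ i, |h i| ≤ r) : qf A (vv (fun k => x k + h k)) ≤ 16 * qf A (vv x) := by
  have h1 := gro_A A hA B r hr hB hT x h hh hK
  have h2 := qf_sum2 hA (vv (fun k => x k + h k)) (vv x)
  have h3 : 0 ≤ qf A (vv x) := hA.nonneg _
  have h4 : 0 ≤ N * B * r := by positivity
  have h5 : (2 * (N * B * r)) ^ 2 ≤ 4 := by nlinarith
  nlinarith

theorem abs_le_of_unit {A : Matrix (Mon N D) (Mon N D) ℝ} {c : Mon N D → ℝ} (hc : ∀ v, (c ⬝ᵥ v) ^ 2 ≤ qf A v)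
    (x : Fin N → ℝ) (M : ℝ) (hM : 0 ≤ M) (h : qf A (vv x) ≤ M ^ 2) : |eval x (pol c)| ≤ M := by
  rw [eval_pol]
  exact abs_le_of_sq_le_sq ((hc _).trans h) hM

/-- DISC LEMMA, first part: the disc of the tangent hyperplane lies in the hull -/
theorem disc_one {R ρ θ : ℝ} {ca cb cc : ℕ → ℝ} {X Y : ℕ → ℕ → ℝ} (H : Cfg D R ρ θ ca cb cc X Y)
    {A : Matrix (Mon N D) (Mon N D) ℝ} (hA : PdM A) {B : ℝ} (hB : 0 < B) (hN : 0 < N)
    (hT : ∀ (i : Fin N) v, qf A (Tm i *ᵥ v) ≤ B ^ 2 * qf A v) (p z E0 E1 E2 : Fin N → ℝ) (hz : ∀ k, |z k| ≤ 1)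
    (δ : ℕ → ℕ → ℝ) (a h : ℝ) (ha : 0 < a) (hh : 0 < h) (hδ : ∀ i ≤ D, ∀ k ≤ D, h * |δ i k| ≤ 1 / (N * B))
    (hline : ∀ i ≤ D, ∀ k ≤ D, ∀ t, |t| ≤ h →
      qf A (vv (fun j => p j + t * (E0 j + X i k * E1 j + Y i k * E2 j + δ i k * z j))) ≤ a ^ 2)
    (u0 u1 u2 s : ℝ) (h0 : |u0| ≤ h) (h1 : |u1| ≤ h * R) (h2 : |u2| ≤ h * R) (hs : |s| ≤ 1 / (N * B)) :
    qf A (vv (fun j => p j + u0 * E0 j + u1 * E1 j + u2 * E2 j + s * z j)) ≤
      (4 * (Cu D * 3 ^ D * (2 * fP D R θ * (4 * a)))) ^ 2 := by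
  have hNr : (0 : ℝ) < N := by exact_mod_cast hN
  have hNB : (0 : ℝ) < N * B := mul_pos hNr hB
  have hr0 : (0 : ℝ) ≤ 1 / (N * B) := by positivity
  have hK : N * B * (1 / (N * B)) ≤ 1 := by
    rw [mul_one_div, div_self hNB.ne']
  have hR := H.hR
  have hfP := fP_pos D (lt_of_lt_of_le one_pos hR) H.hθ
  have hCu := Cu_one D
  set M1 : ℝ := 2 * fP D R θ * (4 * a) with hM1
  have hM10 : 0 < M1 := by rw [hM1]; positivity
  set M2 : ℝ := Cu D * 3 ^ D * M1 with hM2
  have hM20 : 0 < M2 := by rw [hM2]; positivity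
  have step2 : ∀ c' : Mon N D → ℝ, (∀ v, (c' ⬝ᵥ v) ^ 2 ≤ qf A v) → ∀ t, h / 2 ≤ t → t ≤ h → ∀ x y, |x| ≤ 2 * R →
      |y| ≤ 2 * R → |pv (pol c') (fun j => p j + t * E0 j) (fun j => t * E1 j) (fun j => t * E2 j) x y| ≤ M1 := by
    intro c' hc' t ht1 ht2 x y hx hy
    have ht0 : 0 < t := by linarith
    apply poly_closed H (pol_deg c') _ _ _ (4 * a) _ x y hx hy
    intro i hi k hk
    unfold pv
    apply abs_le_of_unit hc' _ _ (by positivity)
    have e1 : (fun j => p j + t * E0 j + X i k * (t * E1 j) + Y i k * (t * E2 j)) =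
        fun j => (p j + t * (E0 j + X i k * E1 j + Y i k * E2 j + δ i k * z j)) + (-(t * δ i k)) * z j := by
      funext j
      ring
    rw [e1]
    have h3 := near_pt hA hr0 hB.le hT hK
      (fun j => p j + t * (E0 j + X i k * E1 j + Y i k * E2 j + δ i k * z j)) (fun j => (-(t * δ i k)) * z j) (fun j => by
        rw [abs_mul, abs_neg, abs_mul, abs_of_pos ht0]
        have f1 : t * |δ i k| ≤ 1 / (N * B) := by
          refine le_trans ?_ (hδ i hi k hk)
          exact mul_le_mul_of_nonneg_right ht2 (abs_nonneg _)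
        calc t * |δ i k| * |z j| ≤ 1 / (N * B) * 1 := mul_le_mul f1 (hz j) (abs_nonneg _) hr0
          _ = _ := mul_one _)
    have h4 := hline i hi k hk t (by rw [abs_of_pos ht0]; exact ht2)
    nlinarith
  have step3 : ∀ c' : Mon N D → ℝ, (∀ v, (c' ⬝ᵥ v) ^ 2 ≤ qf A v) →
      |c' ⬝ᵥ vv (fun j => p j + u0 * E0 j + u1 * E1 j + u2 * E2 j)| ≤ M2 := by
    intro c' hc'
    rw [← eval_pol]
    have h3 := uni_affine D (lin (fun j => p j + u1 * E1 j + u2 * E2 j) E0 (pol c'))
      ((natDegree_lin _ _ _).trans (pol_deg c')) 0 (h / 2) (h / 2) 3 u0 M1 (by linarith) (by norm_num) (by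
        rw [abs_le] at h0 ⊢
        constructor <;> linarith) (fun j hj => by
        have hj0 := nod_nonneg D j
        have hj1 := nod_le D j hj
        set t : ℝ := h / 2 + h / 2 * nod D j with ht
        have ht1 : h / 2 ≤ t := by rw [ht]; nlinarith
        have ht2 : t ≤ h := by rw [ht]; nlinarith
        have ht0 : 0 < t := by linarith
        have hdiv : ∀ w : ℝ, |w| ≤ h * R → |w / t| ≤ 2 * R := by
          intro w hw
          rw [abs_div, abs_of_pos ht0, div_le_iff₀ ht0]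
          nlinarith
        have h4 := step2 c' hc' t ht1 ht2 (u1 / t) (u2 / t) (hdiv _ h1) (hdiv _ h2)
        rw [eval_lin]
        refine le_trans (le_of_eq ?_) h4
        unfold pv
        congr 2
        congr 1
        funext j
        have e3 : u1 / t * (t * E1 j) = u1 * E1 j := by
          field_simp
        have e4 : u2 / t * (t * E2 j) = u2 * E2 j := by
          field_simp
        rw [e3, e4]
        ring)
    rw [pow_zero, one_mul, Function.iterate_zero, id, eval_lin] at h3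
    refine le_trans (le_of_eq ?_) h3
    congr 2
    congr 1
    funext j
    ring
  have h3 := unit_dual hA _ M2 hM20.le step3
  have h4 := near_pt hA hr0 hB.le hT hK (fun j => p j + u0 * E0 j + u1 * E1 j + u2 * E2 j) (fun j => s * z j)
    (fun j => by
      rw [abs_mul]
      calc |s| * |z j| ≤ 1 / (N * B) * 1 := mul_le_mul hs (hz j) (abs_nonneg _) hr0
        _ = _ := mul_one _)
  nlinarith

/-- the constant of the DISC LEMMA -/
def Cd (D : ℕ) : ℝ := 64 * Cu D ^ 3 * 6 ^ D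

/-- DISC LEMMA: the normal of the hull does not move along the lines -/
theorem disc {R ρ θ : ℝ} {ca cb cc : ℕ → ℝ} {X Y : ℕ → ℕ → ℝ} (H : Cfg D R ρ θ ca cb cc X Y)
    {A : Matrix (Mon N D) (Mon N D) ℝ} (hA : PdM A) {B : ℝ} (hB : 0 < B) (hN : 0 < N)
    (hT : ∀ (i : Fin N) v, qf A (Tm i *ᵥ v) ≤ B ^ 2 * qf A v) (c : Mon N D → ℝ) (hc : ∀ v, (c ⬝ᵥ v) ^ 2 ≤ qf A v)
    (p z b0 b1 b2 : Fin N → ℝ) (hz : ∀ k, |z k| ≤ 1) (Λ : ℝ) (hΛ : 0 < Λ) (hΛ' : Λ ≤ |dr z p (pol c)|)
    (Z : ℕ → ℕ → ℝ) (a h : ℝ) (ha : 0 < a) (hh : 0 < h)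
    (hline : ∀ i ≤ D, ∀ k ≤ D, ∀ t, |t| ≤ h →
      qf A (vv (fun j => p j + t * (b0 j + X i k * b1 j + Y i k * b2 j + Z i k * z j))) ≤ a ^ 2)
    (α0 α1 α2 : ℝ) (hα0 : |α0| ≤ 1) (hα1 : |α1| ≤ 1) (hα2 : |α2| ≤ 1) (i k : ℕ) (hi : i ≤ D) (hk : k ≤ D) (t : ℝ)
    (ht : |t| ≤ h) (u p' : Fin N → ℝ) (hu : ∀ j, u j = α0 * b0 j + α1 * b1 j + α2 * b2 j)
    (hp' : ∀ j, p' j = p j + t * (b0 j + X i k * b1 j + Y i k * b2 j + Z i k * z j)) :
    |dr u p' (pol c) - dr u p (pol c) / dr z p (pol c) * dr z p' (pol c)| ≤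
      Cd D * fP D R θ * (Cu D * a * N * B / Λ) ^ (D + 1) * a / h := by
  have hNr : (0 : ℝ) < N := by exact_mod_cast hN
  have hNB : (0 : ℝ) < N * B := mul_pos hNr hB
  have hR := H.hR
  have hfP := fP_pos D (lt_of_lt_of_le one_pos hR) H.hθ
  have hCu := Cu_one D
  have hCu0 : 0 < Cu D := by linarith
  set f := pol c with hf
  have hfd : f.totalDegree ≤ D := pol_deg c
  set dz : ℝ := dr z p f with hdz
  have hdz0 : 0 < |dz| := lt_of_lt_of_le hΛ hΛ'
  have hdzne : dz ≠ 0 := abs_pos.mp hdz0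
  -- the frame of the tangent hyperplane
  set E : (Fin N → ℝ) → Fin N → ℝ := fun v k => v k - dr v p f / dz * z k with hE
  have hE0 : ∀ v, dr (E v) p f = 0 := by
    intro v
    rw [hE]
    simp only
    rw [dr_sub_mul, ← hdz]
    field_simp
    ring
  set ν : ℕ → ℕ → Fin N → ℝ := fun i k j => b0 j + X i k * b1 j + Y i k * b2 j + Z i k * z j with hν
  set δ : ℕ → ℕ → ℝ := fun i k => Z i k + dr b0 p f / dz + X i k * (dr b1 p f / dz) + Y i k * (dr b2 p f / dz) with hδd
  have hνE : ∀ i k j, ν i k j = E b0 j + X i k * E b1 j + Y i k * E b2 j + δ i k * z j := by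
    intro i k j
    rw [hν, hE, hδd]
    ring
  -- size of the derivatives at the point
  have hp0 : qf A (vv p) ≤ a ^ 2 := by
    have h1 := hline 0 (Nat.zero_le _) 0 (Nat.zero_le _) 0 (by rw [abs_zero]; exact hh.le)
    have e1 : (fun j => p j + 0 * (b0 j + X 0 0 * b1 j + Y 0 0 * b2 j + Z 0 0 * z j)) = p := by
      funext j
      ring
    rw [e1] at h1
    exact h1
  have hdzle : |dz| ≤ N * B * a := by
    rw [hdz]
    unfold dr
    refine (Finset.abs_sum_le_sum_abs _ _).trans ?_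
    have h1 : ∀ k ∈ (Finset.univ : Finset (Fin N)), |z k * eval p (pderiv k f)| ≤ B * a := by
      intro k _
      rw [abs_mul]
      have h2 : |eval p (pderiv k f)| ≤ B * a := by
        rw [hf, eval_pderiv_pol, dd_eq]
        apply abs_le_of_sq_le_sq _ (by positivity)
        refine (hc _).trans ((hT k _).trans ?_)
        rw [mul_pow]
        exact mul_le_mul_of_nonneg_left hp0 (by positivity)
      calc |z k| * |eval p (pderiv k f)| ≤ 1 * (B * a) := mul_le_mul (hz k) h2 (abs_nonneg _) zero_le_one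
        _ = B * a := one_mul _
    refine (Finset.sum_le_card_nsmul _ _ _ h1).trans (le_of_eq ?_)
    rw [Finset.card_univ, Fintype.card_fin, nsmul_eq_mul]
    ring
  -- the lines are nearly tangent
  have hνd : ∀ i ≤ D, ∀ k ≤ D, |δ i k| ≤ Cu D * a / (h * Λ) := by
    intro i hi k hk
    have h1 := dr_le hfd p (ν i k) h a hh (fun t ht0 ht1 => by
      apply abs_le_of_unit hc _ _ ha.le
      exact hline i hi k hk t (by rw [abs_of_nonneg ht0]; exact ht1))
    have h2 : dr (ν i k) p f = δ i k * dz := by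
      have e1 : ν i k = fun j => 1 * (fun j => 1 * E b0 j + X i k * E b1 j + Y i k * E b2 j) j + δ i k * z j +
          0 * z j := by
        funext j
        rw [hνE]
        ring
      rw [e1, dr_comb, dr_comb, hE0, hE0, hE0, ← hdz]
      ring
    rw [h2, abs_mul] at h1
    rw [le_div_iff₀ (by positivity)]
    have h3 : |δ i k| * Λ ≤ |δ i k| * |dz| := mul_le_mul_of_nonneg_left hΛ' (abs_nonneg _)
    have h4 : |δ i k| * Λ ≤ Cu D * a / h := h3.trans h1
    rw [le_div_iff₀ hh] at h4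
    calc |δ i k| * (h * Λ) = |δ i k| * Λ * h := by ring
      _ ≤ _ := h4
  -- the smaller window
  set ϱ : ℝ := Cu D * a * N * B / Λ with hϱ
  have hϱ0 : 0 < ϱ := by rw [hϱ]; positivity
  have hϱ1 : 1 ≤ ϱ := by
    rw [hϱ, one_le_div hΛ]
    have h1 : Λ ≤ N * B * a := hΛ'.trans hdzle
    have h2 : 0 ≤ N * B * a := by positivity
    nlinarith
  set h₁ : ℝ := h / ϱ with hh₁
  have hh₁0 : 0 < h₁ := by rw [hh₁]; positivity
  have hh₁1 : h₁ ≤ h := by
    rw [hh₁, div_le_iff₀ hϱ0]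
    nlinarith
  have hδ₁ : ∀ i ≤ D, ∀ k ≤ D, h₁ * |δ i k| ≤ 1 / (N * B) := by
    intro i hi k hk
    have h1 := mul_le_mul_of_nonneg_left (hνd i hi k hk) hh₁0.le
    refine h1.trans (le_of_eq ?_)
    rw [hh₁, hϱ]
    field_simp
  set M : ℝ := 4 * (Cu D * 3 ^ D * (2 * fP D R θ * (4 * a))) with hM
  have hM0 : 0 < M := by rw [hM]; positivity
  have hdisc := disc_one H hA hB hN hT p z (E b0) (E b1) (E b2) hz δ a h₁ ha hh₁0 hδ₁ (fun i hi k hk t ht => by
    have h1 := hline i hi k hk t (ht.trans hh₁1)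
    refine le_trans (le_of_eq ?_) h1
    congr 2
    funext j
    rw [← hνE])
  -- derivatives along the smaller window
  have hEu : ∀ j, E u j = α0 * E b0 j + α1 * E b1 j + α2 * E b2 j := by
    intro j
    have e1 : dr u p f = α0 * dr b0 p f + α1 * dr b1 p f + α2 * dr b2 p f := by
      rw [← dr_comb]
      congr 1
      funext j
      exact hu j
    rw [hE]
    simp only
    rw [e1, hu j]
    ring
  have hsmall : ∀ s : ℝ, |s| ≤ h₁ / 2 → |dr (E u) (fun j => p j + s * ν i k j) f| ≤ Cu D * M / (h₁ / 2) := by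
    intro s hs
    apply dr_le hfd _ _ _ _ (by linarith)
    intro ζ hζ0 hζ1
    apply abs_le_of_unit hc _ _ hM0.le
    have e1 : (fun j => p j + s * ν i k j + ζ * E u j) = fun j => p j + (s + ζ * α0) * E b0 j +
        (s * X i k + ζ * α1) * E b1 j + (s * Y i k + ζ * α2) * E b2 j + (s * δ i k) * z j := by
      funext j
      rw [hνE, hEu]
      ring
    rw [e1]
    have hζα : ∀ α : ℝ, |α| ≤ 1 → |ζ * α| ≤ h₁ / 2 := by
      intro α hα
      rw [abs_mul, abs_of_nonneg hζ0]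
      calc ζ * |α| ≤ (h₁ / 2) * 1 := mul_le_mul hζ1 hα (abs_nonneg _) (by linarith)
        _ = _ := mul_one _
    have hsX : ∀ x : ℝ, |x| ≤ R → |s * x| ≤ h₁ / 2 * R := by
      intro x hx
      rw [abs_mul]
      exact mul_le_mul hs hx (abs_nonneg _) (by linarith)
    have hfin : ∀ x α : ℝ, |x| ≤ R → |α| ≤ 1 → |s * x + ζ * α| ≤ h₁ * R := by
      intro x α hx hα
      have f1 := abs_add_le (s * x) (ζ * α)
      have f2 := hsX x hx
      have f3 := hζα α hα
      nlinarith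
    apply hdisc
    · have f1 := abs_add_le s (ζ * α0)
      have f3 := hζα α0 hα0
      linarith
    · exact hfin _ _ (H.hX i hi k hk) hα1
    · exact hfin _ _ (H.hY i hi k hk) hα2
    · rw [abs_mul]
      refine le_trans ?_ (hδ₁ i hi k hk)
      apply mul_le_mul_of_nonneg_right _ (abs_nonneg _)
      linarith
  -- growth
  set G : Polynomial ℝ := ∑ j, Polynomial.C (E u j) * lin p (ν i k) (pderiv j f) with hG
  have hGe : ∀ s, G.eval s = dr (E u) (fun j => p j + s * ν i k j) f := by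
    intro s
    rw [hG, Polynomial.eval_finsetSum]
    unfold dr
    refine Finset.sum_congr rfl fun j _ => ?_
    rw [Polynomial.eval_mul, Polynomial.eval_C, eval_lin]
  have hGd : G.natDegree ≤ D := by
    rw [hG]
    refine Polynomial.natDegree_sum_le_of_forall_le _ _ fun j _ => ?_
    refine (Polynomial.natDegree_C_mul_le _ _).trans ?_
    exact (natDegree_lin _ _ _).trans (pderiv_tdeg f hfd j)
  have hgrow := grow D G hGd 0 (h₁ / 2) (2 * ϱ) (Cu D * M / (h₁ / 2)) (by linarith) (by linarith) (fun s hs => by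
    rw [hGe]
    rw [sub_zero] at hs
    exact hsmall s hs) t (by
    rw [sub_zero]
    refine ht.trans (le_of_eq ?_)
    rw [hh₁]
    field_simp)
  rw [hGe] at hgrow
  have e1 : dr (E u) (fun j => p j + t * ν i k j) f = dr u p' f - dr u p f / dz * dr z p' f := by
    have e2 : (fun j => p j + t * ν i k j) = p' := by
      funext j
      rw [hp' j]
    rw [e2, hE]
    simp only
    rw [dr_sub_mul]
  rw [e1] at hgrow
  refine hgrow.trans (le_of_eq ?_)
  rw [hM, hh₁, Cd, pow_succ, mul_pow 2 ϱ]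
  have e3 : (6 : ℝ) ^ D = 2 ^ D * 3 ^ D := by
    rw [← mul_pow]
    norm_num
  rw [e3]
  field_simp
  ring

end

end Pool.Agent.Helper55.LP2
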