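import Pool.Agent.Helper55.LP2.Det
import Pool.Agent.Helper3.LF.Rep

/-! DISC LEMMA at points near the lines: the hull contains the tangent disc up to a factor, the hull is thin along the
tangent hyperplane at all points near the disc. -/

set_option autoImplicit false

namespace Pool.Agent.Helper55.LP2

open Finset MvPolynomial Matrix Pool.Agent.Helper3.LF Pool.Agent.Helper48.NS
open Pool.Agent.Helper95.LF (PdM)
open Pool.Agent.Helper89.LX (qf)

noncomputable section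

variable {N D : ℕ}

theorem vpt_dec {A : Matrix (Mon N D) (Mon N D) ℝ} {z p : Fin N → ℝ} (hz : 0 < qf A (gd z p)) (b0 b1 b2 : Fin N → ℝ)
    (x0 x1 x2 ξ : ℝ) : vpt A z p (fun j => x0 * b0 j + x1 * b1 j + x2 * b2 j + ξ * z j) =
      x0 * vpt A z p b0 + x1 * vpt A z p b1 + x2 * vpt A z p b2 + ξ := by
  have h1 : (fun j => x0 * b0 j + x1 * b1 j + x2 * b2 j + ξ * z j) =
      fun j => 1 * (fun j => 1 * (fun j => x0 * b0 j + x1 * b1 j) j + x2 * b2 j) j + ξ * z j := by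
    funext j
    ring
  rw [h1, vpt_lin, vpt_lin, vpt_lin, vpt_z hz]
  ring

/-- the smaller window -/
def hs (N D : ℕ) (a B Λ h : ℝ) : ℝ := h / (Cu D * a * N * B / Λ)

/-- the bound on the disc -/
def Md (D : ℕ) (R θ a : ℝ) : ℝ := 4 * (Cu D * 3 ^ D * (2 * fP D R θ * (4 * a)))

theorem Md_pos (D : ℕ) {R θ a : ℝ} (hR : 1 ≤ R) (hθ : 0 < θ) (ha : 0 < a) : 0 < Md D R θ a := by
  have hfP := fP_pos D (lt_of_lt_of_le one_pos hR) hθ
  have hCu := Cu_one D
  unfold Md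
  positivity

theorem hs_pos {N : ℕ} (hN : 0 < N) (D : ℕ) {a B Λ h : ℝ} (ha : 0 < a) (hB : 0 < B) (hΛ : 0 < Λ) (hh : 0 < h) :
    0 < hs N D a B Λ h := by
  have hNr : (0 : ℝ) < N := by exact_mod_cast hN
  have hCu := Cu_one D
  unfold hs
  positivity

/-- values on the disc -/
theorem disc_vals {R ρ θ : ℝ} {ca cb cc : ℕ → ℝ} {X Y : ℕ → ℕ → ℝ} (H : Cfg D R ρ θ ca cb cc X Y)
    {A : Matrix (Mon N D) (Mon N D) ℝ} (hA : PdM A) {B : ℝ} (hB : 0 < B) (hN : 0 < N)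
    (hT : ∀ (i : Fin N) v, qf A (Tm i *ᵥ v) ≤ B ^ 2 * qf A v)
    (p z b0 b1 b2 : Fin N → ℝ) (hz : ∀ k, |z k| ≤ 1) (Λ : ℝ) (hΛ : 0 < Λ) (hΛ' : Λ ^ 2 ≤ qf A (gd z p))
    (Z : ℕ → ℕ → ℝ) (a h : ℝ) (ha : 0 < a) (hh : 0 < h)
    (hline : ∀ i ≤ D, ∀ k ≤ D, ∀ t, |t| ≤ h →
      qf A (vv (fun j => p j + t * (b0 j + X i k * b1 j + Y i k * b2 j + Z i k * z j))) ≤ a ^ 2)
    (c2 : Mon N D → ℝ) (hc2 : ∀ v, (c2 ⬝ᵥ v) ^ 2 ≤ qf A v)
    (u0 u1 u2 s : ℝ) (h0 : |u0| ≤ hs N D a B Λ h) (h1 : |u1| ≤ hs N D a B Λ h) (h2 : |u2| ≤ hs N D a B Λ h)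
    (h3 : |s| ≤ 1 / (N * B)) :
    |eval (fun j => p j + (u0 * b0 j + u1 * b1 j + u2 * b2 j +
      (s - (u0 * vpt A z p b0 + u1 * vpt A z p b1 + u2 * vpt A z p b2)) * z j)) (pol c2)| ≤ Md D R θ a := by
  have hNr : (0 : ℝ) < N := by exact_mod_cast hN
  have hNB : (0 : ℝ) < N * B := mul_pos hNr hB
  have hR := H.hR
  have hfP := fP_pos D (lt_of_lt_of_le one_pos hR) H.hθ
  have hCu := Cu_one D
  have hCu0 : 0 < Cu D := by linarith
  have hq : 0 < qf A (gd z p) := lt_of_lt_of_le (by positivity) hΛ'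
  set E : (Fin N → ℝ) → Fin N → ℝ := fun v k => v k - vpt A z p v * z k with hE
  set δ : ℕ → ℕ → ℝ := fun i k => Z i k + vpt A z p b0 + X i k * vpt A z p b1 + Y i k * vpt A z p b2 with hδd
  have hνE : ∀ i k j, b0 j + X i k * b1 j + Y i k * b2 j + Z i k * z j =
      E b0 j + X i k * E b1 j + Y i k * E b2 j + δ i k * z j := by
    intro i k j
    rw [hE, hδd]
    ring
  have hp0 : qf A (vv p) ≤ a ^ 2 := by
    have h1 := hline 0 (Nat.zero_le _) 0 (Nat.zero_le _) 0 (by rw [abs_zero]; exact hh.le)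
    have e1 : (fun j => p j + 0 * (b0 j + X 0 0 * b1 j + Y 0 0 * b2 j + Z 0 0 * z j)) = p := by
      funext j
      ring
    rw [e1] at h1
    exact h1
  have hdz : Λ ≤ N * B * a := by
    obtain ⟨c, hc1, hc2, hc3⟩ := exists_zrow hA z p hq
    have hΛ2 : Λ ≤ |dr z p (pol c)| := by
      rw [hc2, abs_of_nonneg (Real.sqrt_nonneg _)]
      exact Real.le_sqrt_of_sq_le hΛ'
    refine hΛ2.trans ?_
    unfold dr
    refine (Finset.abs_sum_le_sum_abs _ _).trans ?_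
    have h1 : ∀ k ∈ (Finset.univ : Finset (Fin N)), |z k * eval p (pderiv k (pol c))| ≤ B * a := by
      intro k _
      rw [abs_mul]
      have h2 : |eval p (pderiv k (pol c))| ≤ B * a := by
        rw [eval_pderiv_pol, dd_eq]
        apply abs_le_of_sq_le_sq _ (by positivity)
        refine (hc1 _).trans ((hT k _).trans ?_)
        rw [mul_pow]
        exact mul_le_mul_of_nonneg_left hp0 (by positivity)
      calc |z k| * |eval p (pderiv k (pol c))| ≤ 1 * (B * a) := mul_le_mul (hz k) h2 (abs_nonneg _) zero_le_one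
        _ = B * a := one_mul _
    refine (Finset.sum_le_card_nsmul _ _ _ h1).trans (le_of_eq ?_)
    rw [Finset.card_univ, Fintype.card_fin, nsmul_eq_mul]
    ring
  have hνd : ∀ i ≤ D, ∀ k ≤ D, |δ i k| ≤ Cu D * a / (h * Λ) := by
    intro i hi k hk
    have h1 := vpt_line hA p z Λ hΛ hΛ' (fun j => 1 * b0 j + X i k * b1 j + Y i k * b2 j + Z i k * z j) a h ha hh
      (fun t ht => by
        have e1 : (fun j => p j + t * (1 * b0 j + X i k * b1 j + Y i k * b2 j + Z i k * z j)) =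
            fun j => p j + t * (b0 j + X i k * b1 j + Y i k * b2 j + Z i k * z j) := by
          funext j
          ring
        have e2 := hline i hi k hk t ht
        rw [← e1] at e2
        exact e2)
    rw [vpt_dec hq] at h1
    have e3 : 1 * vpt A z p b0 + X i k * vpt A z p b1 + Y i k * vpt A z p b2 + Z i k = δ i k := by
      rw [hδd]
      ring
    rw [e3] at h1
    exact h1
  have hϱ0 : 0 < Cu D * a * N * B / Λ := by positivity
  have hϱ1 : 1 ≤ Cu D * a * N * B / Λ := by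
    rw [one_le_div hΛ]
    have h2 : 0 ≤ N * B * a := by positivity
    nlinarith
  have hh₁0 := hs_pos hN D ha hB hΛ hh
  have hh₁1 : hs N D a B Λ h ≤ h := by
    unfold hs
    rw [div_le_iff₀ hϱ0]
    nlinarith
  have hδ₁ : ∀ i ≤ D, ∀ k ≤ D, hs N D a B Λ h * |δ i k| ≤ 1 / (N * B) := by
    intro i hi k hk
    have h1 := mul_le_mul_of_nonneg_left (hνd i hi k hk) hh₁0.le
    refine h1.trans (le_of_eq ?_)
    unfold hs
    field_simp
  have hdisc := disc_one H hA hB hN hT p z (E b0) (E b1) (E b2) hz δ a (hs N D a B Λ h) ha hh₁0 hδ₁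
    (fun i hi k hk t ht => by
      have h1 := hline i hi k hk t (ht.trans hh₁1)
      have e1 : (fun j => p j + t * (b0 j + X i k * b1 j + Y i k * b2 j + Z i k * z j)) =
          fun j => p j + t * (E b0 j + X i k * E b1 j + Y i k * E b2 j + δ i k * z j) := by
        funext j
        rw [← hνE]
      rw [e1] at h1
      exact h1) u0 u1 u2 s h0 (h1.trans (le_mul_of_one_le_right hh₁0.le hR))
    (h2.trans (le_mul_of_one_le_right hh₁0.le hR)) h3
  have e2 : (fun j => p j + u0 * E b0 j + u1 * E b1 j + u2 * E b2 j + s * z j) =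
      fun j => p j + (u0 * b0 j + u1 * b1 j + u2 * b2 j +
        (s - (u0 * vpt A z p b0 + u1 * vpt A z p b1 + u2 * vpt A z p b2)) * z j) := by
    funext j
    rw [hE]
    ring
  rw [e2] at hdisc
  exact abs_le_of_unit hc2 _ _ (Md_pos D hR H.hθ ha).le hdisc

/-- the bound of the derivatives along the tangent hyperplane -/
def bd (N D : ℕ) (R θ a B Λ h G : ℝ) : ℝ :=
  Cu D * (Cu D * (G + 1) ^ D * Md D R θ a) / hs N D a B Λ h

theorem bd_pos {N : ℕ} (hN : 0 < N) (D : ℕ) {R θ a B Λ h G : ℝ} (hR : 1 ≤ R) (hθ : 0 < θ) (ha : 0 < a) (hB : 0 < B)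
    (hΛ : 0 < Λ) (hh : 0 < h) (hG : 1 ≤ G) : 0 < bd N D R θ a B Λ h G := by
  have h1 := Md_pos D hR hθ ha
  have h2 := hs_pos hN D ha hB hΛ hh
  have hCu := Cu_one D
  unfold bd
  positivity

/-- DISC LEMMA near the disc -/
theorem disc_near {R ρ θ : ℝ} {ca cb cc : ℕ → ℝ} {X Y : ℕ → ℕ → ℝ} (H : Cfg D R ρ θ ca cb cc X Y)
    {A : Matrix (Mon N D) (Mon N D) ℝ} (hA : PdM A) {B : ℝ} (hB : 0 < B) (hN : 0 < N)
    (hT : ∀ (i : Fin N) v, qf A (Tm i *ᵥ v) ≤ B ^ 2 * qf A v)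
    (p z b0 b1 b2 : Fin N → ℝ) (hz : ∀ k, |z k| ≤ 1) (Λ : ℝ) (hΛ : 0 < Λ) (hΛ' : Λ ^ 2 ≤ qf A (gd z p))
    (Z : ℕ → ℕ → ℝ) (a h : ℝ) (ha : 0 < a) (hh : 0 < h)
    (hline : ∀ i ≤ D, ∀ k ≤ D, ∀ t, |t| ≤ h →
      qf A (vv (fun j => p j + t * (b0 j + X i k * b1 j + Y i k * b2 j + Z i k * z j))) ≤ a ^ 2)
    (G : ℝ) (hG : 1 ≤ G) (x0 x1 x2 ξ : ℝ) (p' : Fin N → ℝ)
    (hp' : ∀ j, p' j = p j + (x0 * b0 j + x1 * b1 j + x2 * b2 j + ξ * z j))
    (hx0 : |x0| ≤ G * hs N D a B Λ h) (hx1 : |x1| ≤ G * hs N D a B Λ h) (hx2 : |x2| ≤ G * hs N D a B Λ h)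
    (hξ : |vpt A z p (fun j => p' j - p j)| ≤ G / (N * B))
    (α0 α1 α2 : ℝ) (hα0 : |α0| ≤ 1) (hα1 : |α1| ≤ 1) (hα2 : |α2| ≤ 1) (u : Fin N → ℝ)
    (hu : ∀ j, u j = α0 * b0 j + α1 * b1 j + α2 * b2 j) :
    qf A (gd (fun j => u j - vpt A z p u * z j) p') ≤ (bd N D R θ a B Λ h G) ^ 2 := by
  have hNr : (0 : ℝ) < N := by exact_mod_cast hN
  have hNB : (0 : ℝ) < N * B := mul_pos hNr hB
  have hR := H.hR
  have hCu := Cu_one D
  have hq : 0 < qf A (gd z p) := lt_of_lt_of_le (by positivity) hΛ'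
  have hh₁0 := hs_pos hN D ha hB hΛ hh
  have hM0 := Md_pos D hR H.hθ ha
  have hG1 : 0 < G + 1 := by linarith
  apply unit_dual hA _ _ (bd_pos hN D hR H.hθ ha hB hΛ hh hG).le
  intro c2 hc2
  rw [← dr_gd]
  have hvd : vpt A z p (fun j => p' j - p j) = x0 * vpt A z p b0 + x1 * vpt A z p b1 + x2 * vpt A z p b2 + ξ := by
    rw [← vpt_dec hq]
    congr 1
    funext j
    rw [hp' j]
    ring
  rw [hvd] at hξ
  set s : ℝ := x0 * vpt A z p b0 + x1 * vpt A z p b1 + x2 * vpt A z p b2 + ξ with hs'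
  have hvu : vpt A z p u = α0 * vpt A z p b0 + α1 * vpt A z p b1 + α2 * vpt A z p b2 := by
    have e1 := vpt_dec hq b0 b1 b2 α0 α1 α2 0
    rw [add_zero] at e1
    rw [← e1]
    congr 1
    funext j
    rw [hu j]
    ring
  have hval : ∀ ζ, 0 ≤ ζ → ζ ≤ hs N D a B Λ h →
      |eval (fun j => p' j + ζ * (u j - vpt A z p u * z j)) (pol c2)| ≤ Cu D * (G + 1) ^ D * Md D R θ a := by
    intro ζ hζ0 hζ1
    -- the segment from the centre
    set w : Fin N → ℝ := fun j => (x0 + ζ * α0) * b0 j + (x1 + ζ * α1) * b1 j + (x2 + ζ * α2) * b2 j +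
      (s - ((x0 + ζ * α0) * vpt A z p b0 + (x1 + ζ * α1) * vpt A z p b1 + (x2 + ζ * α2) * vpt A z p b2)) * z j with hw
    have e1 : (fun j => p' j + ζ * (u j - vpt A z p u * z j)) = fun j => p j + 1 * w j := by
      funext j
      rw [hp' j, hvu, hu j, hw, hs']
      ring
    rw [e1, ← eval_lin]
    apply grow D (lin p w (pol c2)) ((natDegree_lin _ _ _).trans (pol_deg _)) 0 (1 / (G + 1)) (G + 1) _ (by positivity)
      (by linarith) _ 1 (by
        rw [sub_zero, abs_one, mul_one_div, div_self hG1.ne'])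
    intro τ hτ
    rw [sub_zero] at hτ
    rw [eval_lin]
    have hτG : |τ| * (G + 1) ≤ 1 := by
      rwa [le_div_iff₀ hG1] at hτ
    have hsc : ∀ x α : ℝ, |x| ≤ G * hs N D a B Λ h → |α| ≤ 1 → |τ * (x + ζ * α)| ≤ hs N D a B Λ h := by
      intro x α hx hα
      rw [abs_mul]
      have f1 : |x + ζ * α| ≤ (G + 1) * hs N D a B Λ h := by
        refine (abs_add_le _ _).trans ?_
        rw [abs_mul, abs_of_nonneg hζ0]
        have : ζ * |α| ≤ hs N D a B Λ h * 1 := mul_le_mul hζ1 hα (abs_nonneg _) hh₁0.le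
        linarith
      calc |τ| * |x + ζ * α| ≤ |τ| * ((G + 1) * hs N D a B Λ h) := mul_le_mul_of_nonneg_left f1 (abs_nonneg _)
        _ = (|τ| * (G + 1)) * hs N D a B Λ h := by ring
        _ ≤ 1 * hs N D a B Λ h := mul_le_mul_of_nonneg_right hτG hh₁0.le
        _ = _ := one_mul _
    have hss : |τ * s| ≤ 1 / (N * B) := by
      rw [abs_mul]
      calc |τ| * |s| ≤ |τ| * (G / (N * B)) := mul_le_mul_of_nonneg_left hξ (abs_nonneg _)
        _ ≤ |τ| * ((G + 1) / (N * B)) := by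
            apply mul_le_mul_of_nonneg_left _ (abs_nonneg _)
            apply div_le_div_of_nonneg_right _ hNB.le
            linarith
        _ = (|τ| * (G + 1)) / (N * B) := by ring
        _ ≤ 1 / (N * B) := div_le_div_of_nonneg_right hτG hNB.le
    have h4 := disc_vals H hA hB hN hT p z b0 b1 b2 hz Λ hΛ hΛ' Z a h ha hh hline c2 hc2 (τ * (x0 + ζ * α0))
      (τ * (x1 + ζ * α1)) (τ * (x2 + ζ * α2)) (τ * s) (hsc _ _ hx0 hα0) (hsc _ _ hx1 hα1) (hsc _ _ hx2 hα2) hss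
    have e2 : (fun j => p j + (τ * (x0 + ζ * α0) * b0 j + τ * (x1 + ζ * α1) * b1 j + τ * (x2 + ζ * α2) * b2 j +
        (τ * s - (τ * (x0 + ζ * α0) * vpt A z p b0 + τ * (x1 + ζ * α1) * vpt A z p b1 +
          τ * (x2 + ζ * α2) * vpt A z p b2)) * z j)) = fun j => p j + τ * w j := by
      funext j
      rw [hw]
      ring
    rw [e2] at h4
    exact h4
  have h5 := dr_le (pol_deg c2) p' (fun j => u j - vpt A z p u * z j) (hs N D a B Λ h)
    (Cu D * (G + 1) ^ D * Md D R θ a) hh₁0 hval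
  exact h5

end

end Pool.Agent.Helper55.LP2
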