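import Pool.Agent.Helper51.LIP.Conf

/-! Amalgams with an extension: a space over `F` and a copy of `F` given a partition; laws. -/

set_option autoImplicit false

namespace Pool.Agent.Helper55.LP2

open Finset Filter Topology Pool.Agent.Helper69.RK Pool.Agent.Helper31.EC Pool.Agent.Helper42.NS
open Pool.Agent.Helper40.EL

noncomputable section

/-- an extension of `F` and a copy of `F` given `Y` -/
def plam {T F : FSp} (q : FPj T F) (Y : Setoid F.Ω) : FAm T F where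
  α := (FAm.self F Y).α
  f := fun w => (FAm.self F Y).f (q.π w)
  g := (FAm.self F Y).f
  law := by
    intro a
    have h2 : ms T.μ (fun w => (FAm.self F Y).f (q.π w)) a =
        ∑ x', T.μ x' * e1_ind ((FAm.self F Y).f (q.π x') = a) := by
      apply Finset.sum_congr rfl
      intro x' _
      rw [mul_comm]
    have h3 : ms F.μ (FAm.self F Y).f a = ∑ ω, F.μ ω * e1_ind ((FAm.self F Y).f ω = a) := by
      apply Finset.sum_congr rfl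
      intro x' _
      rw [mul_comm]
    rw [h2, h3]
    exact cf_sum q (fun ω => e1_ind ((FAm.self F Y).f ω = a))
  Zr := (FAm.self F Y).Zr
  hZ1 := by
    intro w w' a b
    rw [q.hZ w w' a b]
    exact (FAm.self F Y).hZ1 _ _ (q.supp _ a) (q.supp _ b)
  hZ2 := (FAm.self F Y).hZ2

theorem plam_supp {T F : FSp} (q : FPj T F) (Y : Setoid F.Ω) (w : T.Ω × F.Ω) (h : (plam q Y).sp.μ w ≠ 0) :
    T.μ w.1 ≠ 0 ∧ F.μ w.2 ≠ 0 ∧ (Y ⊓ F.Z) (q.π w.1) w.2 := by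
  obtain ⟨h1, h2, h3⟩ := (plam q Y).supp w h
  exact ⟨h2, h3, (cf_self_iff F Y _ _).mp h1⟩

theorem plam_pb {T F : FSp} (q : FPj T F) (Y : Setoid F.Ω) (R : F.Ω → F.Ω → Prop) :
    (plam q Y).sp.pb (fun w => R (q.π w.1) w.2) = (FAm.self F Y).sp.pb (fun z => R z.1 z.2) :=
  cf_pair q (cfid F) (plam q Y) (FAm.self F Y) (fun _ _ _ _ => Iff.rfl) (fun _ _ _ _ => Iff.rfl) R

/-- copies of an extension given a partition of the base -/
theorem self_pull {T F : FSp} (q : FPj T F) (Y : Setoid T.Ω) (Y' : Setoid F.Ω)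
    (h : ∀ x y, T.μ x ≠ 0 → T.μ y ≠ 0 → (Y x y ↔ Y' (q.π x) (q.π y))) (R : F.Ω → F.Ω → Prop) :
    (FAm.self T Y).sp.pb (fun z => R (q.π z.1) (q.π z.2)) = (FAm.self F Y').sp.pb (fun z => R z.1 z.2) := by
  have key : ∀ x y, T.μ x ≠ 0 → T.μ y ≠ 0 →
      ((FAm.self T Y).f x = (FAm.self T Y).f y ↔ (FAm.self F Y').f (q.π x) = (FAm.self F Y').f (q.π y)) := by
    intro x y hx hy
    rw [cf_self_iff, cf_self_iff]
    exact and_congr (h x y hx hy) (q.hZ x y hx hy)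
  exact cf_pair q q (FAm.self T Y) (FAm.self F Y') key key R

theorem one_sub_pb (F : FSp) (E : F.Ω → Prop) : 1 - F.pb E = F.pb (fun ω => ¬ E ω) := by
  have := F.pb_add_compl E
  linarith

/-- THE CONFIGURATION AT ONE POINT for an extension `T` of `F` and copies of `F` given `Y` -/
theorem conf_plam {T F : FSp} (q : FPj T F) (Y : Setoid F.Ω) (V b : Setoid T.Ω) (N : ℕ)
    (G₁ : T.Ω → Prop) (G₂ : F.Ω → Prop) (G₃ : T.Ω → Prop) (Gd : F.Ω → F.Ω → Prop) (Cl : T.Ω → T.Ω → Prop)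
    (Cn : T.Ω → T.Ω → Prop) {δ : ℝ} (hδ : 8 * ((N : ℝ) + 1) ^ 4 * δ ≤ 1) (h1 : T.pb (fun ω => ¬ G₁ ω) ≤ δ)
    (h2 : F.pb (fun ω => ¬ G₂ ω) ≤ δ) (h3 : T.pb (fun ω => ¬ G₃ ω) ≤ δ)
    (h4 : (FAm.self T (V ⊓ b)).sp.pb (fun z => Cl z.1 z.2) ≤ δ)
    (h5 : (FAm.self T b).sp.pb (fun z => Cn z.1 z.2) ≤ δ)
    (h6 : (FAm.self F Y).sp.pb (fun z => Gd z.1 z.2) < δ) :
    ∃ (y : Fin (N + 1) → Fin (N + 1) → T.Ω) (y' : F.Ω), (∀ i k, T.μ (y i k) ≠ 0) ∧ F.μ y' ≠ 0 ∧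
      (∀ i k k', (V ⊓ b ⊓ T.Z) (y i k) (y i k')) ∧ (∀ i j k k', (b ⊓ T.Z) (y i k) (y j k')) ∧
      (∀ i k, G₁ (y i k)) ∧ (∀ i k, G₂ (q.π (y i k))) ∧ (∀ i k, G₃ (y i k)) ∧ G₂ y' ∧
      (Y ⊓ F.Z) (q.π (y 0 0)) y' ∧ (∀ i k k', k ≠ k' → ¬ Cl (y i k) (y i k')) ∧
      (∀ i j k k', i ≠ j → ¬ Cn (y i k) (y j k')) ∧ ¬ Gd (q.π (y 0 0)) y' := by
  set P := plam q Y with hP
  have hN : (1 : ℝ) ≤ (N : ℝ) + 1 := by
    have : (0 : ℝ) ≤ N := Nat.cast_nonneg N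
    linarith
  have hδ0 : 0 ≤ δ := (FSp.pb_nonneg _ _).trans h1
  let A : Fin 5 → P.sp.Ω → Prop := fun a w => match a with
    | 0 => G₁ w.1
    | 1 => G₂ (q.π w.1)
    | 2 => G₂ w.2
    | 3 => G₃ w.1
    | 4 => ¬ Gd (q.π w.1) w.2
  let B : Fin 1 → P.sp.Ω → P.sp.Ω → Prop := fun _ w w' => ¬ Cl w.1 w'.1
  let C : Fin 1 → P.sp.Ω → P.sp.Ω → Prop := fun _ w w' => ¬ Cn w.1 w'.1
  have eA0 : 1 - P.sp.pb (A 0) ≤ δ := by
    rw [one_sub_pb]
    exact (Pool.Agent.Helper42.NS.pb_comp P.p1 (fun ω => ¬ G₁ ω)).le.trans h1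
  have eA1 : 1 - P.sp.pb (A 1) ≤ δ := by
    rw [one_sub_pb]
    exact (Pool.Agent.Helper42.NS.pb_comp (P.p1.comp q) (fun ω => ¬ G₂ ω)).le.trans h2
  have eA2 : 1 - P.sp.pb (A 2) ≤ δ := by
    rw [one_sub_pb]
    exact (Pool.Agent.Helper42.NS.pb_comp P.p2 (fun ω => ¬ G₂ ω)).le.trans h2
  have eA3 : 1 - P.sp.pb (A 3) ≤ δ := by
    rw [one_sub_pb]
    exact (Pool.Agent.Helper42.NS.pb_comp P.p1 (fun ω => ¬ G₃ ω)).le.trans h3
  have eA4 : 1 - P.sp.pb (A 4) < δ := by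
    have e1 : 1 - P.sp.pb (A 4) = P.sp.pb (fun w => Gd (q.π w.1) w.2) := by
      have := P.sp.pb_add_compl (fun w => Gd (q.π w.1) w.2)
      show 1 - P.sp.pb (fun w => ¬ Gd (q.π w.1) w.2) = _
      linarith
    rw [e1, hP, plam_pb]
    exact h6
  have eB : 1 - (FAm.self P.sp (Setoid.comap Prod.fst V ⊓ Setoid.comap Prod.fst b)).sp.pb (fun z => B 0 z.1 z.2) ≤
      δ := by
    rw [one_sub_pb]
    have e1 : (FAm.self P.sp (Setoid.comap Prod.fst V ⊓ Setoid.comap Prod.fst b)).sp.pb (fun z => ¬ B 0 z.1 z.2) =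
        (FAm.self P.sp (Setoid.comap Prod.fst V ⊓ Setoid.comap Prod.fst b)).sp.pb
          (fun z => Cl (P.p1.π z.1) (P.p1.π z.2)) := by
      apply pb_congr
      intro z _
      exact not_not
    rw [e1, self_pull P.p1 _ (V ⊓ b) (fun x y _ _ => Iff.rfl) Cl]
    exact h4
  have eC : 1 - (FAm.self P.sp (Setoid.comap Prod.fst b)).sp.pb (fun z => C 0 z.1 z.2) ≤ δ := by
    rw [one_sub_pb]
    have e1 : (FAm.self P.sp (Setoid.comap Prod.fst b)).sp.pb (fun z => ¬ C 0 z.1 z.2) =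
        (FAm.self P.sp (Setoid.comap Prod.fst b)).sp.pb (fun z => Cn (P.p1.π z.1) (P.p1.π z.2)) := by
      apply pb_congr
      intro z _
      exact not_not
    rw [e1, self_pull P.p1 _ b (fun x y _ _ => Iff.rfl) Cn]
    exact h5
  obtain ⟨y, y1, y2, y3, y4, y5, y6⟩ := conf_pt P.sp (Setoid.comap Prod.fst V) (Setoid.comap Prod.fst b) N N A B C (by
    rw [Fin.sum_univ_five, Fin.sum_univ_one, Fin.sum_univ_one]
    have p1 : ((N : ℝ) + 1) * (N + 1) ≤ (N + 1) ^ 4 := by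
      have : ((N : ℝ) + 1) * (N + 1) = (N + 1) ^ 2 := by ring
      rw [this]
      exact pow_le_pow_right₀ hN (by norm_num)
    have p2 : ((N : ℝ) + 1) * (N + 1) ^ 2 ≤ (N + 1) ^ 4 := by
      have : ((N : ℝ) + 1) * (N + 1) ^ 2 = (N + 1) ^ 3 := by ring
      rw [this]
      exact pow_le_pow_right₀ hN (by norm_num)
    have p3 : ((N : ℝ) + 1) ^ 2 * (N + 1) ^ 2 = (N + 1) ^ 4 := by ring
    have p0 : 0 < ((N : ℝ) + 1) * (N + 1) := by positivity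
    have q1 : ((N : ℝ) + 1) * (N + 1) * (1 - P.sp.pb (A 0) + (1 - P.sp.pb (A 1)) + (1 - P.sp.pb (A 2)) +
        (1 - P.sp.pb (A 3)) + (1 - P.sp.pb (A 4))) < (N + 1) * (N + 1) * (5 * δ) := by
      apply mul_lt_mul_of_pos_left _ p0
      linarith
    have q1' : ((N : ℝ) + 1) * (N + 1) * (5 * δ) ≤ (N + 1) ^ 4 * (5 * δ) :=
      mul_le_mul_of_nonneg_right p1 (by linarith)
    have q2 : ((N : ℝ) + 1) * (N + 1) ^ 2 * (1 - (FAm.self P.sp (Setoid.comap Prod.fst V ⊓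
        Setoid.comap Prod.fst b)).sp.pb (fun z => B 0 z.1 z.2)) ≤ (N + 1) ^ 4 * δ := by
      refine (mul_le_mul_of_nonneg_left eB (by positivity)).trans ?_
      exact mul_le_mul_of_nonneg_right p2 hδ0
    have q3 : ((N : ℝ) + 1) ^ 2 * (N + 1) ^ 2 * (1 - (FAm.self P.sp (Setoid.comap Prod.fst b)).sp.pb
        (fun z => C 0 z.1 z.2)) ≤ (N + 1) ^ 4 * δ := by
      rw [p3]
      exact mul_le_mul_of_nonneg_left eC (by positivity)
    have q4 : ((N : ℝ) + 1) ^ 4 * (5 * δ) + (N + 1) ^ 4 * δ + (N + 1) ^ 4 * δ ≤ 1 := by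
      have : 0 ≤ ((N : ℝ) + 1) ^ 4 * δ := by positivity
      linarith
    linarith)
  have hs : ∀ i k, T.μ (y i k).1 ≠ 0 ∧ F.μ (y i k).2 ≠ 0 ∧ (Y ⊓ F.Z) (q.π (y i k).1) (y i k).2 :=
    fun i k => plam_supp q Y _ (y1 i k)
  refine ⟨fun i k => (y i k).1, (y 0 0).2, fun i k => (hs i k).1, (hs 0 0).2.1, ?_, ?_, fun i k => y4 0 i k,
    fun i k => y4 1 i k, fun i k => y4 3 i k, y4 2 0 0, (hs 0 0).2.2, ?_, ?_, y4 4 0 0⟩
  · intro i k k'
    exact ⟨(y2 i k k').1, (y2 i k k').2⟩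
  · intro i j k k'
    exact ⟨(y3 i j k k').1, (y3 i j k k').2⟩
  · intro i k k' hk
    exact y5 0 i k k' hk
  · intro i j k k' hij
    exact y6 0 i j k k' hij

end

end Pool.Agent.Helper55.LP2
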