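import Pool.Agent.Helper3.LF.Rep
import Pool.Agent.Helper3.LF.Sub
import Pool.Agent.Helper3.LF.Lin

/-! LEMMA POLY (ns_notes_55c sect. 3): a polynomial of degree at most `D` on a plane which is small at `D + 1` separated
points of each of `D + 1` separated lines is small. -/

set_option autoImplicit false

namespace Pool.Agent.Helper55.LP2

open Finset MvPolynomial Pool.Agent.Helper3.LF

noncomputable section

variable {N : ℕ}

/-- the value at the point `p + x e + y v` of a plane -/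
def pv (q : MvPolynomial (Fin N) ℝ) (p e v : Fin N → ℝ) (x y : ℝ) : ℝ := eval (fun k => p k + x * e k + y * v k) q

/-- the restriction to the line `(x, y) + t (u, w)` of the plane -/
def pl2 (q : MvPolynomial (Fin N) ℝ) (p e v : Fin N → ℝ) (x y u w : ℝ) : Polynomial ℝ :=
  lin (fun k => p k + x * e k + y * v k) (fun k => u * e k + w * v k) q

theorem pl2_eval (q : MvPolynomial (Fin N) ℝ) (p e v : Fin N → ℝ) (x y u w t : ℝ) :
    (pl2 q p e v x y u w).eval t = pv q p e v (x + t * u) (y + t * w) := by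
  unfold pl2 pv
  rw [eval_lin]
  congr 1
  congr 1
  funext k
  ring

theorem pl2_deg {D : ℕ} {q : MvPolynomial (Fin N) ℝ} (hq : q.totalDegree ≤ D) (p e v : Fin N → ℝ) (x y u w : ℝ) :
    (pl2 q p e v x y u w).natDegree ≤ D := (natDegree_lin _ _ _).trans hq

/-- a polynomial moves little on short intervals -/
theorem uni_lip (D : ℕ) (f : Polynomial ℝ) (hf : f.natDegree ≤ D) (S ρ : ℝ) (h0 : 0 ≤ ρ) (h1 : ρ ≤ 1)
    (h : ∀ s, 0 ≤ s → s ≤ 1 → |f.eval s| ≤ S) : |f.eval ρ - f.eval 0| ≤ Cu D * S * ρ := by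
  rcases h0.eq_or_lt with rfl | h0
  · simp
  obtain ⟨ξ, hξ, h2⟩ := exists_deriv_eq_slope (fun s => f.eval s) h0 f.continuous.continuousOn
    f.differentiable.differentiableOn
  have h3 : deriv (fun s => f.eval s) ξ = (Polynomial.derivative f).eval ξ := Polynomial.deriv f
  have h4 := uni_bound D f hf 1 1 ξ S le_rfl (by
    rw [abs_of_pos hξ.1]
    exact hξ.2.le.trans h1) (fun j hj => h _ (nod_nonneg D j) (nod_le D j hj))
  rw [Function.iterate_one, one_pow, mul_one] at h4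
  rw [h3, sub_zero, eq_div_iff h0.ne'] at h2
  rw [← h2, abs_mul, abs_of_pos h0]
  exact mul_le_mul_of_nonneg_right h4 h0.le

/-- the same on the plane -/
theorem pv_lip {D : ℕ} {q : MvPolynomial (Fin N) ℝ} (hq : q.totalDegree ≤ D) (p e v : Fin N → ℝ) (R S ρ : ℝ)
    (h0 : 0 < ρ) (h1 : ρ ≤ 1) (h : ∀ x y, |x| ≤ R + 1 → |y| ≤ R + 1 → |pv q p e v x y| ≤ S) (x y x' y' : ℝ)
    (hx : |x| ≤ R) (hy : |y| ≤ R) (hx' : |x' - x| ≤ ρ) (hy' : |y' - y| ≤ ρ) :
    |pv q p e v x' y' - pv q p e v x y| ≤ Cu D * S * ρ := by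
  have h2 := uni_lip D (pl2 q p e v x y ((x' - x) / ρ) ((y' - y) / ρ)) (pl2_deg hq _ _ _ _ _ _ _) S ρ h0.le h1
    (fun s hs0 hs1 => by
      rw [pl2_eval]
      have a1 : |(x' - x) / ρ| ≤ 1 := by
        rw [abs_div, abs_of_pos h0, div_le_one h0]
        exact hx'
      have a2 : |(y' - y) / ρ| ≤ 1 := by
        rw [abs_div, abs_of_pos h0, div_le_one h0]
        exact hy'
      apply h
      · have := abs_add_le x (s * ((x' - x) / ρ))
        rw [abs_mul, abs_of_nonneg hs0] at this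
        nlinarith [abs_nonneg ((x' - x) / ρ)]
      · have := abs_add_le y (s * ((y' - y) / ρ))
        rw [abs_mul, abs_of_nonneg hs0] at this
        nlinarith [abs_nonneg ((y' - y) / ρ)])
  rw [pl2_eval, pl2_eval] at h2
  have e1 : x + ρ * ((x' - x) / ρ) = x' := by
    field_simp
    ring
  have e2 : y + ρ * ((y' - y) / ρ) = y' := by
    field_simp
    ring
  rw [e1, e2, zero_mul, zero_mul, add_zero, add_zero] at h2
  exact h2

/-- STEP A: small at `D + 1` separated points near a line: small on the line -/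
theorem line_small {D : ℕ} {q : MvPolynomial (Fin N) ℝ} (hq : q.totalDegree ≤ D) (p e v : Fin N → ℝ)
    (R S ρ θ A a b c : ℝ) (h0 : 0 < ρ) (h1 : ρ ≤ 1) (hθ : 0 < θ) (hρθ : 4 * ρ ≤ θ)
    (h : ∀ x y, |x| ≤ R + 1 → |y| ≤ R + 1 → |pv q p e v x y| ≤ S) (hbc : b ^ 2 + c ^ 2 = 1)
    (X Y : ℕ → ℝ) (hX : ∀ k ≤ D, |X k| ≤ R) (hY : ∀ k ≤ D, |Y k| ≤ R) (hn : ∀ k ≤ D, |a + b * X k + c * Y k| ≤ ρ)
    (hs : ∀ k ≤ D, ∀ l ≤ D, k ≠ l → θ ≤ |X k - X l| ∨ θ ≤ |Y k - Y l|)
    (hA : ∀ k ≤ D, |pv q p e v (X k) (Y k)| ≤ A) (L x y : ℝ) (hx : |x| ≤ L) (hy : |y| ≤ L)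
    (hxy : a + b * x + c * y = 0) :
    |pv q p e v x y| ≤ (D + 1) * ((2 * L + 2 * R) / (θ / 2)) ^ D * (A + Cu D * S * ρ) := by
  have hb : |b| ≤ 1 := (sq_le_one_iff_abs_le_one b).mp (by nlinarith [sq_nonneg c])
  have hc : |c| ≤ 1 := (sq_le_one_iff_abs_le_one c).mp (by nlinarith [sq_nonneg b])
  have hz : ∀ s : ℝ, (pl2 q p e v (-a * b) (-a * c) (-c) b).eval s = pv q p e v (-a * b - s * c) (-a * c + s * b) := by
    intro s
    rw [pl2_eval]
    congr 1
    ring
  have hlin : ∀ x y : ℝ, |x| ≤ L → |y| ≤ L → |-c * x + b * y| ≤ 2 * L := by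
    intro x y h1 h2
    have := abs_add_le (-c * x) (b * y)
    rw [abs_mul, abs_mul, abs_neg] at this
    nlinarith [abs_nonneg x, abs_nonneg y, abs_nonneg b, abs_nonneg c]
  have hlin' : ∀ x y : ℝ, |x| ≤ R → |y| ≤ R → |-c * x + b * y| ≤ 2 * R := by
    intro x y h1 h2
    have := abs_add_le (-c * x) (b * y)
    rw [abs_mul, abs_mul, abs_neg] at this
    nlinarith [abs_nonneg x, abs_nonneg y, abs_nonneg b, abs_nonneg c]
  have key := lag_bound D (pl2 q p e v (-a * b) (-a * c) (-c) b) (pl2_deg hq _ _ _ _ _ _ _)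
    (fun k => -c * X k + b * Y k) (θ / 2) (2 * L + 2 * R) (A + Cu D * S * ρ) (-c * x + b * y) (by linarith)
    (fun k hk l hl hkl => by
      have e1 : (-c * X k + b * Y k - (-c * X l + b * Y l)) ^ 2 =
          (X k - X l) ^ 2 + (Y k - Y l) ^ 2 - ((a + b * X k + c * Y k) - (a + b * X l + c * Y l)) ^ 2 := by
        linear_combination ((X k - X l) ^ 2 + (Y k - Y l) ^ 2) * hbc
      have e2 : ((a + b * X k + c * Y k) - (a + b * X l + c * Y l)) ^ 2 ≤ (2 * ρ) ^ 2 := by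
        rw [← sq_abs]
        apply pow_le_pow_left₀ (abs_nonneg _)
        have := abs_sub (a + b * X k + c * Y k) (a + b * X l + c * Y l)
        linarith [hn k hk, hn l hl]
      have e3 : θ ^ 2 ≤ (X k - X l) ^ 2 + (Y k - Y l) ^ 2 := by
        rcases hs k hk l hl hkl with h3 | h3
        · have := pow_le_pow_left₀ hθ.le h3 2
          rw [sq_abs] at this
          nlinarith only [this, sq_nonneg (Y k - Y l)]
        · have := pow_le_pow_left₀ hθ.le h3 2
          rw [sq_abs] at this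
          nlinarith only [this, sq_nonneg (X k - X l)]
      apply le_of_sq_le_sq _ (abs_nonneg _)
      rw [sq_abs, e1]
      nlinarith only [h0, hρθ, e2, e3])
    (fun k hk => by
      have h3 := abs_sub (-c * x + b * y) (-c * X k + b * Y k)
      have h4 := hlin x y hx hy
      have h5 := hlin' (X k) (Y k) (hX k hk) (hY k hk)
      linarith)
    (fun k hk => by
      rw [hz]
      have h3 := pv_lip hq p e v R S ρ h0 h1 h (X k) (Y k) (-a * b - (-c * X k + b * Y k) * c)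
        (-a * c + (-c * X k + b * Y k) * b) (hX k hk) (hY k hk) (by
          have e1 : -a * b - (-c * X k + b * Y k) * c - X k = -b * (a + b * X k + c * Y k) := by
            linear_combination (X k) * hbc
          rw [e1, abs_mul, abs_neg]
          calc |b| * _ ≤ 1 * ρ := mul_le_mul hb (hn k hk) (abs_nonneg _) zero_le_one
            _ = ρ := one_mul ρ) (by
          have e1 : -a * c + (-c * X k + b * Y k) * b - Y k = -c * (a + b * X k + c * Y k) := by
            linear_combination (Y k) * hbc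
          rw [e1, abs_mul, abs_neg]
          calc |c| * _ ≤ 1 * ρ := mul_le_mul hc (hn k hk) (abs_nonneg _) zero_le_one
            _ = ρ := one_mul ρ)
      have h4 := abs_sub_abs_le_abs_sub (pv q p e v (-a * b - (-c * X k + b * Y k) * c)
        (-a * c + (-c * X k + b * Y k) * b)) (pv q p e v (X k) (Y k))
      linarith [hA k hk])
  rw [hz] at key
  have e1 : -a * b - (-c * x + b * y) * c = x := by linear_combination -b * hxy + x * hbc
  have e2 : -a * c + (-c * x + b * y) * b = y := by linear_combination -c * hxy + y * hbc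
  rw [e1, e2] at key
  exact key

/-- STEP B: a direction which is transversal to all the lines -/
theorem exists_dir (D : ℕ) (b c : ℕ → ℝ) (hbc : ∀ i ≤ D, b i ^ 2 + c i ^ 2 = 1) :
    ∃ m : ℕ, m ≤ D + 1 ∧ ∀ i ≤ D, 1 / (4 * ((D : ℝ) + 2)) ≤ |b i + m * c i| := by
  by_contra hcon
  push Not at hcon
  have hex : ∀ m : ℕ, ∃ i, m ≤ D + 1 → i ≤ D ∧ |b i + m * c i| < 1 / (4 * ((D : ℝ) + 2)) := by
    intro m
    by_cases hm : m ≤ D + 1
    · obtain ⟨i, h1, h2⟩ := hcon m hm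
      exact ⟨i, fun _ => ⟨h1, h2⟩⟩
    · exact ⟨0, fun h => absurd h hm⟩
  choose f hf using hex
  obtain ⟨m, hm, m', hm', hne, heq⟩ := Finset.exists_ne_map_eq_of_card_lt_of_maps_to (s := range (D + 2))
    (t := range (D + 1)) (f := f) (by rw [card_range, card_range]; omega) (fun m hm => by
      have h1 := hf m (by have := Finset.mem_range.1 hm; omega)
      exact Finset.mem_coe.2 (Finset.mem_range.2 (by omega)))
  have h1 := hf m (by have := Finset.mem_range.1 hm; omega)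
  have h2 := hf m' (by have := Finset.mem_range.1 hm'; omega)
  rw [← heq] at h2
  set i := f m with hi
  have hD : (0 : ℝ) ≤ D := Nat.cast_nonneg D
  set κ : ℝ := 1 / (4 * ((D : ℝ) + 2)) with hκ
  have hκ1 : 4 * ((D : ℝ) + 2) * κ = 1 := by rw [hκ]; field_simp
  have hκ0 : 0 < κ := by rw [hκ]; positivity
  have hmm : (1 : ℝ) ≤ |(m : ℝ) - m'| := by
    have h3 : ((m : ℤ) - (m' : ℤ)) ≠ 0 := by omega
    have h4 : (1 : ℤ) ≤ |(m : ℤ) - (m' : ℤ)| := Int.one_le_abs h3
    have h5 : ((1 : ℤ) : ℝ) ≤ ((|(m : ℤ) - (m' : ℤ)| : ℤ) : ℝ) := by exact_mod_cast h4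
    rw [Int.cast_abs] at h5
    push_cast at h5
    exact h5
  have hc : |c i| < 2 * κ := by
    have h3 := abs_sub (b i + m * c i) (b i + m' * c i)
    have h4 : b i + m * c i - (b i + m' * c i) = ((m : ℝ) - m') * c i := by ring
    rw [h4, abs_mul] at h3
    have h5 : |c i| ≤ |(m : ℝ) - m'| * |c i| := by nlinarith [abs_nonneg (c i)]
    linarith [h1.2, h2.2]
  have hm1 : (m : ℝ) ≤ D + 1 := by
    have : m ≤ D + 1 := by have := Finset.mem_range.1 hm; omega
    exact_mod_cast this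
  have hb : |b i| < 1 / 2 := by
    have h3 := abs_sub (b i + m * c i) (m * c i)
    have h4 : b i + m * c i - m * c i = b i := by ring
    rw [h4, abs_mul, abs_of_nonneg (Nat.cast_nonneg m : (0 : ℝ) ≤ m)] at h3
    have h5 : (m : ℝ) * |c i| ≤ (D + 1) * (2 * κ) := mul_le_mul hm1 hc.le (abs_nonneg _) (by linarith)
    nlinarith [h1.2]
  have hc' : |c i| < 1 / 2 := by nlinarith
  have h6 := hbc i (hf m (by have := Finset.mem_range.1 hm; omega)).1
  rw [← sq_abs (b i), ← sq_abs (c i)] at h6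
  nlinarith [abs_nonneg (b i), abs_nonneg (c i)]

/-- STEP C: the intersections of two lines with a parallel family are apart except near one member -/
theorem pair_sep {D : ℕ} {κ θ θ₁ A m a b c a' b' c' : ℝ} (hbc : b ^ 2 + c ^ 2 = 1) (ha : |a| ≤ A) (hA : 1 ≤ A)
    (hm0 : 0 ≤ m) (hm : m ≤ D + 1) (hκ0 : 0 < κ) (hκ1 : κ ≤ 1) (hd : κ ≤ |b + m * c|) (hθ₁ : 0 < θ₁)
    (h1 : θ₁ * (A * (D + 5)) ≤ κ * θ)
    (ht : θ ≤ |b * c' - c * b'| ∨ θ ≤ |a * b' - a' * b| ∨ θ ≤ |a * c' - a' * c|) :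
    θ₁ ≤ |b * c' - c * b'| ∨ ∀ σ : ℝ, |σ| ≤ 1 → θ₁ ≤ |(a' + c' * σ) * (b + m * c) - (a + c * σ) * (b' + m * c')| := by
  have hb : |b| ≤ 1 := (sq_le_one_iff_abs_le_one b).mp (by nlinarith [sq_nonneg c])
  have hc : |c| ≤ 1 := (sq_le_one_iff_abs_le_one c).mp (by nlinarith [sq_nonneg b])
  have hD : (0 : ℝ) ≤ D := Nat.cast_nonneg D
  have hAD : 1 ≤ A * (D + 5) := by nlinarith
  have hθθ : θ₁ ≤ κ * θ := by nlinarith
  have hθ : 0 < θ := by
    by_contra hcon
    have : κ * θ ≤ 0 := by nlinarith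
    linarith
  have hθθ' : θ₁ ≤ θ := by nlinarith
  by_cases hX : θ₁ ≤ |b * c' - c * b'|
  · exact Or.inl hX
  right
  intro σ hσ
  rw [not_le] at hX
  set X := b * c' - c * b' with hXd
  set Y := b * (a * b' - a' * b) + c * (a * c' - a' * c) with hY
  have hY1 : θ - A * θ₁ ≤ |Y| := by
    have haX : |a * X| ≤ A * θ₁ := by
      rw [abs_mul]
      exact mul_le_mul ha hX.le (abs_nonneg _) (by linarith)
    rcases ht with h | h | h
    · exact absurd h (not_le.mpr (lt_of_lt_of_le hX hθθ'))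
    · have e1 : a * b' - a' * b = b * Y - c * (a * X) := by
        rw [hY, hXd]
        linear_combination -(a * b' - a' * b) * hbc
      have e2 := abs_sub (b * Y) (c * (a * X))
      rw [← e1, abs_mul b, abs_mul c] at e2
      have e3 : |b| * |Y| ≤ |Y| := by nlinarith only [hb, abs_nonneg Y]
      have e4 : |c| * |a * X| ≤ |a * X| := by nlinarith only [hc, abs_nonneg (a * X)]
      linarith
    · have e1 : a * c' - a' * c = c * Y + b * (a * X) := by
        rw [hY, hXd]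
        linear_combination -(a * c' - a' * c) * hbc
      have e2 := abs_add_le (c * Y) (b * (a * X))
      rw [← e1, abs_mul c, abs_mul b] at e2
      have e3 : |c| * |Y| ≤ |Y| := by nlinarith only [hc, abs_nonneg Y]
      have e4 : |b| * |a * X| ≤ |a * X| := by nlinarith only [hb, abs_nonneg (a * X)]
      linarith
  have e1 : (a' + c' * σ) * (b + m * c) - (a + c * σ) * (b' + m * c') =
      -(Y * (b + m * c)) + (-(a * X * (-c + m * b)) + σ * X) := by
    rw [hY, hXd]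
    linear_combination (-(a' * (b + m * c)) + a * (b' + m * c')) * hbc
  have e2 : |Y * (b + m * c)| - |(-(a * X * (-c + m * b)) + σ * X)| ≤
      |(a' + c' * σ) * (b + m * c) - (a + c * σ) * (b' + m * c')| := by
    rw [e1]
    have := abs_sub_abs_le_abs_sub (Y * (b + m * c)) (-(a * X * (-c + m * b)) + σ * X)
    have e3 : -(Y * (b + m * c)) + (-(a * X * (-c + m * b)) + σ * X) =
      -(Y * (b + m * c) - (-(a * X * (-c + m * b)) + σ * X)) := by ring
    rw [e3, abs_neg]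
    exact this
  have e3 : |Y * (b + m * c)| ≥ (θ - A * θ₁) * κ := by
    rw [abs_mul]
    by_cases hs : 0 ≤ θ - A * θ₁
    · exact mul_le_mul hY1 hd hκ0.le (abs_nonneg _)
    · have : (θ - A * θ₁) * κ ≤ 0 := by nlinarith only [hθ₁, hθθ, hθ, hs]
      have := mul_nonneg (abs_nonneg Y) (abs_nonneg (b + m * c))
      linarith
  have e4 : |(-(a * X * (-c + m * b)) + σ * X)| ≤ A * θ₁ * (D + 2) + θ₁ := by
    have f1 := abs_add_le (-(a * X * (-c + m * b))) (σ * X)
    rw [abs_neg, abs_mul, abs_mul, abs_mul] at f1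
    have f2 : |(-c + m * b)| ≤ D + 2 := by
      have := abs_add_le (-c) (m * b)
      rw [abs_neg, abs_mul, abs_of_nonneg hm0] at this
      nlinarith only [hm, hb, hc, this, abs_nonneg b]
    have f3 : |a| * |X| ≤ A * θ₁ := mul_le_mul ha hX.le (abs_nonneg _) (by linarith)
    have f4 : |a| * |X| * |(-c + m * b)| ≤ A * θ₁ * (D + 2) :=
      mul_le_mul f3 f2 (abs_nonneg _) (by positivity)
    have f5 : |σ| * |X| ≤ θ₁ := by nlinarith only [hσ, hX, abs_nonneg X, abs_nonneg σ]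
    linarith
  have e5 : A * θ₁ * κ ≤ A * θ₁ := by
    have : 0 ≤ A * θ₁ := by positivity
    nlinarith only [hκ1, this]
  have e6 : 2 * θ₁ ≤ 2 * (A * θ₁) := by nlinarith only [hA, hθ₁]
  nlinarith only [h1, e2, e3, e4, e5, e6]

/-- the number of nodes -/
def nM (D : ℕ) : ℕ := (D + 1) + (D + 1) * (D + 1)

theorem nM_pos (D : ℕ) : 0 < nM D := by unfold nM; omega

/-- STEP C2: nodes which are good for all pairs -/
theorem good_nodes (D : ℕ) (F : ℕ → ℕ → ℝ → ℝ) (θ : ℝ) (hF : ∀ i ≤ D, ∀ j ≤ D, i ≠ j → ∀ k k' : ℕ, k < nM D →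
      k' < nM D → k ≠ k' → θ ≤ |F i j (k / nM D)| ∨ θ ≤ |F i j (k' / nM D)|) :
    ∃ c : ℕ → ℝ, (∀ l ≤ D, 0 ≤ c l ∧ c l ≤ 1) ∧ (∀ l ≤ D, ∀ l' ≤ D, l ≠ l' → 1 / (nM D : ℝ) ≤ |c l - c l'|) ∧
      ∀ l ≤ D, ∀ i ≤ D, ∀ j ≤ D, i ≠ j → θ ≤ |F i j (c l)| := by
  classical
  set bad : ℕ × ℕ → Finset ℕ := fun z => (range (nM D)).filter fun k => z.1 ≠ z.2 ∧ |F z.1 z.2 (k / nM D)| < θ with hbad
  have hb1 : ∀ z ∈ range (D + 1) ×ˢ range (D + 1), (bad z).card ≤ 1 := by
    intro z hz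
    rw [Finset.card_le_one]
    intro k hk k' hk'
    rw [hbad] at hk hk'
    simp only [Finset.mem_filter, Finset.mem_range] at hk hk'
    rw [Finset.mem_product, Finset.mem_range, Finset.mem_range] at hz
    by_contra hne
    rcases hF z.1 (by omega) z.2 (by omega) hk.2.1 k k' hk.1 hk'.1 hne with h | h
    · exact absurd hk.2.2 (not_lt.mpr h)
    · exact absurd hk'.2.2 (not_lt.mpr h)
  set U := (range (D + 1) ×ˢ range (D + 1)).biUnion bad with hU
  have hUc : U.card ≤ (D + 1) * (D + 1) := by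
    refine Finset.card_biUnion_le.trans ?_
    refine (Finset.sum_le_card_nsmul _ _ 1 hb1).trans ?_
    rw [Finset.card_product, card_range]
    simp
  set G := range (nM D) \ U with hG
  have hGc : D + 1 ≤ G.card := by
    have h1 : (range (nM D)).card - U.card ≤ G.card := Finset.le_card_sdiff U (range (nM D))
    rw [card_range] at h1
    have h2 : nM D = (D + 1) + (D + 1) * (D + 1) := rfl
    rw [h2] at h1
    generalize (D + 1) * (D + 1) = w at h1 hUc
    omega
  set J : Finset ℤ := G.image (fun k : ℕ => (k : ℤ)) with hJ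
  have hJc : D * 1 + 1 ≤ J.card := by
    rw [hJ, Finset.card_image_of_injective _ Nat.cast_injective]
    omega
  obtain ⟨c, hc1, hc2⟩ := exists_sep J D 1 hJc
  have hM : (0 : ℝ) < nM D := by exact_mod_cast nM_pos D
  have hmem : ∀ l ≤ D, ∃ k : ℕ, k ∈ G ∧ (k : ℤ) = c l := by
    intro l hl
    have := hc1 l hl
    rw [hJ, Finset.mem_image] at this
    exact this
  refine ⟨fun l => (c l : ℝ) / nM D, fun l hl => ?_, fun l hl l' hl' hne => ?_, fun l hl i hi j hj hij => ?_⟩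
  · obtain ⟨k, hk, hkc⟩ := hmem l hl
    rw [hG, Finset.mem_sdiff, Finset.mem_range] at hk
    have h1 : (c l : ℝ) = (k : ℝ) := by rw [← hkc]; simp
    have h2 : (k : ℝ) ≤ nM D := by exact_mod_cast hk.1.le
    constructor
    · show 0 ≤ (c l : ℝ) / nM D
      rw [h1]; positivity
    · show (c l : ℝ) / nM D ≤ 1
      rw [h1, div_le_one hM]; exact h2
  · show 1 / (nM D : ℝ) ≤ |(c l : ℝ) / nM D - (c l' : ℝ) / nM D|
    rw [← sub_div, abs_div, abs_of_pos hM]
    apply div_le_div_of_nonneg_right _ hM.le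
    have h1 : (1 : ℤ) ≤ |c l - c l'| := by
      rcases lt_or_gt_of_ne hne with h | h
      · have := hc2 l hl l' hl' h
        rw [abs_sub_comm]
        push_cast at this
        exact this.trans (le_abs_self _)
      · have := hc2 l' hl' l hl h
        push_cast at this
        exact this.trans (le_abs_self _)
    have h5 : ((1 : ℤ) : ℝ) ≤ ((|c l - c l'| : ℤ) : ℝ) := by exact_mod_cast h1
    rw [Int.cast_abs] at h5
    push_cast at h5
    exact h5
  · obtain ⟨k, hk, hkc⟩ := hmem l hl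
    rw [hG, Finset.mem_sdiff] at hk
    by_contra hcon
    apply hk.2
    rw [hU, Finset.mem_biUnion]
    refine ⟨(i, j), ?_, ?_⟩
    · rw [Finset.mem_product, Finset.mem_range, Finset.mem_range]
      constructor <;> simp only <;> omega
    · rw [hbad]
      simp only [Finset.mem_filter]
      refine ⟨hk.1, hij, ?_⟩
      have h1 : (c l : ℝ) = (k : ℝ) := by rw [← hkc]; simp
      rw [← h1]
      exact not_le.mp hcon

theorem div_sub_div_aux (x y d d' : ℝ) (h : d ≠ 0) (h' : d' ≠ 0) : -x / d - -y / d' = (y * d - x * d') / (d * d') := by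
  field_simp
  ring

theorem line_pt (a b c m σ : ℝ) (h : b + m * c ≠ 0) : a + b * (-(a + c * σ) / (b + m * c)) +
    c * (σ + m * (-(a + c * σ) / (b + m * c))) = 0 := by
  have h1 : (b + m * c) * (-(a + c * σ) / (b + m * c)) = -(a + c * σ) := mul_div_cancel₀ _ h
  linear_combination h1

/-- the constant of `poly_small` -/
def CP (D : ℕ) : ℝ := ((D : ℝ) + 1) ^ 3 *
  (3 * ((D : ℝ) + 2) * nM D * (432 * nM D * ((D : ℝ) + 2) ^ 4 * (D + 5)) * (68 * ((D : ℝ) + 2) ^ 2)) ^ D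

theorem CP_pos (D : ℕ) : 0 < CP D := by
  have : (0 : ℝ) < nM D := by exact_mod_cast nM_pos D
  unfold CP
  positivity

/-- LEMMA POLY -/
theorem poly_small {D : ℕ} {q : MvPolynomial (Fin N) ℝ} (hq : q.totalDegree ≤ D) (p e v : Fin N → ℝ)
    (R S ρ θ A : ℝ) (hR : 1 ≤ R) (h0 : 0 < ρ) (h1 : ρ ≤ 1) (hθ : 0 < θ) (hρθ : 4 * ρ ≤ θ)
    (h : ∀ x y, |x| ≤ R + 1 → |y| ≤ R + 1 → |pv q p e v x y| ≤ S) (a b c : ℕ → ℝ)
    (hbc : ∀ i ≤ D, b i ^ 2 + c i ^ 2 = 1) (X Y : ℕ → ℕ → ℝ) (hX : ∀ i ≤ D, ∀ k ≤ D, |X i k| ≤ R)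
    (hY : ∀ i ≤ D, ∀ k ≤ D, |Y i k| ≤ R) (hn : ∀ i ≤ D, ∀ k ≤ D, |a i + b i * X i k + c i * Y i k| ≤ ρ)
    (hs : ∀ i ≤ D, ∀ k ≤ D, ∀ l ≤ D, k ≠ l → θ ≤ |X i k - X i l| ∨ θ ≤ |Y i k - Y i l|)
    (ht : ∀ i ≤ D, ∀ j ≤ D, i ≠ j → θ ≤ |b i * c j - c i * b j| ∨ θ ≤ |a i * b j - a j * b i| ∨
      θ ≤ |a i * c j - a j * c i|)
    (hA : ∀ i ≤ D, ∀ k ≤ D, |pv q p e v (X i k) (Y i k)| ≤ A) (x y : ℝ) (hx : |x| ≤ 2 * R) (hy : |y| ≤ 2 * R) :
    |pv q p e v x y| ≤ CP D * (R ^ 2 / θ) ^ (2 * D) * (A + Cu D * S * ρ) := by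
  have hD : (0 : ℝ) ≤ D := Nat.cast_nonneg D
  have hM : (0 : ℝ) < nM D := by exact_mod_cast nM_pos D
  obtain ⟨m, hm, hmd⟩ := exists_dir D b c hbc
  set K0 : ℝ := (D : ℝ) + 2 with hK0
  have hK2 : 2 ≤ K0 := by linarith
  have hm1 : (m : ℝ) ≤ D + 1 := by exact_mod_cast hm
  set κ : ℝ := 1 / (4 * K0) with hκ
  have hκ0 : 0 < κ := by rw [hκ]; positivity
  have hκK : 4 * K0 * κ = 1 := by rw [hκ]; field_simp
  have hκ1 : κ ≤ 1 := by nlinarith
  have hA0 : 0 ≤ A := (abs_nonneg _).trans (hA 0 (Nat.zero_le _) 0 (Nat.zero_le _))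
  have hS0 : 0 ≤ S := (abs_nonneg _).trans (h 0 0 (by rw [abs_zero]; linarith) (by rw [abs_zero]; linarith))
  have hCu := Cu_one D
  set A' : ℝ := A + Cu D * S * ρ with hA'
  have hA'0 : 0 ≤ A' := by rw [hA']; positivity
  have hb : ∀ i ≤ D, |b i| ≤ 1 := fun i hi =>
    (sq_le_one_iff_abs_le_one (b i)).mp (by nlinarith [sq_nonneg (c i), hbc i hi])
  have hc : ∀ i ≤ D, |c i| ≤ 1 := fun i hi =>
    (sq_le_one_iff_abs_le_one (c i)).mp (by nlinarith only [sq_nonneg (b i), hbc i hi])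
  have ha : ∀ i ≤ D, |a i| ≤ 3 * R := by
    intro i hi
    have f1 := hn i hi 0 (Nat.zero_le _)
    have f2 := abs_sub (a i + b i * X i 0 + c i * Y i 0) (b i * X i 0 + c i * Y i 0)
    have f3 : a i + b i * X i 0 + c i * Y i 0 - (b i * X i 0 + c i * Y i 0) = a i := by ring
    rw [f3] at f2
    have f4 := abs_add_le (b i * X i 0) (c i * Y i 0)
    rw [abs_mul, abs_mul] at f4
    have f5 := mul_le_mul (hb i hi) (hX i hi 0 (Nat.zero_le _)) (abs_nonneg _) zero_le_one
    have f6 := mul_le_mul (hc i hi) (hY i hi 0 (Nat.zero_le _)) (abs_nonneg _) zero_le_one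
    linarith
  set θ₁ : ℝ := κ * θ / (3 * R * (D + 5)) with hθ₁
  have hθ₁0 : 0 < θ₁ := by rw [hθ₁]; positivity
  have hθ₁1 : θ₁ * (3 * R * (D + 5)) = κ * θ := by rw [hθ₁]; field_simp
  set F : ℕ → ℕ → ℝ → ℝ := fun i j σ => (a j + c j * σ) * (b i + m * c i) - (a i + c i * σ) * (b j + m * c j) with hF
  set θ₂ : ℝ := θ₁ / (2 * nM D) with hθ₂
  have hθ₂0 : 0 < θ₂ := by rw [hθ₂]; positivity
  have hM1 : (1 : ℝ) ≤ nM D := by exact_mod_cast nM_pos D
  have hθ₂1 : 2 * nM D * θ₂ = θ₁ := by rw [hθ₂]; field_simp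
  have hθ₂2 : θ₂ ≤ θ₁ := by nlinarith only [hθ₂0, hM1, hθ₂1]
  obtain ⟨σ, hσ1, hσ2, hσ3⟩ := good_nodes D F θ₂ (fun i hi j hj hij k k' hk hk' hkk => by
    have hk1 : |(k : ℝ) / nM D| ≤ 1 := by
      rw [abs_of_nonneg (by positivity), div_le_one hM]
      exact_mod_cast hk.le
    rcases pair_sep (D := D) (m := m) (hbc i hi) (ha i hi) (by linarith) (Nat.cast_nonneg m) hm1 hκ0 hκ1 (hmd i hi)
      hθ₁0 hθ₁1.le (ht i hi j hj hij) with h2 | h2
    · by_contra hcon
      push Not at hcon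
      have f1 := abs_sub (F i j (k / nM D)) (F i j (k' / nM D))
      have f2 : F i j (k / nM D) - F i j (k' / nM D) = (b i * c j - c i * b j) * (((k : ℝ) - k') / nM D) := by
        rw [hF]
        ring
      rw [f2, abs_mul, abs_div, abs_of_pos hM] at f1
      have f3 : (1 : ℝ) ≤ |(k : ℝ) - k'| := by
        have h3 : ((k : ℤ) - (k' : ℤ)) ≠ 0 := by omega
        have h4 : (1 : ℤ) ≤ |(k : ℤ) - (k' : ℤ)| := Int.one_le_abs h3
        have h5 : ((1 : ℤ) : ℝ) ≤ ((|(k : ℤ) - (k' : ℤ)| : ℤ) : ℝ) := by exact_mod_cast h4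
        rw [Int.cast_abs] at h5
        push_cast at h5
        exact h5
      have f4 : θ₁ * (1 / nM D) ≤ |b i * c j - c i * b j| * (|(k : ℝ) - k'| / nM D) :=
        mul_le_mul h2 (div_le_div_of_nonneg_right f3 hM.le) (by positivity) (abs_nonneg _)
      have f5 : θ₁ * (1 / nM D) = 2 * θ₂ := by
        rw [← hθ₂1]
        field_simp
      linarith [hcon.1, hcon.2]
    · left
      exact hθ₂2.trans (h2 _ hk1))
  have hd1 : ∀ i ≤ D, |b i + m * c i| ≤ K0 := by
    intro i hi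
    have f1 := abs_add_le (b i) (m * c i)
    rw [abs_mul, abs_of_nonneg (Nat.cast_nonneg m : (0 : ℝ) ≤ m)] at f1
    have f2 : (m : ℝ) * |c i| ≤ (D + 1) * 1 := mul_le_mul hm1 (hc i hi) (abs_nonneg _) (by linarith)
    linarith [hb i hi]
  -- step D
  set L : ℝ := 16 * K0 ^ 2 * R with hL
  have hL0 : 0 ≤ L := by rw [hL]; positivity
  set M1 : ℝ := (D + 1) * ((2 * L + 2 * R) / (θ / 2)) ^ D * A' with hM1d
  have hM10 : 0 ≤ M1 := by rw [hM1d]; positivity
  set g : ℝ := θ₂ / K0 ^ 2 with hg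
  have hg0 : 0 < g := by rw [hg]; positivity
  set M2 : ℝ := (D + 1) * ((18 * K0 * R) / g) ^ D * M1 with hM2d
  have hM20 : 0 ≤ M2 := by rw [hM2d]; positivity
  have stepD : ∀ l ≤ D, ∀ x : ℝ, |x| ≤ 2 * R → |pv q p e v x (σ l + m * x)| ≤ M2 := by
    intro l hl x hx
    set τ : ℕ → ℝ := fun i => -(a i + c i * σ l) / (b i + m * c i) with hτ
    have hne : ∀ i ≤ D, b i + m * c i ≠ 0 := fun i hi h0 => by
      have := hmd i hi
      rw [h0, abs_zero] at this
      linarith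
    have hσl := hσ1 l hl
    have hτ1 : ∀ i ≤ D, |τ i| ≤ 16 * K0 * R := by
      intro i hi
      rw [hτ]
      simp only
      rw [abs_div, abs_neg, div_le_iff₀ (abs_pos.mpr (hne i hi))]
      have f1 := abs_add_le (a i) (c i * σ l)
      rw [abs_mul, abs_of_nonneg hσl.1] at f1
      have f2 : |c i| * σ l ≤ 1 * 1 := mul_le_mul (hc i hi) hσl.2 hσl.1 zero_le_one
      have f3 : 16 * K0 * R * κ ≤ 16 * K0 * R * |b i + m * c i| :=
        mul_le_mul_of_nonneg_left (hmd i hi) (by positivity)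
      have f4 : 16 * K0 * R * κ = 4 * R := by
        calc 16 * K0 * R * κ = 4 * R * (4 * K0 * κ) := by ring
          _ = 4 * R := by rw [hκK, mul_one]
      linarith [ha i hi]
    have hev : ∀ t : ℝ, (pl2 q p e v 0 (σ l) 1 m).eval t = pv q p e v t (σ l + m * t) := by
      intro t
      rw [pl2_eval]
      congr 1 <;> ring
    have key := lag_bound D (pl2 q p e v 0 (σ l) 1 m) (pl2_deg hq _ _ _ _ _ _ _) τ g (18 * K0 * R) M1 x hg0
      (fun i hi j hj hij => by
        have f1 : τ i - τ j = F i j (σ l) / ((b i + m * c i) * (b j + m * c j)) :=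
          div_sub_div_aux _ _ _ _ (hne i hi) (hne j hj)
        rw [f1, abs_div, abs_mul, hg]
        apply div_le_div₀ (abs_nonneg _) (hσ3 l hl i hi j hj hij)
          (mul_pos (abs_pos.mpr (hne i hi)) (abs_pos.mpr (hne j hj)))
        rw [pow_two]
        exact mul_le_mul (hd1 i hi) (hd1 j hj) (abs_nonneg _) (by linarith))
      (fun i hi => by
        have f1 := abs_sub x (τ i)
        have f2 := hτ1 i hi
        nlinarith only [hR, hM2d, hx, f1, f2])
      (fun i hi => by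
        rw [hev]
        apply line_small hq p e v R S ρ θ A (a i) (b i) (c i) h0 h1 hθ hρθ h (hbc i hi) (X i) (Y i) (hX i hi)
          (hY i hi) (hn i hi) (hs i hi) (hA i hi) L
        · refine (hτ1 i hi).trans ?_
          rw [hL]
          nlinarith only [hL0, hM1d]
        · have f1 := abs_add_le (σ l) (m * τ i)
          rw [abs_mul, abs_of_nonneg hσl.1, abs_of_nonneg (Nat.cast_nonneg m : (0 : ℝ) ≤ m)] at f1
          have f2 : (m : ℝ) * |τ i| ≤ (D + 1) * (16 * K0 * R) := mul_le_mul hm1 (hτ1 i hi) (abs_nonneg _) (by linarith)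
          have f3 : (D + 1) * (16 * K0 * R) = L - 16 * K0 * R := by
            rw [hL, hK0]
            ring
          nlinarith only [hR, f1, f2, hσl.2]
        · exact line_pt _ _ _ _ _ (hne i hi))
    rw [hev] at key
    exact key
  -- step E
  set M3 : ℝ := (D + 1) * ((3 * R * K0) / (1 / nM D)) ^ D * M2 with hM3d
  have stepE : |pv q p e v x y| ≤ M3 := by
    have hev : ∀ s : ℝ, (pl2 q p e v x (m * x) 0 1).eval s = pv q p e v x (s + m * x) := by
      intro s
      rw [pl2_eval]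
      congr 1 <;> ring
    have key := lag_bound D (pl2 q p e v x (m * x) 0 1) (pl2_deg hq _ _ _ _ _ _ _) σ (1 / nM D) (3 * R * K0) M2
      (y - m * x) (by positivity) hσ2 (fun i hi => by
        have f1 := abs_sub y (m * x)
        rw [abs_mul, abs_of_nonneg (Nat.cast_nonneg m : (0 : ℝ) ≤ m)] at f1
        have f2 : (m : ℝ) * |x| ≤ (D + 1) * (2 * R) := mul_le_mul hm1 hx (abs_nonneg _) (by linarith)
        have f3 := abs_sub (y - m * x) (σ i)
        have f4 : |σ i| ≤ 1 := by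
          rw [abs_of_nonneg (hσ1 i hi).1]
          exact (hσ1 i hi).2
        nlinarith only [hR, hy, f1, f2, f3, f4]) (fun i hi => by
        rw [hev]
        exact stepD i hi x hx)
    rw [hev] at key
    have e1 : y - m * x + m * x = y := by ring
    rw [e1] at key
    exact key
  refine stepE.trans ?_
  -- constants
  have r1 : (2 * L + 2 * R) / (θ / 2) ≤ 68 * K0 ^ 2 * R / θ := by
    rw [hL, div_div_eq_mul_div]
    apply div_le_div_of_nonneg_right _ hθ.le
    have r0 : 1 ≤ K0 ^ 2 := by nlinarith only [hM3d]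
    have r0' : R ≤ K0 ^ 2 * R := by nlinarith only [hL0, r0]
    linarith
  have r2 : (18 * K0 * R) / g = 432 * nM D * K0 ^ 4 * (D + 5) * (R ^ 2 / θ) := by
    rw [hg, hθ₂, hθ₁, hκ]
    field_simp
    ring
  have r3 : (3 * R * K0) / (1 / (nM D : ℝ)) = 3 * K0 * nM D * R := by
    field_simp
  have r4 : M1 ≤ (D + 1) * (68 * K0 ^ 2 * R / θ) ^ D * A' := by
    rw [hM1d]
    apply mul_le_mul_of_nonneg_right _ hA'0
    apply mul_le_mul_of_nonneg_left _ (by positivity)
    exact pow_le_pow_left₀ (by positivity) r1 D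
  have r5 : M3 ≤ (D + 1) * (3 * K0 * nM D * R) ^ D * ((D + 1) * (432 * nM D * K0 ^ 4 * (D + 5) * (R ^ 2 / θ)) ^ D *
      ((D + 1) * (68 * K0 ^ 2 * R / θ) ^ D * A')) := by
    rw [hM3d, hM2d, r3, r2]
    apply mul_le_mul_of_nonneg_left _ (by positivity)
    exact mul_le_mul_of_nonneg_left r4 (by positivity)
  refine r5.trans (le_of_eq ?_)
  unfold CP
  have r7 : (R ^ 2 / θ) ^ (2 * D) = (R ^ 2 / θ) ^ D * (R * (R / θ)) ^ D := by
    rw [two_mul, pow_add]
    congr 1
    congr 1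
    ring
  rw [r7]
  have r8 : 68 * K0 ^ 2 * R / θ = 68 * K0 ^ 2 * (R / θ) := by ring
  rw [r8]
  simp only [mul_pow]
  ring

end

end Pool.Agent.Helper55.LP2
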