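import Pool.Agent.Helper55.LP2.Pol2

/-! LEMMA POLY, closed form. -/

set_option autoImplicit false

namespace Pool.Agent.Helper55.LP2

open Finset MvPolynomial Pool.Agent.Helper3.LF

noncomputable section

variable {N : ℕ}

theorem pv_cont (q : MvPolynomial (Fin N) ℝ) (p e v : Fin N → ℝ) :
    Continuous (fun z : ℝ × ℝ => pv q p e v z.1 z.2) := by
  unfold pv
  refine (MvPolynomial.continuous_eval q).comp ?_
  apply continuous_pi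
  intro k
  fun_prop

/-- the factor of LEMMA POLY -/
def fP (D : ℕ) (R θ : ℝ) : ℝ := CP D * (R ^ 2 / θ) ^ (2 * D)

theorem fP_pos (D : ℕ) {R θ : ℝ} (hR : 0 < R) (hθ : 0 < θ) : 0 < fP D R θ := by
  have := CP_pos D
  unfold fP
  positivity

/-- the configuration of `(D + 1) ^ 2` points on `D + 1` lines -/
structure Cfg (D : ℕ) (R ρ θ : ℝ) (a b c : ℕ → ℝ) (X Y : ℕ → ℕ → ℝ) : Prop where
  hR : 1 ≤ R
  h0 : 0 < ρ
  h1 : ρ ≤ 1
  hθ : 0 < θ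
  hρθ : 4 * ρ ≤ θ
  hbc : ∀ i ≤ D, b i ^ 2 + c i ^ 2 = 1
  hX : ∀ i ≤ D, ∀ k ≤ D, |X i k| ≤ R
  hY : ∀ i ≤ D, ∀ k ≤ D, |Y i k| ≤ R
  hn : ∀ i ≤ D, ∀ k ≤ D, |a i + b i * X i k + c i * Y i k| ≤ ρ
  hs : ∀ i ≤ D, ∀ k ≤ D, ∀ l ≤ D, k ≠ l → θ ≤ |X i k - X i l| ∨ θ ≤ |Y i k - Y i l|
  ht : ∀ i ≤ D, ∀ j ≤ D, i ≠ j → θ ≤ |b i * c j - c i * b j| ∨ θ ≤ |a i * b j - a j * b i| ∨
      θ ≤ |a i * c j - a j * c i|
  hc : fP D R θ * (Cu D * ρ) ≤ 1 / 2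

/-- LEMMA POLY, closed form -/
theorem poly_closed {D : ℕ} {R ρ θ : ℝ} {a b c : ℕ → ℝ} {X Y : ℕ → ℕ → ℝ} (H : Cfg D R ρ θ a b c X Y)
    {q : MvPolynomial (Fin N) ℝ} (hq : q.totalDegree ≤ D) (p e v : Fin N → ℝ) (A : ℝ)
    (hA : ∀ i ≤ D, ∀ k ≤ D, |pv q p e v (X i k) (Y i k)| ≤ A) (x y : ℝ) (hx : |x| ≤ 2 * R) (hy : |y| ≤ 2 * R) :
    |pv q p e v x y| ≤ 2 * fP D R θ * A := by
  have hR := H.hR
  have hne : (Set.Icc (-(R + 1)) (R + 1) ×ˢ Set.Icc (-(R + 1)) (R + 1)).Nonempty :=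
    ⟨(0, 0), ⟨⟨by simp only; linarith, by simp only; linarith⟩, ⟨by simp only; linarith, by simp only; linarith⟩⟩⟩
  obtain ⟨z, hz, hmax⟩ := (isCompact_Icc.prod isCompact_Icc).exists_isMaxOn hne
    ((pv_cont q p e v).abs.continuousOn (s := Set.Icc (-(R + 1)) (R + 1) ×ˢ Set.Icc (-(R + 1)) (R + 1)))
  set S : ℝ := |pv q p e v z.1 z.2| with hS
  have hb : ∀ x y, |x| ≤ R + 1 → |y| ≤ R + 1 → |pv q p e v x y| ≤ S := by
    intro x y hx hy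
    rw [abs_le] at hx hy
    exact hmax (a := (x, y)) ⟨⟨hx.1, hx.2⟩, ⟨hy.1, hy.2⟩⟩
  have hmain := fun x y hx hy => poly_small hq p e v R S ρ θ A hR H.h0 H.h1 H.hθ H.hρθ hb a b c H.hbc X Y H.hX H.hY
    H.hn H.hs H.ht hA x y hx hy
  have hf : CP D * (R ^ 2 / θ) ^ (2 * D) = fP D R θ := rfl
  rw [hf] at hmain
  have hf0 := fP_pos D (lt_of_lt_of_le one_pos hR) H.hθ
  have hS0 : 0 ≤ S := abs_nonneg _
  have h1 : fP D R θ * (Cu D * S * ρ) ≤ S / 2 := by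
    have e1 : fP D R θ * (Cu D * S * ρ) = (fP D R θ * (Cu D * ρ)) * S := by ring
    rw [e1]
    have := mul_le_mul_of_nonneg_right H.hc hS0
    linarith
  have hzz : S ≤ fP D R θ * (A + Cu D * S * ρ) := by
    apply hmain
    · rw [abs_le]
      constructor
      · have := hz.1.1; linarith
      · have := hz.1.2; linarith
    · rw [abs_le]
      constructor
      · have := hz.2.1; linarith
      · have := hz.2.2; linarith
  have h2 : S ≤ 2 * (fP D R θ * A) := by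
    rw [mul_add] at hzz
    linarith
  refine (hmain x y hx hy).trans ?_
  rw [mul_add]
  linarith

end

end Pool.Agent.Helper55.LP2
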