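import Pool.Agent.Helper55.LP2.S34d
import Pool.Agent.Helper55.LP2.Cmp
import Pool.Agent.Helper55.LP2.Plam
import Pool.Agent.Helper51.LIP.Dir
import Pool.Agent.Helper48.NS.Dlf

/-! SEC34 of LIP(A): the typical events of the configuration; the configuration at one index. -/

set_option autoImplicit false

namespace Pool.Agent.Helper55.LP2

open Finset Filter Topology MvPolynomial Matrix Pool.Agent.Helper69.RK Pool.Agent.Helper31.EC
open Pool.Agent.Helper31.EC.Sp Pool.Agent.Helper40.EL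
open Pool.Agent.Helper3.LF Pool.Agent.Helper48.NS Pool.Agent.Helper48.LIP Pool.Agent.Helper89.LX
open Pool.Agent.Helper3.SG Pool.Agent.Helper51.LD2
open Pool.Agent.Helper95.LF (PdM)
open Pool.Agent.Helper39.LIP

noncomputable section

/-! ### probabilities -/

theorem tend_or {F : ℕ → FSp} {E E' : ∀ k, (F k).Ω → Prop} (h : Tendsto (fun k => (F k).pb (fun ω => ¬ E k ω)) UF (𝓝 0))
    (h' : Tendsto (fun k => (F k).pb (fun ω => ¬ E' k ω)) UF (𝓝 0)) :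
    Tendsto (fun k => (F k).pb (fun ω => ¬ (E k ω ∧ E' k ω))) UF (𝓝 0) := by
  have h1 := h.add h'
  rw [add_zero] at h1
  refine tendsto_of_tendsto_of_tendsto_of_le_of_le' tendsto_const_nhds h1
    (Eventually.of_forall fun k => FSp.pb_nonneg _ _) (Eventually.of_forall fun k => ?_)
  refine le_trans (FSp.pb_mono _ ?_) (pb_or _ _ _)
  intro ω _ h2
  exact not_and_or.mp h2

theorem tend_pull {F T : ℕ → FSp} (p : ∀ k, FPj (T k) (F k)) {E : ∀ k, (F k).Ω → Prop}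
    (h : Tendsto (fun k => (F k).pb (fun ω => ¬ E k ω)) UF (𝓝 0)) :
    Tendsto (fun k => (T k).pb (fun ω => ¬ E k ((p k).π ω))) UF (𝓝 0) :=
  h.congr fun k => (pb_push (p k) (fun ω => ¬ E k ω)).symm

theorem tend_mono {F : ℕ → FSp} {E E' : ∀ k, (F k).Ω → Prop} (h : Tendsto (fun k => (F k).pb (fun ω => ¬ E k ω)) UF (𝓝 0))
    (hh : ∀ᶠ k in UF, ∀ ω, (F k).μ ω ≠ 0 → E k ω → E' k ω) :
    Tendsto (fun k => (F k).pb (fun ω => ¬ E' k ω)) UF (𝓝 0) := by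
  refine tendsto_of_tendsto_of_tendsto_of_le_of_le' tendsto_const_nhds h
    (Eventually.of_forall fun k => FSp.pb_nonneg _ _) ?_
  filter_upwards [hh] with k hk
  apply FSp.pb_mono
  intro ω hω h1 h2
  exact h1 (hk ω hω h2)

section typ
variable {S : Sp}

/-- typical size of an admissible form -/
theorem phi_typ {m D : ℕ} (s : Sys S m) {A B : Part S} {x : ∀ k, FD (S.F k) (Mon (m + 1) D)} (hx : (gau s D).Ad A B x)
    (e : ℝ) (he : 0 < e) : Tendsto (fun k => (x k).l.T.pb (fun ω =>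
      ¬ sph s D k ((x k).l.p.π ω) ((x k).g ω) ≤ 2 ^ (e * (S.F k).n))) UF (𝓝 0) :=
  Pool.Agent.Helper93.LIP.tendsto_of_le (F := fun k => (x k).l.T)
    (E := fun e k ω => sph s D k ((x k).l.p.π ω) ((x k).g ω) ≤ 2 ^ (e * (S.F k).n)) (by
      intro a b _ hab k ω h
      exact h.trans (Real.rpow_le_rpow_of_exponent_le (by norm_num)
        (mul_le_mul_of_nonneg_right hab (S.F k).pos.le))) (fun e he => by
      filter_upwards [hx e he] with k hk using hk.2.2.2.1) e he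

/-- typical gradient of an admissible form -/
theorem sga_typ {m D : ℕ} (s : Sys S m) {A B : Part S} {x : ∀ k, FD (S.F k) (Mon (m + 1) D)} (hx : (gau s D).Ad A B x)
    (δ : ℝ) (hδ : 0 < δ) : Tendsto (fun k => (x k).l.T.pb (fun ω =>
      ¬ sga s D k ((x k).l.p.π ω) ((x k).g ω) ≤ 2 ^ (2 * (1 + δ) * (S.F k).n))) UF (𝓝 0) := by
  have hC0 : (0 : ℝ) ≤ ((m + 1 : ℕ) : ℝ) * nn (m + 1) D * Cm (m + 1) D ^ 2 := by
    have := nn_one (m + 1) D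
    positivity
  refine tend_mono (phi_typ s hx δ hδ) ?_
  filter_upwards [hx 1 one_pos, (S.Sub_const hC0).eventually_le hδ] with k h1 h2 ω hω h3
  have hA := (h1.2.2.1 ω hω).1.pdM
  have hd := S.dl_pos 1 k
  have hn := (S.F k).pos
  have h4 := gam_le ((x k).g ω) hA (S.dl 1 k) hd (ptf s k ((x k).l.p.π ω))
  have h5 : sga s D k ((x k).l.p.π ω) ((x k).g ω) = (S.dl 1 k ^ 2 * sga s D k ((x k).l.p.π ω) ((x k).g ω)) *
      2 ^ (2 * (S.F k).n) := by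
    have e1 : S.dl 1 k ^ 2 * 2 ^ (2 * (S.F k).n) = 1 := by
      unfold Sp.dl
      rw [← Real.rpow_natCast, ← Real.rpow_mul (by norm_num), ← Real.rpow_add (by norm_num), ← Real.rpow_zero 2]
      congr 1
      push_cast
      ring
    rw [mul_comm (S.dl 1 k ^ 2), mul_assoc, e1, mul_one]
  have h6 : 0 ≤ sph s D k ((x k).l.p.π ω) ((x k).g ω) := phi_nonneg _ (fun y => hA.nonneg y) _
  rw [h5]
  calc _ ≤ (((m + 1 : ℕ) : ℝ) * nn (m + 1) D * Cm (m + 1) D ^ 2 * sph s D k ((x k).l.p.π ω) ((x k).g ω)) *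
        2 ^ (2 * (S.F k).n) := mul_le_mul_of_nonneg_right h4 (by positivity)
    _ ≤ (2 ^ (δ * (S.F k).n) * 2 ^ (δ * (S.F k).n)) * 2 ^ (2 * (S.F k).n) := by
        apply mul_le_mul_of_nonneg_right _ (by positivity)
        exact mul_le_mul (by linarith) h3 h6 (by positivity)
    _ = _ := by
        rw [← Real.rpow_add (by norm_num), ← Real.rpow_add (by norm_num)]
        congr 1
        ring

variable {D : ℕ} {s : Sys S 3} {s' : Sys S 2} {x : ∀ k, FD (S.F k) (Mon (3 + 1) D)}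
  {x' : ∀ k, FD (S.F k) (Mon (2 + 1) 1)} {c c₀ : ℝ}

/-- the events at a point of the space of the joined label -/
def G2 (s : Sys S 3) (s' : Sys S 2) (x : ∀ k, FD (S.F k) (Mon (3 + 1) D)) (x' : ∀ k, FD (S.F k) (Mon (2 + 1) 1))
    (i : Fin 3) (c₀ e : ℝ) (k : ℕ) (ω : (Jx x x' k).l.T.Ω) : Prop :=
  (∀ u, |u - s.t.v k ((Jx x x' k).l.p.π ω) 0| ≤ S.dl c₀ k →
    phi (S.dl 1 k) ((Jx x x' k).g ω) (pl (s.a.v k ((Jx x x' k).l.p.π ω)) (s.x.v k ((Jx x x' k).l.p.π ω)) u) ≤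
      2 ^ (2 * (0 + e) * (S.F k).n)) ∧
  2 ^ (2 * (1 - e) * (S.F k).n) ≤ gami i.succ (S.dl 1 k) ((Jx x x' k).g ω) (ptf s k ((Jx x x' k).l.p.π ω)) ∧
  (∀ (j : Fin (3 + 1)) (v : Mon (3 + 1) D → ℝ), qf ((Jx x x' k).g ω) (Tm j *ᵥ v) ≤
    (2 ^ ((1 + e) * (S.F k).n)) ^ 2 * qf ((Jx x x' k).g ω) v) ∧
  sph s' 1 k ((Jx x x' k).l.p.π ω) (g0J x x' k ω) ≤ 2 ^ (e * (S.F k).n)

theorem Jx_Opt (hc : c ≤ c₀) (hx : IsCan s D c₀ x) (hx' : IsCanP s s' 1 c x') :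
    (gau s D).Opt (cA s c₀) (cB s) (Jx x x') := by
  have h1 : DMc s c (lb x') := hx'.2.1
  exact Gau.Opt.jn _ hx.1 (DMc.mono hc h1)

theorem Jx_Hz (i : Fin 3) (hz : Hz s i x) : Hz s i (Jx x x') := by
  intro e he
  have h1 := hz e he
  refine h1.congr fun k => ?_
  exact (pb_push ((x k).l.am ((lb x') k)).p1 (fun ω => ¬ 2 ^ (2 * (1 - e) * (S.F k).n) ≤
    gami i.succ (S.dl 1 k) ((x k).g ω) (ptf s k ((x k).l.p.π ω)))).symm

theorem J_pt (x : ∀ k, FD (S.F k) (Mon (3 + 1) D)) (x' : ∀ k, FD (S.F k) (Mon (2 + 1) 1)) (k : ℕ)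
    (ω : (Jx x x' k).l.T.Ω) (h : (Jx x x' k).l.T.μ ω ≠ 0) :
    (Jx x x' k).l.p.π ω = (x' k).l.p.π (((x k).l.am ((lb x') k)).p2.π ω) :=
  (((x k).l.am ((lb x') k)).supp ω h).1

theorem G2_typ (h0 : 0 ≤ c₀) (h1 : c₀ < 1) (hc : c ≤ c₀) (hx : IsCan s D c₀ x) (hx' : IsCanP s s' 1 c x') (i : Fin 3)
    (hz : Hz s i x) (e : ℝ) (he : 0 < e) :
    Tendsto (fun k => (Jx x x' k).l.T.pb (fun ω => ¬ G2 s s' x x' i c₀ e k ω)) UF (𝓝 0) := by
  have hJ := Jx_Opt hc hx hx'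
  have t1 : Tendsto (fun k => (Jx x x' k).l.T.pb (fun ω => ¬
      ∀ u, |u - s.t.v k ((Jx x x' k).l.p.π ω) 0| ≤ S.dl c₀ k →
        phi (S.dl 1 k) ((Jx x x' k).g ω) (pl (s.a.v k ((Jx x x' k).l.p.π ω)) (s.x.v k ((Jx x x' k).l.p.π ω)) u) ≤
          2 ^ (2 * (0 + e) * (S.F k).n))) UF (𝓝 0) := own_win s h0 h1 hJ.1 e he
  have t2 : Tendsto (fun k => (Jx x x' k).l.T.pb (fun ω => ¬ 2 ^ (2 * (1 - e) * (S.F k).n) ≤
      gami i.succ (S.dl 1 k) ((Jx x x' k).g ω) (ptf s k ((Jx x x' k).l.p.π ω)))) UF (𝓝 0) :=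
    Jx_Hz (x' := x') i hz e he
  have t3 : Tendsto (fun k => (Jx x x' k).l.T.pb (fun ω => ¬ ∀ (j : Fin (3 + 1)) (v : Mon (3 + 1) D → ℝ),
      qf ((Jx x x' k).g ω) (Tm j *ᵥ v) ≤ (2 ^ ((1 + e) * (S.F k).n)) ^ 2 * qf ((Jx x x' k).g ω) v)) UF (𝓝 0) :=
    Pool.Agent.Helper48.NS.der_dom hJ 1 (fun δ hδ => sga_typ s hJ.1 δ hδ) e he
  have t4 : Tendsto (fun k => (Jx x x' k).l.T.pb (fun ω =>
      ¬ sph s' 1 k ((Jx x x' k).l.p.π ω) (g0J x x' k ω) ≤ 2 ^ (e * (S.F k).n))) UF (𝓝 0) := by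
    have a1 := tend_pull (fun k => ((x k).l.am ((lb x') k)).p2) (phi_typ s' hx'.1.1 e he)
    refine tend_mono a1 (Eventually.of_forall fun k ω hω h => ?_)
    rw [J_pt x x' k ω hω]
    exact h
  have t5 := tend_or t1 (tend_or t2 (tend_or t3 t4))
  refine t5.congr fun k => ?_
  rfl

/-- the events at a point of the space of `X` -/
def G1 (O : XO s s' x x' c) (e : ℝ) (k : ℕ) (ω : (O.X k).l.T.Ω) : Prop :=
  (∀ u : Fin (2 + 1) → ℝ, 2 ^ (2 * (c - e) * (S.F k).n) * (u ⬝ᵥ u) ≤ qf (O.g₀ k ω) (gv u)) ∧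
  qf (O.g₀ k ω) (gv (Fin.cons 1 (s'.x.v k ((O.X k).l.p.π ω)) : Fin (2 + 1) → ℝ)) ≤ 2 ^ (2 * (c + e) * (S.F k).n) ∧
  qf ((O.X k).g ω) (gv (Fin.cons 1 (s'.x.v k ((O.X k).l.p.π ω)) : Fin (2 + 1) → ℝ)) ≤ 2 ^ (2 * (c + e) * (S.F k).n)

theorem G1_typ (O : XO s s' x x' c) (fac : Fac s s') (h0 : 0 ≤ c) (h1 : c < 1) (hx' : IsCanP s s' 1 c x') (e : ℝ)
    (he : 0 < e) : Tendsto (fun k => (O.X k).l.T.pb (fun ω => ¬ G1 O e k ω)) UF (𝓝 0) := by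
  have t1 : Tendsto (fun k => (O.X k).l.T.pb (fun ω => ¬ ∀ u : Fin (2 + 1) → ℝ,
      2 ^ (2 * (c - e) * (S.F k).n) * (u ⬝ᵥ u) ≤ qf (O.g₀ k ω) (gv u))) UF (𝓝 0) :=
    pk_typ O (Pool.Agent.Helper51.LIP.low_cell fac h1.le hx'.1 e he)
  have t3 := Pool.Agent.Helper93.LIP.XO_vel O fac h0 h1 (e / 2) (by linarith)
  have t2 : Tendsto (fun k => (O.X k).l.T.pb (fun ω => ¬
      (qf ((O.X k).g ω) (gv (Fin.cons 1 (s'.x.v k ((O.X k).l.p.π ω)) : Fin (2 + 1) → ℝ)) ≤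
        2 ^ (2 * (c + e / 2) * (S.F k).n) ∧ ∀ v, qf (O.g₀ k ω) v ≤ 2 ^ (e * (S.F k).n) * qf ((O.X k).g ω) v)))
      UF (𝓝 0) := tend_or t3 (O.dom e he)
  have t4 : Tendsto (fun k => (O.X k).l.T.pb (fun ω => ¬
      (qf (O.g₀ k ω) (gv (Fin.cons 1 (s'.x.v k ((O.X k).l.p.π ω)) : Fin (2 + 1) → ℝ)) ≤
        2 ^ (2 * (c + e) * (S.F k).n) ∧
      qf ((O.X k).g ω) (gv (Fin.cons 1 (s'.x.v k ((O.X k).l.p.π ω)) : Fin (2 + 1) → ℝ)) ≤
        2 ^ (2 * (c + e) * (S.F k).n)))) UF (𝓝 0) := by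
    refine tend_mono t2 (Eventually.of_forall fun k ω _ h => ?_)
    obtain ⟨a, b⟩ := h
    have hn := (S.F k).pos
    refine ⟨?_, a.trans (Real.rpow_le_rpow_of_exponent_le (by norm_num)
      (mul_le_mul_of_nonneg_right (by linarith) hn.le))⟩
    have b1 := b (gv (Fin.cons 1 (s'.x.v k ((O.X k).l.p.π ω)) : Fin (2 + 1) → ℝ))
    refine b1.trans ((mul_le_mul_of_nonneg_left a (by positivity)).trans (le_of_eq ?_))
    rw [← Real.rpow_add (by norm_num)]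
    congr 1
    ring
  have t5 := tend_or t1 t4
  refine t5.congr fun k => ?_
  rfl

end typ

/-! ### separation in the base -/

theorem sep_num {i : Fin 3} {y y' : Fin 3 → ℝ} {ν e c₀ n : ℝ} (hn : 0 < n) (he : 0 < e) (hν : 0 ≤ ν)
    (hc : ν + 2 * e ≤ 1 - c₀) (h8 : (8 : ℝ) ≤ 2 ^ (e * n))
    (h1 : |y i - y' i| ≤ 2 ^ (e / 2 * n) * (2 ^ (-((1 - c₀) * n)) +
      ∑ j : Fin 2, |y (i.succAbove j) - y' (i.succAbove j)|))
    (h2 : ¬ ∀ j, |y j - y' j| ≤ 2 ^ (-(ν * n))) :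
    2 ^ (-(2 * (ν + e)) * n) ≤ ∑ j : Fin 2, (y (i.succAbove j) - y' (i.succAbove j)) ^ 2 := by
  set F : Fin 2 → ℝ := fun j => y (i.succAbove j) - y' (i.succAbove j) with hF
  have hsq : ∀ j, F j ^ 2 ≤ ∑ j, F j ^ 2 := fun j =>
    Finset.single_le_sum (f := fun j => F j ^ 2) (fun _ _ => sq_nonneg _) (Finset.mem_univ j)
  push Not at h2
  obtain ⟨j, hj⟩ := h2
  rcases Fin.eq_self_or_eq_succAbove i j with h | ⟨l, h⟩
  · rw [h] at hj
    have a1 : (2 : ℝ) ^ (-(ν * n)) < 2 ^ (e / 2 * n) * (2 ^ (-((1 - c₀) * n)) + ∑ j : Fin 2, |F j|) :=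
      hj.trans_le h1
    have a2 : (2 : ℝ) ^ (-((ν + e / 2) * n)) < 2 ^ (-((1 - c₀) * n)) + ∑ j : Fin 2, |F j| := by
      have b1 : (2 : ℝ) ^ (-(ν * n)) = 2 ^ (e / 2 * n) * 2 ^ (-((ν + e / 2) * n)) := by
        rw [← Real.rpow_add (by norm_num)]
        congr 1
        ring
      rw [b1] at a1
      exact lt_of_mul_lt_mul_left a1 (by positivity)
    have a3 : 2 * (2 : ℝ) ^ (-((1 - c₀) * n)) ≤ 2 ^ (-((ν + e / 2) * n)) := by
      have b1 : (2 : ℝ) ^ (-((ν + e / 2) * n)) = 2 ^ (-((1 - c₀) * n)) * 2 ^ ((1 - c₀ - (ν + e / 2)) * n) := by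
        rw [← Real.rpow_add (by norm_num)]
        congr 1
        ring
      have b2 : (2 : ℝ) ^ (e * n) ≤ 2 ^ ((1 - c₀ - (ν + e / 2)) * n) :=
        Real.rpow_le_rpow_of_exponent_le (by norm_num) (mul_le_mul_of_nonneg_right (by linarith) hn.le)
      rw [b1, mul_comm]
      exact mul_le_mul_of_nonneg_left (by linarith) (by positivity)
    have a4 : (2 : ℝ) ^ (-((ν + e / 2) * n)) ≤ 2 * ∑ j : Fin 2, |F j| := by linarith
    have a5 : (∑ j : Fin 2, |F j|) ^ 2 ≤ 2 * ∑ j, F j ^ 2 := by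
      rw [Fin.sum_univ_two, Fin.sum_univ_two]
      have b1 := sq_nonneg (|F 0| - |F 1|)
      have b2 := sq_abs (F 0)
      have b3 := sq_abs (F 1)
      nlinarith
    have a6 : ((2 : ℝ) ^ (-((ν + e / 2) * n))) ^ 2 ≤ (2 * ∑ j : Fin 2, |F j|) ^ 2 :=
      pow_le_pow_left₀ (by positivity) a4 2
    have a7 : ((2 : ℝ) ^ (-((ν + e / 2) * n))) ^ 2 = 2 ^ (-(2 * (ν + e)) * n) * 2 ^ (e * n) := by
      rw [← Real.rpow_natCast, ← Real.rpow_mul (by norm_num), ← Real.rpow_add (by norm_num)]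
      congr 1
      push_cast
      ring
    have a8 : (0 : ℝ) < 2 ^ (-(2 * (ν + e)) * n) := by positivity
    have a9 : 8 * (2 : ℝ) ^ (-(2 * (ν + e)) * n) ≤ 2 ^ (-(2 * (ν + e)) * n) * 2 ^ (e * n) := by
      rw [mul_comm]
      exact mul_le_mul_of_nonneg_left h8 a8.le
    rw [a7, mul_pow] at a6
    show (2 : ℝ) ^ (-(2 * (ν + e)) * n) ≤ ∑ j : Fin 2, F j ^ 2
    linarith
  · have a1 : (2 : ℝ) ^ (-(ν * n)) < |F l| := by
      rw [h] at hj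
      exact hj
    have a2 : ((2 : ℝ) ^ (-(ν * n))) ^ 2 ≤ |F l| ^ 2 := pow_le_pow_left₀ (by positivity) a1.le 2
    rw [sq_abs] at a2
    have a3 : (2 : ℝ) ^ (-(2 * (ν + e)) * n) ≤ (2 ^ (-(ν * n))) ^ 2 := by
      rw [← Real.rpow_natCast, ← Real.rpow_mul (by norm_num)]
      apply Real.rpow_le_rpow_of_exponent_le (by norm_num)
      push_cast
      have := mul_pos he hn
      linarith
    exact a3.trans (a2.trans (hsq l))

end

end Pool.Agent.Helper55.LP2
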