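import Pool.Agent.Helper55.LP2.TwoP
import Pool.Agent.Helper48.LIP.Zvx
import Pool.Agent.Helper51.LIP.K3
import Pool.Agent.Helper89.LIP.Lab2
import Pool.Agent.Helper39.LIP.Crd

/-! The affine function of the tangent hyperplane and the known 1-form on the space of the joined label. -/

set_option autoImplicit false

namespace Pool.Agent.Helper55.LP2

open Finset Filter Topology MvPolynomial Matrix Pool.Agent.Helper69.RK Pool.Agent.Helper31.EC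
open Pool.Agent.Helper31.EC.Sp Pool.Agent.Helper40.EL
open Pool.Agent.Helper3.LF Pool.Agent.Helper48.NS Pool.Agent.Helper48.LIP Pool.Agent.Helper89.LX
open Pool.Agent.Helper95.LF (PdM)
open Pool.Agent.Helper39.LIP

noncomputable section

/-! ### the corner of the cell -/

section
variable {S : Sp} {m : ℕ}

/-- the corner of the cell of `(t, P)` -/
def crn (s : Sys S m) (k : ℕ) (ω : (S.F k).Ω) : Fin (m + 1) → ℝ := fun j => ⌊ptf s k ω j / S.dl 1 k⌋ * S.dl 1 k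

theorem crn_eq (s : Sys S m) (k : ℕ) (ω ω' : (S.F k).Ω) (hP : (s.fin k).kP 1 ω ω') (ht : (s.fin k).kt 1 ω ω') :
    crn s k ω = crn s k ω' := by
  funext j
  unfold crn
  refine Fin.cases ?_ (fun i => ?_) j
  · have h2 : ⌊s.t.v k ω 0 / S.dl 1 k⌋ = ⌊s.t.v k ω' 0 / S.dl 1 k⌋ := congrFun ht 0
    show (⌊s.t.v k ω 0 / S.dl 1 k⌋ : ℝ) * S.dl 1 k = ⌊s.t.v k ω' 0 / S.dl 1 k⌋ * S.dl 1 k
    rw [h2]
  · have h2 : ⌊s.P.v k ω i / S.dl 1 k⌋ = ⌊s.P.v k ω' i / S.dl 1 k⌋ := congrFun hP i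
    show (⌊s.P.v k ω i / S.dl 1 k⌋ : ℝ) * S.dl 1 k = ⌊s.P.v k ω' i / S.dl 1 k⌋ * S.dl 1 k
    rw [h2]

theorem crn_close (s : Sys S m) (k : ℕ) (ω : (S.F k).Ω) (j : Fin (m + 1)) :
    |ptf s k ω j - crn s k ω j| ≤ S.dl 1 k := by
  have hd := S.dl_pos 1 k
  have h2 := Int.floor_le (ptf s k ω j / S.dl 1 k)
  have h3 := Int.lt_floor_add_one (ptf s k ω j / S.dl 1 k)
  rw [le_div_iff₀ hd] at h2
  rw [div_lt_iff₀ hd] at h3
  unfold crn
  rw [abs_le]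
  constructor <;> linarith

end

/-! ### the node with the largest derivative -/

section
variable {N D : ℕ}

/-- the node of the cell with the largest derivative in the direction `i` -/
def nzd (i : Fin N) (r : ℝ) (A : Matrix (Mon N D) (Mon N D) ℝ) (p : Fin N → ℝ) : Fin N → ℝ :=
  nodp D p r (gami_node i r A p).choose

theorem nzd_spec (i : Fin N) (r : ℝ) (A : Matrix (Mon N D) (Mon N D) ℝ) (p : Fin N → ℝ) :
    gami i r A p ≤ nn N D * qf A (dd i (nzd i r A p)) := (gami_node i r A p).choose_spec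

theorem nzd_close (i : Fin N) {r : ℝ} (hr : 0 ≤ r) (A : Matrix (Mon N D) (Mon N D) ℝ) (p : Fin N → ℝ) (j : Fin N) :
    |nzd i r A p j - p j| ≤ r := nodp_close r hr p _ j

end

/-! ### the restriction to the base as a matrix -/

/-- the matrix of the restriction to the base -/
def Rm (zi : Fin (3 + 1)) : Matrix (Mon (2 + 1) 1) (Mon (3 + 1) 1) ℝ := fun b a => rsv zi (Pi.single a 1) b

theorem rsv_add (zi : Fin (3 + 1)) (v w : Mon (3 + 1) 1 → ℝ) : rsv zi (v + w) = rsv zi v + rsv zi w := by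
  unfold rsv
  have h1 : v0 (v + w) = v0 v + v0 w := rfl
  have h2 : rmv zi (v1 (v + w)) = rmv zi (v1 v) + rmv zi (v1 w) := rfl
  rw [h1, h2, gv_add, add_smul]
  abel

theorem rsv_smul (zi : Fin (3 + 1)) (c : ℝ) (v : Mon (3 + 1) 1 → ℝ) : rsv zi (c • v) = c • rsv zi v := by
  unfold rsv
  have h1 : v0 (c • v) = c * v0 v := rfl
  have h2 : rmv zi (v1 (c • v)) = c • rmv zi (v1 v) := rfl
  rw [h1, h2, gv_smul, smul_add, mul_smul]

/-- the restriction as a linear map -/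
def rsl (zi : Fin (3 + 1)) : (Mon (3 + 1) 1 → ℝ) →ₗ[ℝ] (Mon (2 + 1) 1 → ℝ) where
  toFun := rsv zi
  map_add' := rsv_add zi
  map_smul' := rsv_smul zi

theorem Rm_mul (zi : Fin (3 + 1)) (v : Mon (3 + 1) 1 → ℝ) : Rm zi *ᵥ v = rsv zi v := by
  have h1 : v = ∑ a, v a • (Pi.single a 1 : Mon (3 + 1) 1 → ℝ) := by
    funext b
    rw [Finset.sum_apply, Finset.sum_eq_single b]
    · rw [Pi.smul_apply, Pi.single_eq_same, smul_eq_mul, mul_one]
    · intro a _ ha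
      rw [Pi.smul_apply, Pi.single_eq_of_ne ha.symm, smul_zero]
    · intro h
      exact absurd (Finset.mem_univ b) h
  have h2 : rsl zi v = ∑ a, v a • rsl zi (Pi.single a 1 : Mon (3 + 1) 1 → ℝ) := by
    conv_lhs => rw [h1]
    rw [map_sum]
    exact Finset.sum_congr rfl fun a _ => map_smul _ _ _
  have h3 : rsl zi v = rsv zi v := rfl
  rw [← h3, h2]
  funext b
  rw [Finset.sum_apply]
  unfold Matrix.mulVec dotProduct
  refine Finset.sum_congr rfl fun a _ => ?_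
  rw [Pi.smul_apply, smul_eq_mul, mul_comm]
  rfl

/-- the known form: the identity and a small multiple of the form of the base -/
def aF (δ : ℝ) (zi : Fin (3 + 1)) (g : Matrix (Mon (2 + 1) 1) (Mon (2 + 1) 1) ℝ) :
    Matrix (Mon (3 + 1) 1) (Mon (3 + 1) 1) ℝ := 1 + δ • ((Rm zi).transpose * g * Rm zi)

theorem qf_aF (δ : ℝ) (zi : Fin (3 + 1)) (g : Matrix (Mon (2 + 1) 1) (Mon (2 + 1) 1) ℝ) (v : Mon (3 + 1) 1 → ℝ) :
    qf (aF δ zi g) v = v ⬝ᵥ v + δ * qf g (rsv zi v) := by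
  unfold aF
  have h1 : v ⬝ᵥ ((1 + δ • ((Rm zi).transpose * g * Rm zi)) *ᵥ v) = v ⬝ᵥ v + δ * ((Rm zi *ᵥ v) ⬝ᵥ (g *ᵥ (Rm zi *ᵥ v))) := by
    rw [Pool.Agent.Helper95.LF.dv_add, Matrix.one_mulVec, Pool.Agent.Helper95.LF.dv_smul,
      Pool.Agent.Helper95.LF.dv_conj]
  rw [Rm_mul] at h1
  exact h1

/-! ### the objects on the space of the joined label -/

section
variable {S : Sp} {D : ℕ}

/-- the joined label with the form of the window `c₀` -/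
def Jx (x : ∀ k, FD (S.F k) (Mon (3 + 1) D)) (x' : ∀ k, FD (S.F k) (Mon (2 + 1) 1)) (k : ℕ) :
    FD (S.F k) (Mon (3 + 1) D) := (x k).jn ((lb x') k)

/-- the 1-form of the base on the space of the joined label -/
def g0J (x : ∀ k, FD (S.F k) (Mon (3 + 1) D)) (x' : ∀ k, FD (S.F k) (Mon (2 + 1) 1)) (k : ℕ)
    (ω : (Jx x x' k).l.T.Ω) : Matrix (Mon (2 + 1) 1) (Mon (2 + 1) 1) ℝ :=
  (x' k).g (((x k).l.am ((lb x') k)).p2.π ω)

/-- the known form -/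
def aJ (x : ∀ k, FD (S.F k) (Mon (3 + 1) D)) (x' : ∀ k, FD (S.F k) (Mon (2 + 1) 1)) (i : Fin 3) (e₁ : ℝ) (k : ℕ)
    (ω : (Jx x x' k).l.T.Ω) : Matrix (Mon (3 + 1) 1) (Mon (3 + 1) 1) ℝ :=
  aF (2 ^ (-(e₁ * (S.F k).n))) i.succ (g0J x x' k ω)

/-- the node: a function of the form and of the cell of the point -/
def pJ (s : Sys S 3) (x : ∀ k, FD (S.F k) (Mon (3 + 1) D)) (x' : ∀ k, FD (S.F k) (Mon (2 + 1) 1)) (i : Fin 3) (k : ℕ)
    (ω : (Jx x x' k).l.T.Ω) : Fin (3 + 1) → ℝ :=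
  nzd i.succ (S.dl 1 k) ((Jx x x' k).g ω) (crn s k ((Jx x x' k).l.p.π ω))

/-- the affine function of the tangent hyperplane at the node, derivative one in the direction `i` -/
def LJ (s : Sys S 3) (x : ∀ k, FD (S.F k) (Mon (3 + 1) D)) (x' : ∀ k, FD (S.F k) (Mon (2 + 1) 1)) (i : Fin 3) (k : ℕ)
    (ω : (Jx x x' k).l.T.Ω) : Mon (3 + 1) 1 → ℝ :=
  Lp ((Jx x x' k).g ω) i.succ (pJ s x x' i k ω)

/-- the forms are functions of the label -/
theorem g0J_meas (x : ∀ k, FD (S.F k) (Mon (3 + 1) D)) (x' : ∀ k, FD (S.F k) (Mon (2 + 1) 1)) (k : ℕ)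
    (ω ω' : (Jx x x' k).l.T.Ω) (h : (Jx x x' k).l.T.μ ω ≠ 0) (h' : (Jx x x' k).l.T.μ ω' ≠ 0)
    (hV : (Jx x x' k).l.V ω ω') (hZ : (Jx x x' k).l.T.Z ω ω') : g0J x x' k ω = g0J x x' k ω' := by
  have a := ((x k).l.am ((lb x') k)).p2.supp ω h
  have a' := ((x k).l.am ((lb x') k)).p2.supp ω' h'
  exact ((x' k).meas _ _ a a' (jK_le (x k) ((lb x') k) hV) ((((x k).l.am ((lb x') k)).p2.hZ ω ω' h h').mp hZ)).1

theorem aJ_meas (x : ∀ k, FD (S.F k) (Mon (3 + 1) D)) (x' : ∀ k, FD (S.F k) (Mon (2 + 1) 1)) (i : Fin 3) (e₁ : ℝ)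
    (k : ℕ) (ω ω' : (Jx x x' k).l.T.Ω) (h : (Jx x x' k).l.T.μ ω ≠ 0) (h' : (Jx x x' k).l.T.μ ω' ≠ 0)
    (hV : (Jx x x' k).l.V ω ω') (hZ : (Jx x x' k).l.T.Z ω ω') : aJ x x' i e₁ k ω = aJ x x' i e₁ k ω' := by
  unfold aJ
  rw [g0J_meas x x' k ω ω' h h' hV hZ]

/-- the affine function is a function of the label and the cell -/
theorem LJ_meas (s : Sys S 3) (x : ∀ k, FD (S.F k) (Mon (3 + 1) D)) (x' : ∀ k, FD (S.F k) (Mon (2 + 1) 1)) (i : Fin 3)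
    (k : ℕ) (ω ω' : (Jx x x' k).l.T.Ω) (h : (Jx x x' k).l.T.μ ω ≠ 0) (h' : (Jx x x' k).l.T.μ ω' ≠ 0)
    (hV : (Jx x x' k).l.V ω ω') (hZ : (Jx x x' k).l.T.Z ω ω')
    (hP : (s.fin k).kP 1 ((Jx x x' k).l.p.π ω) ((Jx x x' k).l.p.π ω'))
    (ht : (s.fin k).kt 1 ((Jx x x' k).l.p.π ω) ((Jx x x' k).l.p.π ω')) : LJ s x x' i k ω = LJ s x x' i k ω' := by
  unfold LJ pJ
  rw [((Jx x x' k).meas ω ω' h h' hV hZ).1, crn_eq s k _ _ hP ht]

end

end

end Pool.Agent.Helper55.LP2
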