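import Pool.Agent.Helper55.LP2.S34c
import Pool.Agent.Helper51.LIP.S34b
import Pool.Agent.Helper39.LIP.Top2

/-! SEC34 of LIP(A): the configuration at one index. -/

set_option autoImplicit false

namespace Pool.Agent.Helper55.LP2

open Finset Filter Topology MvPolynomial Matrix Pool.Agent.Helper69.RK Pool.Agent.Helper31.EC
open Pool.Agent.Helper31.EC.Sp Pool.Agent.Helper40.EL
open Pool.Agent.Helper3.LF Pool.Agent.Helper48.NS Pool.Agent.Helper48.LIP Pool.Agent.Helper89.LX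
open Pool.Agent.Helper3.SG Pool.Agent.Helper51.LD2 Pool.Agent.Helper51.S34
open Pool.Agent.Helper95.LF (PdM)
open Pool.Agent.Helper39.LIP

noncomputable section

/-- indices -/
def fi (D : ℕ) (i : ℕ) : Fin (D + 1) := ⟨min i D, by omega⟩

theorem fi_ne {D i j : ℕ} (hi : i ≤ D) (hj : j ≤ D) (h : i ≠ j) : fi D i ≠ fi D j := by
  intro h'
  have h1 : min i D = min j D := congrArg Fin.val h'
  omega

theorem fi_zero (D : ℕ) : fi D 0 = 0 := Fin.ext (Nat.zero_min D)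

/-- the derivative at the node -/
theorem nzd_low {D : ℕ} {A : Matrix (Mon (3 + 1) D) (Mon (3 + 1) D) ℝ} (hA : PdM A) (zi : Fin (3 + 1))
    (P C0 : Fin (3 + 1) → ℝ) {r n e : ℝ} (hr : 0 < r) (hn : 0 < n) (he : 0 < e) (hCz : Cz D ≤ 2 ^ (e * n))
    (hg : 2 ^ (2 * (1 - e) * n) ≤ gami zi r A P) (hC : ∀ j, |P j - C0 j| ≤ r) :
    2 ^ (2 * (1 - 2 * e) * n) ≤ qf A (dd zi (nzd zi r A C0)) := by
  have hnn := nn_one (3 + 1) D
  have h1 := gami_comp zi A hA r r 2 hr hr.le (by norm_num) C0 P (fun j => by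
    have := hC j
    linarith)
  have h2 := nzd_spec zi r A C0
  have h3 : gami zi r A P ≤ Cz D * qf A (dd zi (nzd zi r A C0)) := by
    refine h1.trans ((mul_le_mul_of_nonneg_left h2 (by positivity)).trans (le_of_eq ?_))
    unfold Cz
    ring
  have h4 : 0 ≤ qf A (dd zi (nzd zi r A C0)) := hA.nonneg _
  have h5 : (2 : ℝ) ^ (2 * (1 - e) * n) ≤ 2 ^ (e * n) * qf A (dd zi (nzd zi r A C0)) :=
    hg.trans (h3.trans (mul_le_mul_of_nonneg_right hCz h4))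
  have h6 : (2 : ℝ) ^ (2 * (1 - e) * n) = 2 ^ (e * n) * 2 ^ ((2 - 3 * e) * n) := by
    rw [p2_mul]
    congr 1
    ring
  rw [h6] at h5
  have h7 : (2 : ℝ) ^ ((2 - 3 * e) * n) ≤ qf A (dd zi (nzd zi r A C0)) :=
    le_of_mul_le_mul_left h5 (by positivity)
  refine le_trans (p2_le hn ?_) h7
  linarith

variable {S : Sp} {D : ℕ} {s : Sys S 3} {s' : Sys S 2} {x : ∀ k, FD (S.F k) (Mon (3 + 1) D)}
  {x' : ∀ k, FD (S.F k) (Mon (2 + 1) 1)} {c c₀ : ℝ}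

theorem p3_pt (O : XO s s' x x' c) (k : ℕ) (ω : (O.X k).l.T.Ω) :
    (O.X k).l.p.π ω = (Jx x x' k).l.p.π ((p3 O k).π ω) := by
  rw [XO_p]
  rfl

/-- THE CONFIGURATION AT ONE INDEX -/
theorem fin34 (hD : 1 ≤ D) {i : Fin 3} (crd : Crd s s' i.succAbove) (O : XO s s' x x' c) {e ν θ δ : ℝ}
    (hc : c ≤ c₀) (he : 0 < e) (hν : 0 ≤ ν) (hνc : ν + 2 * e ≤ 1 - c₀)
    (hθ : 2 * D * ν + (16 * D + 3) * e ≤ θ) (hδ : 8 * ((D : ℝ) + 1) ^ 4 * δ ≤ 1) (k : ℕ)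
    (hKc : Kc D ≤ 2 ^ (e * (S.F k).n)) (h8 : (8 : ℝ) ≤ 2 ^ (e * (S.F k).n)) (hCz : Cz D ≤ 2 ^ (e * (S.F k).n))
    (hJ : ∀ ω, (Jx x x' k).l.T.μ ω ≠ 0 → PdM ((Jx x x' k).g ω))
    (hgJ : ∀ ω, (Jx x x' k).l.T.μ ω ≠ 0 → PdM (g0J x x' k ω))
    (hX : ∀ ω, (O.X k).l.T.μ ω ≠ 0 → PdM ((O.X k).g ω))
    (ht : ∀ ω, (S.F k).μ ω ≠ 0 → |s.t.v k ω 0| ≤ 2 ^ (e * (S.F k).n)) (Gz : (O.X k).l.T.Ω → Prop)
    (hGz : ∀ ω ω', (O.X k).l.T.μ ω ≠ 0 → (O.X k).l.T.μ ω' ≠ 0 → Gz ω → Gz ω' →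
      ((x k).jn ((lb x') k)).l.V ((O.r k).π ω).2 ((O.r k).π ω').2 → (O.X k).l.T.Z ω ω' →
      (s.fin k).kP 1 ((O.X k).l.p.π ω) ((O.X k).l.p.π ω') → (s.fin k).kt 1 ((O.X k).l.p.π ω) ((O.X k).l.p.π ω') →
      |s.x.v k ((O.X k).l.p.π ω) i - s.x.v k ((O.X k).l.p.π ω') i| ≤ 2 ^ (e / 2 * (S.F k).n) *
        (2 ^ (-((1 - c₀) * (S.F k).n)) + ∑ j : Fin 2, |s.x.v k ((O.X k).l.p.π ω) (i.succAbove j) -
          s.x.v k ((O.X k).l.p.π ω') (i.succAbove j)|))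
    (h1 : (O.X k).l.T.pb (fun ω => ¬ (G1 O e k ω ∧ Gz ω)) ≤ δ)
    (h2 : (Jx x x' k).l.T.pb (fun ω => ¬ G2 s s' x x' i c₀ e k ω) ≤ δ)
    (h3 : (O.X k).l.T.pb (fun ω => ¬ O.Lg (2 * θ) k ω) ≤ δ)
    (h4 : (FAm.self (O.X k).l.T (YSs O k)).sp.pb (SEv O ν k) ≤ δ)
    (h5 : (FAm.self (O.X k).l.T (YBs O k)).sp.pb (CEv O ν k) ≤ δ) :
    δ ≤ (FAm.self (Jx x x' k).l.T ((Jx x x' k).l.V ⊓ Setoid.comap (Jx x x' k).l.p.π (cAs s c₀ k))).sp.pb (fun w =>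
      AgV (S.F k).n e (1 - (D + 1) * (c₀ - c) - 2 * D * ν - (24 * D + 12) * e) (aJ x x' i e k w.1)
        (aJ x x' i e k w.2) (LJ s x x' i k w.1) (LJ s x x' i k w.2)) := by
  by_contra hcon
  push Not at hcon
  have hn := (S.F k).pos
  set n := (S.F k).n with hnd
  set τ : ℝ := 1 - (D + 1) * (c₀ - c) - 2 * D * ν - (24 * D + 12) * e with hτ
  have hYS : YSs O k = (O.X k).l.V ⊓ YBs O k := inf_assoc _ _ _
  rw [hYS] at h4
  obtain ⟨y, y', u1, u2, u3, u4, u5, u6, u7, u8, u9, u10, u11, u12⟩ := conf_plam (F := (Jx x x' k).l.T) (p3 O k)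
    ((Jx x x' k).l.V ⊓ Setoid.comap (Jx x x' k).l.p.π (cAs s c₀ k)) (O.X k).l.V (YBs O k) D
    (fun ω => G1 O e k ω ∧ Gz ω) (fun ω => G2 s s' x x' i c₀ e k ω) (fun ω => O.Lg (2 * θ) k ω)
    (fun a b => AgV n e τ (aJ x x' i e k a) (aJ x x' i e k b) (LJ s x x' i k a) (LJ s x x' i k b))
    (fun a b => SEv O ν k (a, b)) (fun a b => CEv O ν k (a, b)) hδ h1 h2 h3 h4 h5 hcon
  apply u12
  -- notation
  set yJ : Fin (D + 1) → Fin (D + 1) → (Jx x x' k).l.T.Ω := fun a b => (p3 O k).π (y a b) with hyJ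
  have v1 : ∀ a b, (Jx x x' k).l.T.μ (yJ a b) ≠ 0 := fun a b => (p3 O k).supp _ (u1 a b)
  have vpt : ∀ a b, (O.X k).l.p.π (y a b) = (Jx x x' k).l.p.π (yJ a b) := fun a b => p3_pt O k _
  have vV : ∀ a b, (Jx x x' k).l.V (yJ 0 0) (yJ a b) := fun a b => (u4 0 a 0 b).1.1
  have vZ : ∀ a b, (Jx x x' k).l.T.Z (yJ 0 0) (yJ a b) := fun a b =>
    ((p3 O k).hZ _ _ (u1 0 0) (u1 a b)).mp (u4 0 a 0 b).2
  have vP : ∀ a b, (s.fin k).kP 1 ((Jx x x' k).l.p.π (yJ 0 0)) ((Jx x x' k).l.p.π (yJ a b)) := fun a b => by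
    have := (u4 0 a 0 b).1.2.1
    rw [← vpt, ← vpt]
    exact this
  have vt : ∀ a b, (s.fin k).kt 1 ((Jx x x' k).l.p.π (yJ 0 0)) ((Jx x x' k).l.p.π (yJ a b)) := fun a b => by
    have := (u4 0 a 0 b).1.2.2
    rw [← vpt, ← vpt]
    exact this
  obtain ⟨A, hAd⟩ : ∃ A, A = (Jx x x' k).g (yJ 0 0) := ⟨_, rfl⟩
  obtain ⟨g, hgd⟩ : ∃ g, g = g0J x x' k (yJ 0 0) := ⟨_, rfl⟩
  have hA : PdM A := by rw [hAd]; exact hJ _ (v1 0 0)
  have hg : PdM g := by rw [hgd]; exact hgJ _ (v1 0 0)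
  have hAab : ∀ a b, (Jx x x' k).g (yJ a b) = A := fun a b => by
    rw [hAd]
    exact ((Jx x x' k).meas _ _ (v1 0 0) (v1 a b) (vV a b) (vZ a b)).1.symm
  have hgab : ∀ a b, O.g₀ k (y a b) = g := fun a b => by
    rw [hgd]
    exact (g0J_meas x x' k _ _ (v1 0 0) (v1 a b) (vV a b) (vZ a b)).symm
  have hXab : ∀ a b, (O.X k).g (y a b) = (O.X k).g (y a 0) := fun a b =>
    ((O.X k).meas _ _ (u1 a b) (u1 a 0) (u3 a b 0).1.1 (u3 a b 0).2).1
  have hnab : ∀ a b, O.n k (y a b) = O.n k (y a 0) := fun a b => by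
    unfold XO.n
    rw [hXab, hgab, hgab]
  have htcn : ∀ a b, IsTcn ((O.X k).g (y a b)) g (O.n k (y a b)) (O.mu k (y a b)) := fun a b => by
    unfold XO.n XO.mu
    rw [hgab]
    exact tcn_spec (by norm_num) (hX _ (u1 a b)) hg
  have hs'x : ∀ ω : (S.F k).Ω, (Fin.cons 1 (s'.x.v k ω) : Fin (2 + 1) → ℝ) =
      (Fin.cons 1 (fun j => s.x.v k ω (i.succAbove j)) : Fin (2 + 1) → ℝ) := by
    intro ω
    have : s'.x.v k ω = fun j => s.x.v k ω (i.succAbove j) := funext fun j => crd.x k ω j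
    rw [this]
  -- the second point
  obtain ⟨⟨w1, w2⟩, w3⟩ := u9
  have hA' : (Jx x x' k).g y' = A := by
    rw [hAd]
    exact ((Jx x x' k).meas _ _ (v1 0 0) u2 w1 w3).1.symm
  have hg' : g0J x x' k y' = g := by
    rw [hgd]
    exact (g0J_meas x x' k _ _ (v1 0 0) u2 w1 w3).symm
  have hr := S.dl_pos 1 k
  obtain ⟨q1, q2, q3, q4⟩ := u6 0 0
  obtain ⟨p1, p2, p3', p4⟩ := u8
  have hdl : S.dl c₀ k = 2 ^ (-c₀ * n) := by
    unfold Sp.dl
    rw [hnd]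
    congr 1
    ring
  obtain ⟨c1, c2, c3⟩ := cAs_close s c₀ k ((Jx x x' k).l.p.π (yJ 0 0)) ((Jx x x' k).l.p.π y') ((cAs s c₀ k).symm w2)
  have hPt : ∀ a b j, |pJ s x x' i k (yJ 0 0) j - ptf s k ((Jx x x' k).l.p.π (yJ a b)) j| ≤ 2 * S.dl 1 k := by
    intro a b j
    have a1 := nzd_close i.succ hr.le ((Jx x x' k).g (yJ 0 0)) (crn s k ((Jx x x' k).l.p.π (yJ 0 0))) j
    have a2 := crn_close s k ((Jx x x' k).l.p.π (yJ a b)) j
    rw [← crn_eq s k _ _ (vP a b) (vt a b)] at a2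
    have a3 : pJ s x x' i k (yJ 0 0) j - ptf s k ((Jx x x' k).l.p.π (yJ a b)) j =
        (nzd i.succ (S.dl 1 k) ((Jx x x' k).g (yJ 0 0)) (crn s k ((Jx x x' k).l.p.π (yJ 0 0))) j -
          crn s k ((Jx x x' k).l.p.π (yJ 0 0)) j) -
        (ptf s k ((Jx x x' k).l.p.π (yJ a b)) j - crn s k ((Jx x x' k).l.p.π (yJ 0 0)) j) := by
      unfold pJ
      ring
    rw [a3]
    refine (abs_sub _ _).trans ?_
    linarith
  have hPt' : ∀ j, |pJ s x x' i k y' j - ptf s k ((Jx x x' k).l.p.π y') j| ≤ 2 * S.dl 1 k := by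
    intro j
    have a1 := nzd_close i.succ hr.le ((Jx x x' k).g y') (crn s k ((Jx x x' k).l.p.π y')) j
    have a2 := crn_close s k ((Jx x x' k).l.p.π y') j
    have a3 : pJ s x x' i k y' j - ptf s k ((Jx x x' k).l.p.π y') j =
        (nzd i.succ (S.dl 1 k) ((Jx x x' k).g y') (crn s k ((Jx x x' k).l.p.π y')) j -
          crn s k ((Jx x x' k).l.p.π y') j) -
        (ptf s k ((Jx x x' k).l.p.π y') j - crn s k ((Jx x x' k).l.p.π y') j) := by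
      unfold pJ
      ring
    rw [a3]
    refine (abs_sub _ _).trans ?_
    linarith
  have hmain := pt_cmp D hD (n := n) (c := c) (c₀ := c₀) (e := e) (ν := ν) (θ := θ) hn hc he hν hKc hθ i hA
    (by
      rw [hAd]
      exact q3) hg (by
      have := (u5 0 0).1.1
      rw [hgab] at this
      exact this) (fun a => O.n k (y (fi D a) 0)) (fun a _ => (htcn (fi D a) 0).dual)
    (fun a _ => (htcn (fi D a) 0).unit)
    (fun a b => s.a.v k ((Jx x x' k).l.p.π (yJ (fi D a) (fi D b))))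
    (fun a b => s.x.v k ((Jx x x' k).l.p.π (yJ (fi D a) (fi D b))))
    (fun a b => s.t.v k ((Jx x x' k).l.p.π (yJ (fi D a) (fi D b))) 0)
    (pJ s x x' i k (yJ 0 0)) hr (fun a _ b _ j => hPt (fi D a) (fi D b) j)
    (fun a _ b _ u hu => by
      have a1 := (u6 (fi D a) (fi D b)).1 u (by rw [hdl]; exact hu)
      have a2 : (Jx x x' k).g ((p3 O k).π (y (fi D a) (fi D b))) = A := hAab _ _
      rw [a2, zero_add] at a1
      exact a1)
    (fun a _ b _ => by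
      have a1 := (u5 (fi D a) (fi D b)).1.2.1
      rw [hgab, hs'x, vpt] at a1
      exact a1)
    (fun a _ b _ => by
      have a1 := (u5 (fi D a) (fi D b)).1.2.2
      rw [hs'x, vpt] at a1
      have a2 := (htcn (fi D a) (fi D b)).low (gv (Fin.cons 1 (fun j =>
        s.x.v k ((Jx x x' k).l.p.π (yJ (fi D a) (fi D b))) (i.succAbove j)) : Fin (2 + 1) → ℝ))
      have a3 : (2 : ℝ) ^ (2 * θ * n) ≤ O.mu k (y (fi D a) (fi D b)) := u7 (fi D a) (fi D b)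
      have a4 := (mul_le_mul_of_nonneg_right a3 (sq_nonneg (O.n k (y (fi D a) (fi D b)) ⬝ᵥ
        gv (Fin.cons 1 (fun j => s.x.v k ((Jx x x' k).l.p.π (yJ (fi D a) (fi D b))) (i.succAbove j)) :
          Fin (2 + 1) → ℝ)))).trans (a2.trans a1)
      rw [hnab] at a4
      have a5 : (2 : ℝ) ^ (2 * (c + e) * n) = 2 ^ (2 * θ * n) * 2 ^ (2 * (c + e - θ) * n) := by
        rw [p2_mul]
        congr 1
        ring
      rw [a5] at a4
      exact le_of_mul_le_mul_left a4 (by positivity))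
    (fun a _ b hb l hl hbl => by
      have a1 := u10 (fi D a) (fi D b) (fi D l) (fi_ne hb hl hbl)
      have a2 := hGz _ _ (u1 (fi D a) (fi D b)) (u1 (fi D a) (fi D l)) (u5 (fi D a) (fi D b)).2
        (u5 (fi D a) (fi D l)).2 (u4 (fi D a) (fi D a) (fi D b) (fi D l)).1.1
        (u4 (fi D a) (fi D a) (fi D b) (fi D l)).2 (u4 (fi D a) (fi D a) (fi D b) (fi D l)).1.2.1
        (u4 (fi D a) (fi D a) (fi D b) (fi D l)).1.2.2
      have a3 : ¬ ∀ j, |s.x.v k ((O.X k).l.p.π (y (fi D a) (fi D b))) j -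
          s.x.v k ((O.X k).l.p.π (y (fi D a) (fi D l))) j| ≤ 2 ^ (-(ν * n)) := a1
      have a4 := sep_num hn he hν hνc h8 a2 a3
      rw [vpt, vpt] at a4
      exact a4)
    (fun a ha b hb hab => by
      have a1 : ¬ Clo (O.g₀ k (y (fi D a) 0)) (2 ^ (-(ν * n))) (O.n k (y (fi D a) 0)) (O.n k (y (fi D b) 0)) :=
        u11 (fi D a) (fi D b) 0 0 (fi_ne ha hb hab)
      rw [hgab] at a1
      have a2 : -ν * n = -(ν * n) := by ring
      rw [a2]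
      exact a1)
    (by
      have a1 := nzd_low (hJ _ (v1 0 0)) i.succ (ptf s k ((Jx x x' k).l.p.π (yJ 0 0)))
        (crn s k ((Jx x x' k).l.p.π (yJ 0 0))) hr hn he hCz q2 (crn_close s k _)
      rw [hAd]
      exact a1)
    (pJ s x x' i k y') (by
      have a1 := nzd_low (hJ _ u2) i.succ (ptf s k ((Jx x x' k).l.p.π y'))
        (crn s k ((Jx x x' k).l.p.π y')) hr hn he hCz p2 (crn_close s k _)
      have a2 : nzd i.succ (S.dl 1 k) ((Jx x x' k).g y') (crn s k ((Jx x x' k).l.p.π y')) = pJ s x x' i k y' := rfl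
      rw [a2, hA'] at a1
      exact a1)
    (s.a.v k ((Jx x x' k).l.p.π y')) (s.x.v k ((Jx x x' k).l.p.π y')) (s.t.v k ((Jx x x' k).l.p.π y') 0)
    hPt' (fun j => by
      rw [fi_zero]
      exact c1 j) (fun j => by
      rw [fi_zero]
      exact c2 j) (by
      rw [fi_zero, ← hdl]
      exact c3) (ht _ ((Jx x x' k).l.p.supp _ u2)) (by
      have a1 := rmv_ptf (s := s) (s' := s') crd k ((Jx x x' k).l.p.π y')
      have a2 : pl (s.a.v k ((Jx x x' k).l.p.π y')) (s.x.v k ((Jx x x' k).l.p.π y'))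
        (s.t.v k ((Jx x x' k).l.p.π y') 0) = ptf s k ((Jx x x' k).l.p.π y') := rfl
      rw [a2, a1, ← hg']
      exact p4)
  -- agreement
  have hL1 : LJ s x x' i k (yJ 0 0) = Lp A i.succ (pJ s x x' i k (yJ 0 0)) := by
    unfold LJ
    rw [← hAd]
  have hL2 : LJ s x x' i k y' = Lp A i.succ (pJ s x x' i k y') := by
    unfold LJ
    rw [hA']
  have ha1 : aJ x x' i e k (yJ 0 0) = aF (2 ^ (-(e * n))) i.succ g := by
    unfold aJ
    rw [← hgd]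
  have ha2 : aJ x x' i e k y' = aF (2 ^ (-(e * n))) i.succ g := by
    unfold aJ
    rw [hg']
  have hq : ∀ v, 0 ≤ qf (aF (2 ^ (-(e * n))) i.succ g) v := by
    intro v
    rw [qf_aF]
    have a1 := dot_self_nonneg v
    have a2 : 0 ≤ qf g (rsv i.succ v) := hg.nonneg _
    positivity
  show AgV n e τ (aJ x x' i e k (yJ 0 0)) (aJ x x' i e k y') (LJ s x x' i k (yJ 0 0)) (LJ s x x' i k y')
  rw [ha1, ha2, hL1, hL2]
  have hone : (1 : ℝ) ≤ 2 ^ (e * n) := by linarith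
  refine ⟨fun v => le_mul_of_one_le_left (hq v) hone, fun v => le_mul_of_one_le_left (hq v) hone, fun v => ?_⟩
  refine (hmain v).trans ?_
  have a1 := dot_self_nonneg v
  have a2 : 0 ≤ qf g (rsv i.succ v) := hg.nonneg _
  have a3 : v ⬝ᵥ v + qf g (rsv i.succ v) ≤ 2 ^ (e * n) * qf (aF (2 ^ (-(e * n))) i.succ g) v := by
    rw [qf_aF, mul_add, ← mul_assoc, ← Real.rpow_add (by norm_num)]
    have b1 : e * n + -(e * n) = 0 := by ring
    rw [b1, Real.rpow_zero, one_mul]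
    have b2 : v ⬝ᵥ v ≤ 2 ^ (e * n) * (v ⬝ᵥ v) := le_mul_of_one_le_left a1 hone
    linarith
  refine (mul_le_mul_of_nonneg_left a3 (by positivity)).trans (le_of_eq ?_)
  rw [← mul_assoc, p2_mul]
  congr 2
  rw [hτ]
  ring

end

end Pool.Agent.Helper55.LP2
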