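import Pool.Agent.Helper55.LP2.S34e
import Pool.Agent.Helper39.LIP.Fin

/-! SEC34 of LIP(A): the row `S34P`; LIP(A). -/

set_option autoImplicit false

namespace Pool.Agent.Helper55.LP2

open Finset Filter Topology MvPolynomial Matrix Pool.Agent.Helper69.RK Pool.Agent.Helper31.EC
open Pool.Agent.Helper31.EC.Sp Pool.Agent.Helper40.EL
open Pool.Agent.Helper3.LF Pool.Agent.Helper48.NS Pool.Agent.Helper48.LIP Pool.Agent.Helper89.LX
open Pool.Agent.Helper3.SG Pool.Agent.Helper51.LD2 Pool.Agent.Helper51.S34 Pool.Agent.Helper42.NS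
open Pool.Agent.Helper40.NSK
open Pool.Agent.Helper95.LF (PdM)
open Pool.Agent.Helper39.LIP

noncomputable section

theorem Cz_nonneg (D : ℕ) : 0 ≤ Cz D := by
  have h1 := nn_one (3 + 1) D
  have h2 := Cu_one D
  have h3 := Cm_one (3 + 1) D
  unfold Cz
  positivity

/-- SEC34 -/
theorem s34 {D : ℕ} (hD : 1 ≤ D) : S34P D := by
  obtain ⟨Cc, hCc, hB⟩ := s34B
  have hDr : (1 : ℝ) ≤ (D : ℝ) := by exact_mod_cast hD
  have hD4 : (0 : ℝ) < ((D : ℝ) + 1) ^ 4 := by positivity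
  refine ⟨8 * D + 2, 1 / (16 * ((D : ℝ) + 1) ^ 4), by linarith, by positivity, ?_⟩
  intro S s s' i crd _ _ fac _ _ hR1 g _ _ c₀ c h0 hc h1 _ x hx _ hz x' hx' O θ ν hν hKθ hθ1 hKc hKν hL hC hS e he
  set q₁ : ℝ := 1 / (16 * ((D : ℝ) + 1) ^ 4) with hq₁
  set δ : ℝ := 1 / (8 * ((D : ℝ) + 1) ^ 4) with hδ
  have hδ0 : 0 < δ := by positivity
  have hqδ : q₁ = δ / 2 := by
    rw [hq₁, hδ]
    field_simp
    norm_num
  have hq2 : q₁ < δ := by linarith
  have hδ8 : 8 * ((D : ℝ) + 1) ^ 4 * δ ≤ 1 := by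
    rw [hδ]
    apply le_of_eq
    field_simp
  have hcl : c ≤ c₀ := hc.le
  have hc00 : 0 ≤ c₀ := h0.trans hcl
  have hθ0 : 0 < θ := by
    have : 0 < (8 * (D : ℝ) + 2) * ν := by positivity
    linarith
  -- the small parameter
  obtain ⟨e', he', e1, e2, e3⟩ : ∃ e' : ℝ, 0 < e' ∧ 4 * e' ≤ 1 - c₀ ∧ 4 * ((16 * D + 3) * e') ≤ θ ∧
      (24 * D + 12 + Cc) * e' ≤ e := by
    have a0 : (0 : ℝ) < 1 - c₀ := by linarith
    have a1 : (0 : ℝ) < 4 * (16 * D + 3) := by positivity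
    have a2 : (0 : ℝ) < 24 * D + 12 + Cc := by positivity
    refine ⟨min ((1 - c₀) / 4) (min (θ / (4 * (16 * D + 3))) (e / (24 * D + 12 + Cc))),
      lt_min (by positivity) (lt_min (by positivity) (by positivity)), ?_, ?_, ?_⟩
    · have := min_le_left ((1 - c₀) / 4) (min (θ / (4 * (16 * (D : ℝ) + 3))) (e / (24 * D + 12 + Cc)))
      linarith
    · have := (min_le_right ((1 - c₀) / 4) (min (θ / (4 * (16 * (D : ℝ) + 3))) (e / (24 * D + 12 + Cc)))).trans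
        (min_le_left _ _)
      rw [le_div_iff₀ a1] at this
      linarith
    · have := (min_le_right ((1 - c₀) / 4) (min (θ / (4 * (16 * (D : ℝ) + 3))) (e / (24 * D + 12 + Cc)))).trans
        (min_le_right _ _)
      rw [le_div_iff₀ a2] at this
      linarith
  set τ : ℝ := 1 - (D + 1) * (c₀ - c) - 2 * D * ν - (24 * D + 12) * e' with hτ
  have k1 : ((D : ℝ) + 1) * (c₀ - c) ≤ ν := by
    have b1 : 0 ≤ c₀ - c := by linarith
    have b2 : ((D : ℝ) + 1) * (c₀ - c) ≤ (8 * D + 2) * (c₀ - c) := mul_le_mul_of_nonneg_right (by linarith) b1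
    linarith
  have k2 : 2 * (D : ℝ) * ν ≤ θ / 4 := by
    have b1 : 8 * (D : ℝ) * ν ≤ (8 * D + 2) * ν := mul_le_mul_of_nonneg_right (by linarith) hν.le
    linarith
  have k3 : 2 * ν ≤ 1 - c₀ := by
    have b1 : 2 * ν ≤ (8 * D + 2) * ν := mul_le_mul_of_nonneg_right (by linarith) hν.le
    linarith
  have k4 : ν + 2 * D * ν ≤ (8 * D + 2) * ν := by
    have b1 : (1 + 2 * (D : ℝ)) * ν ≤ (8 * D + 2) * ν := mul_le_mul_of_nonneg_right (by linarith) hν.le
    linarith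
  have hτ1 : τ ≤ 1 := by
    have b1 : 0 ≤ ((D : ℝ) + 1) * (c₀ - c) := mul_nonneg (by linarith) (by linarith)
    have b2 : 0 ≤ 2 * (D : ℝ) * ν := by positivity
    have b3 : 0 ≤ (24 * (D : ℝ) + 12) * e' := by positivity
    rw [hτ]
    linarith
  -- the typical events
  obtain ⟨Gz, hGz, hGz'⟩ := XO_zvel3 O hc00 h1 hx.1.1 i hz (e' / 2) (by linarith)
  have hG1 := tend_or (G1_typ O fac h0 (hc.trans h1) hx' e' he') hGz
  have hG2 := G2_typ hc00 h1 hcl hx hx' i hz e' he'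
  obtain ⟨Kt, hKt, ht⟩ := s.t.bd
  have hC' := eventually_lt_of_ul_lt (UB_of_nonneg_le (C := 1) (Eventually.of_forall fun k => FSp.pb_nonneg _ _)
    (Eventually.of_forall fun k => FSp.pb_le_one _ _)) (lt_of_le_of_lt hC hq2)
  have hS' := eventually_lt_of_ul_lt (UB_of_nonneg_le (C := 1) (Eventually.of_forall fun k => FSp.pb_nonneg _ _)
    (Eventually.of_forall fun k => FSp.pb_le_one _ _)) (lt_of_le_of_lt hS hq2)
  have hmain : ∀ᶠ k in UF, δ ≤ (FAm.self (Jx x x' k).l.T ((Jx x x' k).l.V ⊓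
      Setoid.comap (Jx x x' k).l.p.π (cAs s c₀ k))).sp.pb (fun w => AgV (S.F k).n e' τ (aJ x x' i e' k w.1)
        (aJ x x' i e' k w.2) (LJ s x x' i k w.1) (LJ s x x' i k w.2)) := by
    filter_upwards [hG1.eventually (gt_mem_nhds hδ0), hG2.eventually (gt_mem_nhds hδ0), hL, hC', hS', hGz',
      jx_pd hcl hx hx', g0J_cpd (x := x) hx', O.cpd, ht, hKt.eventually_le he',
      (S.Sub_const (by linarith [(Kc_ge D).1] : (0 : ℝ) ≤ Kc D)).eventually_le he',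
      (S.Sub_const (by norm_num : (0 : ℝ) ≤ 8)).eventually_le he',
      (S.Sub_const (Cz_nonneg D)).eventually_le he'] with k a1 a2 a3 a4 a5 a6 a7 a8 a9 a10 a11 a12 a13 a14
    refine fin34 hD crd O hcl he' hν.le (by linarith) (θ := θ / 2) (by linarith) hδ8 k (by linarith) (by linarith)
      (by linarith) a7 (fun ω hω => (a8 ω hω).pdM) (fun ω hω => (a9 ω hω).pdM)
      (fun ω hω => (a10 ω hω 0).trans (by linarith)) (Gz k) a6 a1.le a2.le ?_ a5.le a4.le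
    have b1 : 2 * (θ / 2) = θ := by ring
    rw [b1]
    exact a3.trans hq2.le
  have hfin := hB hR1 crd hD hcl hx hx' hz he' hτ1 hδ0 hmain
  rw [HfE_iff_HH] at hfin ⊢
  refine HH.mono s hfin le_rfl ?_
  rw [hτ]
  linarith

/-- **LIP(A)**, without hypotheses other than the Strong theorem of the lower dimension -/
theorem lip_A {G : ℕ → Gg 3} {Φ : ℕ → Fnl 3} {D : ℕ} {g : ℝ} {S : Sp} {s : Sys S 3} (hD : 1 ≤ D)
    (hst : Pool.Agent.Helper59.EV.ST 1 2) (hG : GLip G) (hΦ : PLip Φ) (hs : Sel4 G Φ D g s) {z : Fin 3}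
    (hz : ZDir s D z) (hlt : lamI s z (c0 s D) < 1) :
    ∃ C c1 : ℝ, 0 < C ∧ 0 ≤ c1 ∧ c1 < c0 s D ∧ ∀ c, c1 < c → c < c0 s D → 1 - eta s D c ≤ C * (c0 s D - c) :=
  lipA hD (s34 hD) hst hG hΦ hs hz hlt

end

end Pool.Agent.Helper55.LP2
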