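import Pool.Agent.Helper55.LP2.Near
import Pool.Agent.Helper55.LP2.Cfx

/-! Two points of a line: the affine functions of the tangent hyperplanes agree modulo a 1-form of the base. -/

set_option autoImplicit false

namespace Pool.Agent.Helper55.LP2

open Finset MvPolynomial Matrix Pool.Agent.Helper3.LF Pool.Agent.Helper48.NS
open Pool.Agent.Helper95.LF (PdM)
open Pool.Agent.Helper89.LX (qf)
open Pool.Agent.Helper39.LIP

noncomputable section

variable {D : ℕ}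

/-- base directions -/
def em (zi : Fin (3 + 1)) (u : Fin 3 → ℝ) : Fin (3 + 1) → ℝ := Fin.insertNth (α := fun _ => ℝ) zi (0 : ℝ) u

/-- removal of the vertical coordinate -/
def rmv (zi : Fin (3 + 1)) (v : Fin (3 + 1) → ℝ) : Fin (2 + 1) → ℝ := fun j => v (zi.succAbove j)

/-- the vertical direction -/
def zv (zi : Fin (3 + 1)) : Fin (3 + 1) → ℝ := Pi.single zi 1

theorem em_same (zi : Fin (3 + 1)) (u : Fin (2 + 1) → ℝ) : em zi u zi = 0 :=
  Fin.insertNth_apply_same (α := fun _ => ℝ) zi (0 : ℝ) u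

theorem em_succ (zi : Fin (3 + 1)) (u : Fin (2 + 1) → ℝ) (j : Fin (2 + 1)) : em zi u (zi.succAbove j) = u j :=
  Fin.insertNth_apply_succAbove (α := fun _ => ℝ) zi (0 : ℝ) u j

theorem zv_same (zi : Fin (3 + 1)) : zv zi zi = 1 := Pi.single_eq_same zi 1

theorem zv_succ (zi : Fin (3 + 1)) (j : Fin (2 + 1)) : zv zi (zi.succAbove j) = 0 :=
  Pi.single_eq_of_ne (Fin.succAbove_ne zi j) 1

theorem zv_le (zi k : Fin (3 + 1)) : |zv zi k| ≤ 1 := by
  unfold zv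
  by_cases h : k = zi
  · rw [h, Pi.single_eq_same, abs_one]
  · rw [Pi.single_eq_of_ne h, abs_zero]
    norm_num

theorem fun_ext4 (zi : Fin (3 + 1)) {f g : Fin (3 + 1) → ℝ} (h0 : f zi = g zi)
    (h1 : ∀ j : Fin (2 + 1), f (zi.succAbove j) = g (zi.succAbove j)) : f = g := by
  funext j
  rcases Fin.eq_self_or_eq_succAbove zi j with h | ⟨i, h⟩
  · rw [h]
    exact h0
  · rw [h]
    exact h1 i

theorem em_rmv (zi : Fin (3 + 1)) (v : Fin (3 + 1) → ℝ) : v = fun j => em zi (rmv zi v) j + v zi * zv zi j := by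
  apply fun_ext4 zi
  · rw [em_same, zv_same]
    ring
  · intro j
    rw [em_succ, zv_succ]
    unfold rmv
    ring

theorem em_comb (zi : Fin (3 + 1)) (x y z : ℝ) (b0 b1 b2 : Fin (2 + 1) → ℝ) (j : Fin (3 + 1)) :
    em zi (fun k => x * b0 k + y * b1 k + z * b2 k) j = x * em zi b0 j + y * em zi b1 j + z * em zi b2 j := by
  have h : em zi (fun k => x * b0 k + y * b1 k + z * b2 k) =
      fun j => x * em zi b0 j + y * em zi b1 j + z * em zi b2 j := by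
    apply fun_ext4 zi
    · rw [em_same, em_same, em_same, em_same]
      ring
    · intro j
      rw [em_succ, em_succ, em_succ, em_succ]
  exact congrFun h j

/-- the coefficient of the affine function of the tangent hyperplane at `p`, vertical derivative one -/
def Lp (A : Matrix (Mon (3 + 1) D) (Mon (3 + 1) D) ℝ) (zi : Fin (3 + 1)) (p : Fin (3 + 1) → ℝ) : Mon (3 + 1) 1 → ℝ :=
  (∑ j, vpt A (zv zi) p (Pi.single j 1) • (Pi.single (Mon.var le_rfl j) 1 : Mon (3 + 1) 1 → ℝ)) -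
    vpt A (zv zi) p p • (Pi.single (Mon.zero (3 + 1) 1) 1 : Mon (3 + 1) 1 → ℝ)

theorem vpt_zero (A : Matrix (Mon (3 + 1) D) (Mon (3 + 1) D) ℝ) (z p : Fin (3 + 1) → ℝ) :
    vpt A z p (fun _ => 0) = 0 := by
  have h1 := vpt_lin A z p 0 0 (fun _ => 0) (fun _ => 0)
  have h2 : (fun k : Fin (3 + 1) => (0 : ℝ) * (fun _ => (0 : ℝ)) k + 0 * (fun _ => (0 : ℝ)) k) = fun _ => 0 := by
    funext k
    ring
  rw [h2] at h1
  rw [h1]
  ring

/-- the vertical part is linear -/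
theorem vpt_sum (A : Matrix (Mon (3 + 1) D) (Mon (3 + 1) D) ℝ) (z p u : Fin (3 + 1) → ℝ) :
    vpt A z p u = ∑ j, vpt A z p (Pi.single j 1) * u j := by
  have key : ∀ s : Finset (Fin (3 + 1)), vpt A z p (fun k => ∑ j ∈ s, u j * (Pi.single j 1 : Fin (3 + 1) → ℝ) k) =
      ∑ j ∈ s, vpt A z p (Pi.single j 1) * u j := by
    intro s
    induction s using Finset.induction_on with
    | empty =>
      simp only [Finset.sum_empty]
      exact vpt_zero A z p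
    | insert i s hi ih =>
      rw [Finset.sum_insert hi, ← ih]
      have e1 : (fun k => ∑ j ∈ insert i s, u j * (Pi.single j 1 : Fin (3 + 1) → ℝ) k) =
          fun k => u i * (Pi.single i 1 : Fin (3 + 1) → ℝ) k +
            1 * (fun k => ∑ j ∈ s, u j * (Pi.single j 1 : Fin (3 + 1) → ℝ) k) k := by
        funext k
        rw [Finset.sum_insert hi]
        ring
      rw [e1, vpt_lin]
      ring
  have e2 : u = fun k => ∑ j ∈ (Finset.univ : Finset (Fin (3 + 1))), u j * (Pi.single j 1 : Fin (3 + 1) → ℝ) k := by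
    funext k
    rw [Finset.sum_eq_single k]
    · rw [Pi.single_eq_same, mul_one]
    · intro j _ hj
      rw [Pi.single_eq_of_ne hj.symm, mul_zero]
    · intro h
      exact absurd (Finset.mem_univ k) h
  have h3 := key Finset.univ
  rw [← e2] at h3
  exact h3

/-- the linear part of a vector of affine functions -/
def v1 (v : Mon (3 + 1) 1 → ℝ) : Fin (3 + 1) → ℝ := fun j => v (Mon.var le_rfl j)

/-- the constant part -/
def v0 (v : Mon (3 + 1) 1 → ℝ) : ℝ := v (Mon.zero (3 + 1) 1)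

theorem Lp_dot (A : Matrix (Mon (3 + 1) D) (Mon (3 + 1) D) ℝ) (zi : Fin (3 + 1)) (p : Fin (3 + 1) → ℝ)
    (v : Mon (3 + 1) 1 → ℝ) : Lp A zi p ⬝ᵥ v = vpt A (zv zi) p (fun j => v1 v j - v0 v * p j) := by
  unfold Lp
  rw [sub_dotProduct, smul_dotProduct, sum_dotProduct]
  have e1 : ∀ j, (vpt A (zv zi) p (Pi.single j 1) • (Pi.single (Mon.var le_rfl j) 1 : Mon (3 + 1) 1 → ℝ)) ⬝ᵥ v =
      vpt A (zv zi) p (Pi.single j 1) * v1 v j := by
    intro j
    rw [smul_dotProduct, smul_eq_mul]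
    congr 1
    rw [single_dotProduct, one_mul]
    rfl
  rw [Finset.sum_congr rfl fun j _ => e1 j, ← vpt_sum, single_dotProduct, one_mul, smul_eq_mul]
  have e2 : (fun j => v1 v j - v0 v * p j) = fun j => 1 * v1 v j + (-v0 v) * p j := by
    funext j
    ring
  rw [e2, vpt_lin]
  unfold v0
  ring

/-- restriction of a vector of affine functions to the base -/
def rsv (zi : Fin (3 + 1)) (v : Mon (3 + 1) 1 → ℝ) : Mon (2 + 1) 1 → ℝ := v0 v • vv 0 + gv (rmv zi (v1 v))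

theorem rsv_eq (zi : Fin (3 + 1)) (v : Mon (3 + 1) 1 → ℝ) (p : Fin (3 + 1) → ℝ) :
    rsv zi v = v0 v • vv (rmv zi p) + gv (rmv zi fun j => v1 v j - v0 v * p j) := by
  have h1 := vv_gv (0 : Fin (2 + 1) → ℝ) (rmv zi p)
  rw [zero_add] at h1
  have h2 : rmv zi (fun j => v1 v j - v0 v * p j) = rmv zi (v1 v) - v0 v • rmv zi p := by
    funext j
    rfl
  rw [h1, h2, gv_sub, gv_smul]
  unfold rsv
  rw [smul_add]
  abel

theorem v0_sq (v : Mon (3 + 1) 1 → ℝ) : v0 v ^ 2 ≤ v ⬝ᵥ v := by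
  unfold v0 dotProduct
  rw [pow_two]
  exact Finset.single_le_sum (f := fun a => v a * v a) (fun a _ => mul_self_nonneg _) (Finset.mem_univ _)

theorem qf_two {ι : Type} [Fintype ι] {A : Matrix ι ι ℝ} (hA : PdM A) (x y : ι → ℝ) :
    qf A (x - y) ≤ 2 * qf A x + 2 * qf A y := by
  have h1 := hA.nonneg (x + y)
  have e1 : x - y = (1 : ℝ) • x + (-1 : ℝ) • y := by
    rw [one_smul, neg_one_smul, sub_eq_add_neg]
  have e2 : x + y = (1 : ℝ) • x + (1 : ℝ) • y := by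
    rw [one_smul, one_smul]
  have h2 : 0 ≤ qf A (x + y) := h1
  rw [e2, qf_comb hA.1] at h2
  rw [e1, qf_comb hA.1]
  linarith

/-- the final numbers -/
theorem two_fin {P Q g0 g1 g2 c xx s0 : ℝ} (hQ : 0 ≤ Q) (k2 : P ^ 2 ≤ Q * g0) (k3 : g0 ≤ 2 * g1 + 2 * (c ^ 2 * g2))
    (k4 : c ^ 2 ≤ xx) (k5 : 0 ≤ g1) (k6 : 0 ≤ g2) (k7 : 0 ≤ xx) :
    (P + c * s0) ^ 2 ≤ (4 * Q * (1 + g2) + 2 * s0 ^ 2) * (xx + g1) := by
  have j1 : (P + c * s0) ^ 2 ≤ 2 * P ^ 2 + 2 * (c ^ 2 * s0 ^ 2) := by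
    have f1 : 2 * P ^ 2 + 2 * (c ^ 2 * s0 ^ 2) - (P + c * s0) ^ 2 = (P - c * s0) ^ 2 := by ring
    have f2 := sq_nonneg (P - c * s0)
    linarith
  have j2 : P ^ 2 ≤ Q * (2 * g1 + 2 * (xx * g2)) := by
    refine k2.trans (mul_le_mul_of_nonneg_left (k3.trans ?_) hQ)
    have := mul_le_mul_of_nonneg_right k4 k6
    linarith
  have j3 : c ^ 2 * s0 ^ 2 ≤ xx * s0 ^ 2 := mul_le_mul_of_nonneg_right k4 (sq_nonneg _)
  have j4 : (4 * Q * (1 + g2) + 2 * s0 ^ 2) * (xx + g1) = 2 * (Q * (2 * g1 + 2 * (xx * g2))) + 2 * (xx * s0 ^ 2) +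
      (4 * Q * xx + 4 * Q * g2 * g1 + 2 * s0 ^ 2 * g1) := by ring
  rw [j4]
  have j5 : 0 ≤ 4 * Q * xx + 4 * Q * g2 * g1 + 2 * s0 ^ 2 * g1 := by positivity
  linarith

/-- THE TWO POINTS LEMMA -/
theorem two_pts {g : Matrix (Mon (2 + 1) 1) (Mon (2 + 1) 1) ℝ} (hg : PdM g) {w K ρ θ : ℝ} (hw : 0 < w) (hK : 1 ≤ K)
    (h0 : 0 < ρ) (h1 : ρ ≤ 1) (hθ : 0 < θ) (hρθ : 4 * ρ ≤ θ) (hθ1 : θ ≤ 1)
    (ht0 : ∀ u : Fin (2 + 1) → ℝ, (u 0) ^ 2 ≤ w ^ 2 * qf g (gv u)) {n : ℕ → Mon (2 + 1) 1 → ℝ}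
    (hd : ∀ i ≤ D, ∀ u : Fin 2 → ℝ, (n i ⬝ᵥ gM u) ^ 2 ≤ qf g (gM u))
    (hu : ∀ i ≤ D, ∃ u : Fin 2 → ℝ, qf g (gM u) = 1 ∧ n i ⬝ᵥ gM u = 1) (zi : Fin (3 + 1))
    {v : ℕ → ℕ → Fin (3 + 1) → ℝ} (hν : ∀ i ≤ D, ∀ k ≤ D, rmv zi (v i k) 0 = 1)
    (hνK : ∀ i ≤ D, ∀ k ≤ D, w ^ 2 * qf g (gv (rmv zi (v i k))) ≤ K ^ 2)
    (hn : ∀ i ≤ D, ∀ k ≤ D, w ^ 2 * (n i ⬝ᵥ gv (rmv zi (v i k))) ^ 2 ≤ ρ ^ 2)
    (hsp : ∀ i ≤ D, ∀ k ≤ D, ∀ l ≤ D, k ≠ l → 4 * θ ^ 2 ≤ w ^ 2 * qf g (gv (rmv zi (v i k) - rmv zi (v i l))))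
    (htr : ∀ i ≤ D, ∀ j ≤ D, i ≠ j → ¬ Clo g (5 * K * θ) (n i) (n j))
    (hc : fP D K θ * (Cu D * ρ) ≤ 1 / 2)
    {A : Matrix (Mon (3 + 1) D) (Mon (3 + 1) D) ℝ} (hA : PdM A) {B : ℝ} (hB : 0 < B)
    (hT : ∀ (i : Fin (3 + 1)) v, qf A (Tm i *ᵥ v) ≤ B ^ 2 * qf A v) (p : Fin (3 + 1) → ℝ) (Λ : ℝ) (hΛ : 0 < Λ)
    (hΛ' : Λ ^ 2 ≤ qf A (gd (zv zi) p)) (a h : ℝ) (ha : 0 < a) (hh : 0 < h)
    (hline : ∀ i ≤ D, ∀ k ≤ D, ∀ t, |t| ≤ h → qf A (vv (fun j => p j + t * v i k j)) ≤ a ^ 2)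
    (G : ℝ) (hG : 1 ≤ G) (p' : Fin (3 + 1) → ℝ)
    (hp1 : w ^ 2 * qf g (gv (rmv zi fun j => p' j - p j)) ≤ (G * hs (3 + 1) D a B Λ h) ^ 2)
    (hp2 : |vpt A (zv zi) p (fun j => p' j - p j)| ≤ G / (((3 + 1 : ℕ) : ℝ) * B))
    (Λ₂ : ℝ) (hΛ₂ : 0 < Λ₂) (hΛ₂' : Λ₂ ^ 2 ≤ qf A (gd (zv zi) p')) (x : Mon (3 + 1) 1 → ℝ) :
    ((Lp A zi p - Lp A zi p') ⬝ᵥ x) ^ 2 ≤ (4 * (bd (3 + 1) D K θ a B Λ h G * w / Λ₂) ^ 2 *
      (1 + qf g (vv (rmv zi p'))) + 2 * vpt A (zv zi) p (fun j => p' j - p j) ^ 2) * (x ⬝ᵥ x + qf g (rsv zi x)) := by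
  obtain ⟨α, b0, b1, b2, a', b', c', X, Y, hα, e0, e1, e2, hq, hspn, hνf, H⟩ :=
    cfg_of_clo (D := D) hg hw hK h0 h1 hθ hρθ hθ1 ht0 hd hu (ν := fun i k => rmv zi (v i k)) hν hνK hn hsp htr hc
  have hbd := bd_pos (N := 3 + 1) (by norm_num) D hK hθ ha hB hΛ hh hG
  set β := bd (3 + 1) D K θ a B Λ h G with hβ
  have hqz : 0 < qf A (gd (zv zi) p) := lt_of_lt_of_le (by positivity) hΛ'
  have hqz' : 0 < qf A (gd (zv zi) p') := lt_of_lt_of_le (by positivity) hΛ₂'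
  have hw2 : 0 < w ^ 2 := by positivity
  have hline' : ∀ i ≤ D, ∀ k ≤ D, ∀ t, |t| ≤ h → qf A (vv (fun j => p j + t * (em zi b0 j + X i k * em zi b1 j +
      Y i k * em zi b2 j + v i k zi * zv zi j))) ≤ a ^ 2 := by
    intro i hi k hk t ht
    have f1 := hline i hi k hk t ht
    have f2 : (fun j => p j + t * v i k j) = fun j => p j + t * (em zi b0 j + X i k * em zi b1 j +
        Y i k * em zi b2 j + v i k zi * zv zi j) := by
      funext j
      have f3 := congrFun (em_rmv zi (v i k)) j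
      have f4 : rmv zi (v i k) = fun j => (1 : ℝ) * b0 j + X i k * b1 j + Y i k * b2 j := by
        have f5 : rmv zi (v i k) = fun j => b0 j + X i k * b1 j + Y i k * b2 j := hνf i hi k hk
        rw [f5]
        funext j
        ring
      rw [f3, f4, em_comb]
      ring
    rw [f2] at f1
    exact f1
  -- unit base directions
  have hunit : ∀ u : Fin (2 + 1) → ℝ, w ^ 2 * qf g (gv u) ≤ 1 →
      qf A (gd (fun j => em zi u j - vpt A (zv zi) p (em zi u) * zv zi j) p') ≤ β ^ 2 := by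
    intro u hu1
    obtain ⟨y, z, hyz⟩ := hspn u
    have f1 : w ^ 2 * qf g (gv u) = α * (u 0) ^ 2 + y ^ 2 + z ^ 2 := by
      have := hq (u 0) y z
      rw [← hyz] at this
      exact this
    rw [f1] at hu1
    have g0 : 0 ≤ α * (u 0) ^ 2 := by positivity
    have g1 := sq_nonneg y
    have g2 := sq_nonneg z
    have g3 : (u 0) ^ 2 ≤ α * (u 0) ^ 2 := le_mul_of_one_le_left (sq_nonneg _) hα
    have k0 : |u 0| ≤ 1 := abs_le_of_sq_le_sq (by linarith) zero_le_one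
    have k1 : |y| ≤ 1 := abs_le_of_sq_le_sq (by linarith) zero_le_one
    have k2 : |z| ≤ 1 := abs_le_of_sq_le_sq (by linarith) zero_le_one
    -- coordinates of the point
    obtain ⟨ym, zm, hym⟩ := hspn (rmv zi fun j => p' j - p j)
    set xm := rmv zi (fun j => p' j - p j) 0 with hxm
    have f2 : w ^ 2 * qf g (gv (rmv zi fun j => p' j - p j)) = α * xm ^ 2 + ym ^ 2 + zm ^ 2 := by
      have := hq xm ym zm
      rw [← hym] at this
      exact this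
    rw [f2] at hp1
    have hGh : 0 ≤ G * hs (3 + 1) D a B Λ h :=
      mul_nonneg (by linarith) (hs_pos (N := 3 + 1) (by norm_num) D ha hB hΛ hh).le
    have g4 : xm ^ 2 ≤ α * xm ^ 2 := le_mul_of_one_le_left (sq_nonneg _) hα
    have g5 := sq_nonneg xm
    have g6 := sq_nonneg ym
    have g7 := sq_nonneg zm
    have m0 : |xm| ≤ G * hs (3 + 1) D a B Λ h := abs_le_of_sq_le_sq (by linarith) hGh
    have m1 : |ym| ≤ G * hs (3 + 1) D a B Λ h := abs_le_of_sq_le_sq (by linarith) hGh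
    have m2 : |zm| ≤ G * hs (3 + 1) D a B Λ h := abs_le_of_sq_le_sq (by linarith) hGh
    apply disc_near H hA hB (by norm_num : 0 < 3 + 1) hT p (zv zi) (em zi b0) (em zi b1) (em zi b2) (zv_le zi) Λ hΛ hΛ'
      (fun i k => v i k zi) a h ha hh hline' G hG xm ym zm (p' zi - p zi) p' (fun j => ?_) m0 m1 m2 hp2 (u 0) y z
      k0 k1 k2 (em zi u) (fun j => ?_)
    · have f3 := congrFun (em_rmv zi fun j => p' j - p j) j
      have f4 : p' j - p j = em zi (rmv zi fun j => p' j - p j) j + (p' zi - p zi) * zv zi j := f3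
      have f5 : em zi (rmv zi fun j => p' j - p j) j = xm * em zi b0 j + ym * em zi b1 j + zm * em zi b2 j := by
        rw [hym, em_comb]
      linarith
    · have f5 : em zi u j = em zi (fun k => u 0 * b0 k + y * b1 k + z * b2 k) j := by
        rw [← hyz]
      rw [f5, em_comb]
  -- the vertical parts at the two points
  have hmove : ∀ u : Fin (2 + 1) → ℝ, (vpt A (zv zi) p (em zi u) - vpt A (zv zi) p' (em zi u)) ^ 2 * Λ₂ ^ 2 ≤
      β ^ 2 * (w ^ 2 * qf g (gv u)) := by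
    intro u
    by_cases hu0 : u = 0
    · have f1 : em zi u = fun _ => 0 := by
        apply fun_ext4 zi
        · exact em_same zi u
        · intro j
          rw [em_succ, hu0]
          rfl
      rw [f1, vpt_zero, vpt_zero]
      have f2 : 0 ≤ qf g (gv u) := hg.nonneg _
      have f3 : 0 ≤ β ^ 2 * (w ^ 2 * qf g (gv u)) := by positivity
      have f4 : ((0 : ℝ) - 0) ^ 2 * Λ₂ ^ 2 = 0 := by ring
      rw [f4]
      exact f3
    · have hpos : 0 < w ^ 2 * qf g (gv u) := mul_pos hw2 (hg.2 _ (gv_ne hu0))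
      set r : ℝ := Real.sqrt (w ^ 2 * qf g (gv u)) with hr
      have hr0 : 0 < r := Real.sqrt_pos.mpr hpos
      have hrr : r ^ 2 = w ^ 2 * qf g (gv u) := Real.sq_sqrt hpos.le
      have f1 := hunit (r⁻¹ • u) (by
        rw [gv_smul, qf_smul_vec]
        have : w ^ 2 * (r⁻¹ ^ 2 * qf g (gv u)) = r⁻¹ ^ 2 * r ^ 2 := by rw [hrr]; ring
        rw [this, ← mul_pow, inv_mul_cancel₀ hr0.ne', one_pow])
      have f2 := vpt_move hA (zv zi) p' (em zi (r⁻¹ • u)) (vpt A (zv zi) p (em zi (r⁻¹ • u))) hqz'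
      have f3 : em zi (r⁻¹ • u) = fun j => r⁻¹ * em zi u j + 0 * em zi u j := by
        apply fun_ext4 zi
        · rw [em_same, em_same]
          ring
        · intro j
          rw [em_succ, em_succ, Pi.smul_apply, smul_eq_mul]
          ring
      have f4 : ∀ q, vpt A (zv zi) q (em zi (r⁻¹ • u)) = r⁻¹ * vpt A (zv zi) q (em zi u) := by
        intro q
        rw [f3, vpt_lin]
        ring
      have f5 : (vpt A (zv zi) p (em zi (r⁻¹ • u)) - vpt A (zv zi) p' (em zi (r⁻¹ • u))) ^ 2 * Λ₂ ^ 2 ≤ β ^ 2 := by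
        refine le_trans ?_ (f2.trans f1)
        exact mul_le_mul_of_nonneg_left hΛ₂' (sq_nonneg _)
      rw [f4, f4] at f5
      have f6 : (r⁻¹ * vpt A (zv zi) p (em zi u) - r⁻¹ * vpt A (zv zi) p' (em zi u)) ^ 2 * Λ₂ ^ 2 =
          r⁻¹ ^ 2 * ((vpt A (zv zi) p (em zi u) - vpt A (zv zi) p' (em zi u)) ^ 2 * Λ₂ ^ 2) := by ring
      rw [f6] at f5
      rw [← hrr]
      have f7 : (vpt A (zv zi) p (em zi u) - vpt A (zv zi) p' (em zi u)) ^ 2 * Λ₂ ^ 2 = r ^ 2 *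
          (r⁻¹ ^ 2 * ((vpt A (zv zi) p (em zi u) - vpt A (zv zi) p' (em zi u)) ^ 2 * Λ₂ ^ 2)) := by
        field_simp
      rw [f7, mul_comm (β ^ 2)]
      exact mul_le_mul_of_nonneg_left f5 (sq_nonneg _)
  -- conclusion
  set u : Fin (3 + 1) → ℝ := fun j => v1 x j - v0 x * p' j with hu'
  set s0 : ℝ := vpt A (zv zi) p (fun j => p' j - p j) with hs0
  have k1 : (Lp A zi p - Lp A zi p') ⬝ᵥ x =
      (vpt A (zv zi) p (em zi (rmv zi u)) - vpt A (zv zi) p' (em zi (rmv zi u))) + v0 x * s0 := by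
    rw [sub_dotProduct, Lp_dot, Lp_dot]
    have f1 : (fun j => v1 x j - v0 x * p j) = fun j => 1 * u j + v0 x * (fun j => p' j - p j) j := by
      funext j
      rw [hu']
      ring
    rw [f1, vpt_lin, ← hs0, one_mul]
    have f2 : ∀ q, 0 < qf A (gd (zv zi) q) → vpt A (zv zi) q u = vpt A (zv zi) q (em zi (rmv zi u)) + u zi := by
      intro q hq0
      have f3 : u = fun j => 1 * em zi (rmv zi u) j + u zi * zv zi j := by
        have f4 := em_rmv zi u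
        have f5 : (fun j => em zi (rmv zi u) j + u zi * zv zi j) = fun j => 1 * em zi (rmv zi u) j + u zi * zv zi j := by
          funext j
          ring
        rw [← f5]
        exact f4
      have f6 : vpt A (zv zi) q u = vpt A (zv zi) q (fun j => 1 * em zi (rmv zi u) j + u zi * zv zi j) :=
        congrArg (vpt A (zv zi) q) f3
      rw [f6, vpt_lin, vpt_z hq0]
      ring
    have f7 : (fun j => v1 x j - v0 x * p' j) = u := rfl
    rw [f7, f2 p hqz, f2 p' hqz']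
    ring
  have k2 : (vpt A (zv zi) p (em zi (rmv zi u)) - vpt A (zv zi) p' (em zi (rmv zi u))) ^ 2 ≤
      (β * w / Λ₂) ^ 2 * qf g (gv (rmv zi u)) := by
    have f1 := hmove (rmv zi u)
    have f2 : 0 < Λ₂ ^ 2 := by positivity
    have f3 : (β * w / Λ₂) ^ 2 * qf g (gv (rmv zi u)) = (β ^ 2 * (w ^ 2 * qf g (gv (rmv zi u)))) / Λ₂ ^ 2 := by
      field_simp
    rw [f3, le_div_iff₀ f2]
    exact f1
  have k3 : qf g (gv (rmv zi u)) ≤ 2 * qf g (rsv zi x) + 2 * (v0 x ^ 2 * qf g (vv (rmv zi p'))) := by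
    have f1 : gv (rmv zi u) = rsv zi x - v0 x • vv (rmv zi p') := by
      rw [rsv_eq zi x p']
      abel
    rw [f1]
    have f2 := qf_two hg (rsv zi x) (v0 x • vv (rmv zi p'))
    rw [qf_smul_vec] at f2
    exact f2
  have k4 := v0_sq x
  have k5 : 0 ≤ qf g (rsv zi x) := hg.nonneg _
  have k6 : 0 ≤ qf g (vv (rmv zi p')) := hg.nonneg _
  have k7 : 0 ≤ x ⬝ᵥ x := (sq_nonneg _).trans k4
  have hQ0 : 0 ≤ (β * w / Λ₂) ^ 2 := sq_nonneg _
  rw [k1]
  exact two_fin hQ0 k2 k3 k4 k5 k6 k7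

end

end Pool.Agent.Helper55.LP2
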